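import Mathlib

/-!
# Definitions for the statements: invariants of `H ⊗ ⋀ V`

For a commutative algebra `H` and a representation `V` of a group `W`, both over `ℂ`, this file
defines the algebra `A = (H ⊗ ⋀ V)^W` and its subspace `U = (H ⊗ V)^W`.  It also defines when a
subalgebra `B` of an algebra is an exterior algebra on a subspace `U`, and when an algebra `H` is
the fibre of an `R`-algebra `K` at a point of `R`.
-/

open scoped TensorProduct

namespace Pool.Agent.Helper664_Ext

/-- The subalgebra `B` of `A` is an exterior algebra on its subspace `U`: some algebra homomorphism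
`⋀ U → A` extends the inclusion of `U`, is injective and has image `B`. -/
def IsExteriorOn {A : Type*} [Ring A] [Algebra ℂ A] (U : Submodule ℂ A) (B : Subalgebra ℂ A) :
    Prop :=
  ∃ φ : ExteriorAlgebra ℂ U →ₐ[ℂ] A, (∀ u : U, φ (ExteriorAlgebra.ι ℂ u) = u) ∧
    Function.Injective φ ∧ φ.range = B

section Exterior

variable {W : Type*} [Group W] {H : Type*} [CommRing H] [Algebra ℂ H]
  {V : Type*} [AddCommGroup V] [Module ℂ V]
  (σ : W →* (H ≃ₐ[ℂ] H)) (τ : W →* (V ≃ₗ[ℂ] V))

/-- The diagonal action of `w` on `H ⊗ ⋀ V`. -/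
noncomputable def wAct (w : W) :
    (H ⊗[ℂ] ExteriorAlgebra ℂ V) →ₐ[ℂ] (H ⊗[ℂ] ExteriorAlgebra ℂ V) :=
  Algebra.TensorProduct.map (σ w : H →ₐ[ℂ] H) (ExteriorAlgebra.map (τ w : V →ₗ[ℂ] V))

/-- The algebra of invariants `A = (H ⊗ ⋀ V)^W`. -/
noncomputable def AInv : Subalgebra ℂ (H ⊗[ℂ] ExteriorAlgebra ℂ V) :=
  ⨅ w : W, AlgHom.equalizer (wAct σ τ w) (AlgHom.id ℂ (H ⊗[ℂ] ExteriorAlgebra ℂ V))

/-- The subspace `U = (H ⊗ V)^W` of `A`: the invariants which lie in the image of `H ⊗ V`. -/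
noncomputable def UInv : Submodule ℂ (H ⊗[ℂ] ExteriorAlgebra ℂ V) :=
  (LinearMap.range (LinearMap.lTensor H (ExteriorAlgebra.ι ℂ (M := V)))) ⊓
    Subalgebra.toSubmodule (AInv σ τ)

end Exterior

/-- By `π`, the ring `H` is the fibre of the `R`-algebra `K` at the point `χ` of `R`. -/
def IsFibre {R K H : Type*} [CommRing R] [CommRing K] [Algebra R K] [CommRing H] (χ : R →+* ℂ)
    (π : K →+* H) : Prop :=
  Function.Surjective π ∧ RingHom.ker π = Ideal.map (algebraMap R K) (RingHom.ker χ)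

end Pool.Agent.Helper664_Ext
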