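import Pool.Agent.Helper664_Ext.Purity
import Pool.Agent.Helper664_Ext.Stmt

/-!
# The two forms of the definition of an exterior algebra of invariants agree
-/

open Module TensorProduct

namespace Pool.Agent.Helper664_Ext

section Bridge

variable {W : Type*} [Group W] {H : Type*} [CommRing H] [Algebra ℂ H]
  {V : Type*} [AddCommGroup V] [Module ℂ V]
  (σ : W →* (H ≃ₐ[ℂ] H)) (τ : W →* (V ≃ₗ[ℂ] V))

theorem aInv_eq : AInv σ τ = invAlg σ τ := rfl

/-- the two versions of `U` -/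
noncomputable def uEquiv : UInv σ τ ≃ₗ[ℂ] invOne σ τ where
  toFun u := ⟨⟨u.1, u.2.2⟩, u.2.1⟩
  invFun u := ⟨u.1.1, u.2, u.1.2⟩
  map_add' _ _ := rfl
  map_smul' _ _ := rfl
  left_inv _ := rfl
  right_inv _ := rfl

theorem uEquiv_coe (u : UInv σ τ) :
    (((uEquiv σ τ u : invOne σ τ) : invAlg σ τ) : H ⊗[ℂ] ExteriorAlgebra ℂ V) = u := rfl

theorem finrank_uInv : finrank ℂ (UInv σ τ) = finrank ℂ (invOne σ τ) := (uEquiv σ τ).finrank_eq

theorem map_uEquiv_bijective : Function.Bijective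
    (ExteriorAlgebra.map (uEquiv σ τ : UInv σ τ →ₗ[ℂ] invOne σ τ)) := by
  constructor
  · exact ExteriorAlgebra.map_injective_field (LinearEquiv.ker _)
  · exact ExteriorAlgebra.map_surjective_iff.2 (uEquiv σ τ).surjective

/-- the natural map, on the other version of `U` -/
noncomputable def extMap : ExteriorAlgebra ℂ (UInv σ τ) →ₐ[ℂ] H ⊗[ℂ] ExteriorAlgebra ℂ V :=
  ((invAlg σ τ).val.comp (psi σ τ)).comp
      (ExteriorAlgebra.map (uEquiv σ τ : UInv σ τ →ₗ[ℂ] invOne σ τ))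

theorem extMap_ι (u : UInv σ τ) : extMap σ τ (ExteriorAlgebra.ι ℂ u) = u := by
  simp only [extMap, AlgHom.comp_apply]
  rw [ExteriorAlgebra.map_apply_ι, psi_ι]
  rfl

theorem isExteriorOn_iff : IsExteriorOn (UInv σ τ) (AInv σ τ) ↔ IsExterior σ τ := by
  have hb := map_uEquiv_bijective σ τ
  have hval : Function.Injective (invAlg σ τ).val := Subtype.val_injective
  have hinj : Function.Injective (extMap σ τ) ↔ Function.Injective (psi σ τ) := by
    unfold extMap
    simp only [AlgHom.coe_comp]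
    rw [Function.Injective.of_comp_iff' _ hb, Function.Injective.of_comp_iff hval]
  have hran : (extMap σ τ).range = AInv σ τ ↔ Function.Surjective (psi σ τ) := by
    constructor
    · intro h a
      have ha : (a : H ⊗[ℂ] ExteriorAlgebra ℂ V) ∈ (extMap σ τ).range := by
        rw [h]; exact a.2
      obtain ⟨z, hz⟩ := ha
      refine ⟨ExteriorAlgebra.map (uEquiv σ τ : UInv σ τ →ₗ[ℂ] invOne σ τ) z, ?_⟩
      apply hval
      exact hz
    · intro h
      apply le_antisymm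
      · rintro _ ⟨z, rfl⟩
        exact (psi σ τ (ExteriorAlgebra.map (uEquiv σ τ : UInv σ τ →ₗ[ℂ] invOne σ τ) z)).2
      · intro t ht
        obtain ⟨z, hz⟩ := h ⟨t, ht⟩
        obtain ⟨y, rfl⟩ := hb.2 z
        refine ⟨y, ?_⟩
        exact congrArg (invAlg σ τ).val hz
  constructor
  · rintro ⟨φ, h1, h2, h3⟩
    have h4 : φ = extMap σ τ := by
      apply ExteriorAlgebra.hom_ext
      ext u
      simp only [LinearMap.comp_apply, AlgHom.toLinearMap_apply]
      rw [h1, extMap_ι]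
    subst h4
    exact ⟨hinj.1 h2, hran.1 h3⟩
  · intro h
    exact ⟨extMap σ τ, extMap_ι σ τ, hinj.2 h.1, hran.2 h.2⟩

end Bridge

section Transport

variable {A A' : Type*} [Ring A] [Algebra ℂ A] [Ring A'] [Algebra ℂ A']

theorem IsExteriorOn.map (e : A ≃ₐ[ℂ] A') {U : Submodule ℂ A} {B : Subalgebra ℂ A}
    {U' : Submodule ℂ A'} {B' : Subalgebra ℂ A'} (hU : ∀ a, a ∈ U ↔ e a ∈ U')
    (hB : ∀ a, a ∈ B ↔ e a ∈ B') (h : IsExteriorOn U B) : IsExteriorOn U' B' := by
  obtain ⟨φ, h1, h2, h3⟩ := h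
  -- the inverse isomorphism `U' → U`
  let g : U' ≃ₗ[ℂ] U :=
    { toFun := fun u => ⟨e.symm u, (hU _).2 (by rw [e.apply_symm_apply]; exact u.2)⟩
      invFun := fun u => ⟨e u, (hU _).1 u.2⟩
      map_add' := fun u v => Subtype.ext (map_add e.symm _ _)
      map_smul' := fun c u => Subtype.ext (map_smul e.symm _ _)
      left_inv := fun u => Subtype.ext (e.apply_symm_apply _)
      right_inv := fun u => Subtype.ext (e.symm_apply_apply _) }
  have hb : Function.Bijective (ExteriorAlgebra.map (g : U' →ₗ[ℂ] U)) := by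
    constructor
    · exact ExteriorAlgebra.map_injective_field (LinearEquiv.ker _)
    · exact ExteriorAlgebra.map_surjective_iff.2 g.surjective
  refine ⟨((e : A →ₐ[ℂ] A').comp φ).comp (ExteriorAlgebra.map (g : U' →ₗ[ℂ] U)), ?_, ?_, ?_⟩
  · intro u
    simp only [AlgHom.comp_apply]
    rw [ExteriorAlgebra.map_apply_ι, LinearEquiv.coe_coe, h1]
    exact e.apply_symm_apply _
  · simp only [AlgHom.coe_comp]
    exact (e.injective.comp h2).comp hb.1
  · apply le_antisymm
    · rintro _ ⟨z, rfl⟩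
      refine (hB _).1 ?_
      rw [← h3]
      exact ⟨_, rfl⟩
    · intro t ht
      have h4 : e.symm t ∈ B := by rw [hB, e.apply_symm_apply]; exact ht
      rw [← h3] at h4
      obtain ⟨z, hz⟩ := h4
      obtain ⟨y, rfl⟩ := hb.2 z
      refine ⟨y, ?_⟩
      have h5 := congrArg e hz
      rw [e.apply_symm_apply] at h5
      exact h5

variable {W : Type*} [Group W] {H H' : Type*} [CommRing H] [Algebra ℂ H] [CommRing H']
  [Algebra ℂ H'] {V : Type*} [AddCommGroup V] [Module ℂ V]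
  (σ : W →* (H ≃ₐ[ℂ] H)) (σ' : W →* (H' ≃ₐ[ℂ] H')) (τ : W →* (V ≃ₗ[ℂ] V))

/-- the induced isomorphism -/
noncomputable def congrAmb (e : H ≃ₐ[ℂ] H') :
    H ⊗[ℂ] ExteriorAlgebra ℂ V ≃ₐ[ℂ] H' ⊗[ℂ] ExteriorAlgebra ℂ V :=
  Algebra.TensorProduct.congr e AlgEquiv.refl

theorem congrAmb_wAct (e : H ≃ₐ[ℂ] H') (he : ∀ w h, e (σ w h) = σ' w (e h)) (w : W)
    (t : H ⊗[ℂ] ExteriorAlgebra ℂ V) :
    congrAmb e (wAct σ τ w t) = wAct σ' τ w (congrAmb e t) := by
  induction t using TensorProduct.induction_on with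
  | zero => simp
  | add s t hs ht => simp only [map_add, hs, ht]
  | tmul h v =>
    simp only [congrAmb, wAct, Algebra.TensorProduct.map_tmul,
      Algebra.TensorProduct.congr_apply, AlgEquiv.refl_toAlgHom]
    have h1 : (e : H →ₐ[ℂ] H') ((σ w : H →ₐ[ℂ] H) h) = (σ' w : H' →ₐ[ℂ] H') ((e : H →ₐ[ℂ] H') h) :=
      he w h
    rw [h1]
    rfl

theorem mem_aInv (t : H ⊗[ℂ] ExteriorAlgebra ℂ V) :
    t ∈ AInv σ τ ↔ ∀ w, wAct σ τ w t = t := by
  simp only [AInv, Algebra.mem_iInf]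
  rfl

theorem congr_mem_aInv (e : H ≃ₐ[ℂ] H') (he : ∀ w h, e (σ w h) = σ' w (e h))
    (t : H ⊗[ℂ] ExteriorAlgebra ℂ V) : t ∈ AInv σ τ ↔ congrAmb e t ∈ AInv σ' τ := by
  rw [mem_aInv, mem_aInv]
  refine forall_congr' fun w => ?_
  rw [← congrAmb_wAct σ σ' τ e he]
  exact ((congrAmb e).injective.eq_iff).symm

theorem congrAmb_lTensor (e : H ≃ₐ[ℂ] H') (s : H ⊗[ℂ] V) :
    congrAmb e (LinearMap.lTensor H (ExteriorAlgebra.ι ℂ (M := V)) s) =
      LinearMap.lTensor H' (ExteriorAlgebra.ι ℂ (M := V))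
        (LinearMap.rTensor V e.toLinearMap s) := by
  induction s using TensorProduct.induction_on with
  | zero => simp
  | add s t hs ht => simp only [map_add, hs, ht]
  | tmul h v => rfl

theorem congr_mem_uInv (e : H ≃ₐ[ℂ] H') (he : ∀ w h, e (σ w h) = σ' w (e h))
    (t : H ⊗[ℂ] ExteriorAlgebra ℂ V) : t ∈ UInv σ τ ↔ congrAmb e t ∈ UInv σ' τ := by
  have h1 : t ∈ LinearMap.range (LinearMap.lTensor H (ExteriorAlgebra.ι ℂ (M := V))) ↔
      congrAmb e t ∈ LinearMap.range (LinearMap.lTensor H' (ExteriorAlgebra.ι ℂ (M := V))) := by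
    constructor
    · rintro ⟨s, rfl⟩
      exact ⟨_, (congrAmb_lTensor e s).symm⟩
    · rintro ⟨s, hs⟩
      refine ⟨LinearMap.rTensor V e.symm.toLinearMap s, ?_⟩
      apply (congrAmb e).injective
      have h2 : e.toLinearMap ∘ₗ e.symm.toLinearMap = LinearMap.id := by
        ext a; exact e.apply_symm_apply a
      have h3 : LinearMap.rTensor V e.toLinearMap (LinearMap.rTensor V e.symm.toLinearMap s) = s := by
        rw [← LinearMap.comp_apply, ← LinearMap.rTensor_comp, h2, LinearMap.rTensor_id,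
          LinearMap.id_apply]
      rw [congrAmb_lTensor, ← hs, h3]
  unfold UInv
  rw [Submodule.mem_inf, Submodule.mem_inf, h1, Subalgebra.mem_toSubmodule,
    Subalgebra.mem_toSubmodule, ← congr_mem_aInv σ σ' τ e he]

theorem isExteriorOn_congr (e : H ≃ₐ[ℂ] H') (he : ∀ w h, e (σ w h) = σ' w (e h))
    (h : IsExteriorOn (UInv σ τ) (AInv σ τ)) : IsExteriorOn (UInv σ' τ) (AInv σ' τ) :=
  h.map (congrAmb e) (congr_mem_uInv σ σ' τ e he) (congr_mem_aInv σ σ' τ e he)

theorem finrank_uInv_congr (e : H ≃ₐ[ℂ] H') (he : ∀ w h, e (σ w h) = σ' w (e h)) :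
    finrank ℂ (UInv σ τ) = finrank ℂ (UInv σ' τ) := by
  have h1 : (UInv σ τ).map (congrAmb (V := V) e).toLinearEquiv.toLinearMap = UInv σ' τ := by
    ext t
    constructor
    · rintro ⟨s, hs, rfl⟩
      exact (congr_mem_uInv σ σ' τ e he s).1 hs
    · intro ht
      refine ⟨(congrAmb e).symm t, ?_, (congrAmb e).apply_symm_apply t⟩
      show (congrAmb e).symm t ∈ UInv σ τ
      rw [congr_mem_uInv σ σ' τ e he, (congrAmb e).apply_symm_apply]
      exact ht
  rw [← h1]
  exact ((congrAmb (V := V) e).toLinearEquiv.submoduleMap (UInv σ τ)).finrank_eq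

end Transport

end Pool.Agent.Helper664_Ext
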