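import Mathlib

/-!
# Definitions: invariants of `H ⊗ ⋀ V` and flat families over a space of polynomial functions

For a commutative algebra `H` and a representation `V` of a group `W`, both over `ℂ`, this file
defines the algebra `A = (H ⊗ ⋀ V)^W`, its subspace `U = (H ⊗ V)^W`, the natural map
`⋀ U → A`, and the property that this map is bijective.

It also defines the algebra of polynomial functions on a vector space `E` and, for an algebra
`K` over it, the fibre of `K` at a point of `E`.
-/

open scoped TensorProduct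

namespace Pool.Agent.Helper664_Ext

section Exterior

variable {W : Type*} [Group W] {H : Type*} [CommRing H] [Algebra ℂ H]
  {V : Type*} [AddCommGroup V] [Module ℂ V]
  (σ : W →* (H ≃ₐ[ℂ] H)) (τ : W →* (V ≃ₗ[ℂ] V))

/-- The diagonal action of `w` on `H ⊗ ⋀ V`. -/
noncomputable def diag (w : W) :
    (H ⊗[ℂ] ExteriorAlgebra ℂ V) →ₐ[ℂ] (H ⊗[ℂ] ExteriorAlgebra ℂ V) :=
  Algebra.TensorProduct.map (σ w : H →ₐ[ℂ] H) (ExteriorAlgebra.map (τ w : V →ₗ[ℂ] V))

/-- The algebra of invariants `A = (H ⊗ ⋀ V)^W`. -/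
noncomputable def invAlg : Subalgebra ℂ (H ⊗[ℂ] ExteriorAlgebra ℂ V) :=
  ⨅ w : W, AlgHom.equalizer (diag σ τ w) (AlgHom.id ℂ (H ⊗[ℂ] ExteriorAlgebra ℂ V))

/-- The subspace `U = (H ⊗ V)^W` of `A = (H ⊗ ⋀ V)^W`: the invariants which lie in the image of
`H ⊗ V`. -/
noncomputable def invOne : Submodule ℂ (invAlg σ τ) :=
  (LinearMap.range (LinearMap.lTensor H (ExteriorAlgebra.ι ℂ (M := V)))).comap
    (invAlg σ τ).val.toLinearMap

theorem mul_self_of_mem_range {t : H ⊗[ℂ] ExteriorAlgebra ℂ V}
    (ht : t ∈ LinearMap.range (LinearMap.lTensor H (ExteriorAlgebra.ι ℂ (M := V)))) :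
    t * t = 0 := by
  obtain ⟨s, rfl⟩ := ht
  have key : ∀ a b : H ⊗[ℂ] V,
      LinearMap.lTensor H (ExteriorAlgebra.ι ℂ (M := V)) a *
        LinearMap.lTensor H (ExteriorAlgebra.ι ℂ (M := V)) b +
      LinearMap.lTensor H (ExteriorAlgebra.ι ℂ (M := V)) b *
        LinearMap.lTensor H (ExteriorAlgebra.ι ℂ (M := V)) a = 0 := by
    intro a b
    induction a using TensorProduct.induction_on with
    | zero => simp
    | add x y hx hy =>
      rw [map_add, add_mul, mul_add, add_add_add_comm, hx, hy, add_zero]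
    | tmul h v =>
      induction b using TensorProduct.induction_on with
      | zero => simp
      | add x y hx hy =>
        rw [map_add, add_mul, mul_add, add_add_add_comm, hx, hy, add_zero]
      | tmul h' v' =>
        simp only [LinearMap.lTensor_tmul, Algebra.TensorProduct.tmul_mul_tmul]
        rw [mul_comm h' h, ← TensorProduct.tmul_add, ExteriorAlgebra.ι_add_mul_swap,
          TensorProduct.tmul_zero]
  have h2 := key s s
  have : (2 : ℂ) • (LinearMap.lTensor H (ExteriorAlgebra.ι ℂ (M := V)) s *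
      LinearMap.lTensor H (ExteriorAlgebra.ι ℂ (M := V)) s) = 0 := by
    rw [two_smul]; exact h2
  exact (smul_eq_zero.1 this).resolve_left two_ne_zero

/-- The natural algebra map `⋀ U → A` induced by the inclusion of `U` in `A`. -/
noncomputable def psi : ExteriorAlgebra ℂ (invOne σ τ) →ₐ[ℂ] invAlg σ τ :=
  ExteriorAlgebra.lift ℂ ⟨(invOne σ τ).subtype, fun u =>
    Subtype.ext (mul_self_of_mem_range u.2)⟩

/-- `A = (H ⊗ ⋀ V)^W` is an exterior algebra on its subspace `U = (H ⊗ V)^W`. -/
def IsExterior : Prop := Function.Bijective (psi σ τ)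

end Exterior

section PolyFun

/-- The algebra of polynomial functions on a complex vector space `E`: the algebra of functions
`E → ℂ` generated by the linear forms. -/
def PolyFun (E : Type*) [AddCommGroup E] [Module ℂ E] : Subalgebra ℂ (E → ℂ) :=
  Algebra.adjoin ℂ (Set.range fun l : Module.Dual ℂ E => (l : E → ℂ))

variable {E E' : Type*} [AddCommGroup E] [Module ℂ E] [AddCommGroup E'] [Module ℂ E']

theorem comp_mem_polyFun (g : E →ₗ[ℂ] E') {f : E' → ℂ} (hf : f ∈ PolyFun E') :
    (fun v => f (g v)) ∈ PolyFun E := by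
  induction hf using Algebra.adjoin_induction with
  | mem f hf =>
    obtain ⟨l, rfl⟩ := hf
    exact Algebra.subset_adjoin ⟨l.comp g, rfl⟩
  | algebraMap r => exact (PolyFun E).algebraMap_mem r
  | add f f' _ _ h h' => exact (PolyFun E).add_mem h h'
  | mul f f' _ _ h h' => exact (PolyFun E).mul_mem h h'

/-- Composition of a polynomial function with a linear map. -/
def pull (g : E →ₗ[ℂ] E') : PolyFun E' →ₐ[ℂ] PolyFun E where
  toFun f := ⟨fun v => f.1 (g v), comp_mem_polyFun g f.2⟩
  map_one' := rfl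
  map_mul' _ _ := rfl
  map_zero' := rfl
  map_add' _ _ := rfl
  commutes' _ := rfl

/-- Evaluation of polynomial functions at a point. -/
def evalAt (x : E) : PolyFun E →ₐ[ℂ] ℂ := (Pi.evalAlgHom ℂ (fun _ : E => ℂ) x).comp (PolyFun E).val

end PolyFun

section Fibre

variable {W : Type*} [Group W] {E : Type*} [AddCommGroup E] [Module ℂ E]
  (K : Type*) [CommRing K] [Algebra ℂ K] [Algebra (PolyFun E) K] [IsScalarTower ℂ (PolyFun E) K]

/-- The ideal of `K` generated by the polynomial functions on `E` which vanish at `x`. -/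
def fibIdeal (x : E) : Ideal K := Ideal.map (algebraMap (PolyFun E) K) (RingHom.ker (evalAt x))

/-- The fibre of `K` at `x`. -/
abbrev Fib (x : E) : Type _ := K ⧸ fibIdeal K x

variable {K}

omit [Algebra ℂ K] [IsScalarTower ℂ (PolyFun E) K] in
theorem map_fibIdeal (f : K ≃ₐ[PolyFun E] K) (x : E) :
    fibIdeal K x = Ideal.map (f : K →+* K) (fibIdeal K x) := by
  unfold fibIdeal
  rw [Ideal.map_map]
  congr 1
  ext r
  simp

/-- The action on the fibre at `x` which is induced by an action on `K`. -/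
noncomputable def fibAct (ρ : W →* (K ≃ₐ[PolyFun E] K)) (x : E) :
    W →* (Fib K x ≃ₐ[ℂ] Fib K x) where
  toFun w := Ideal.quotientEquivAlg (fibIdeal K x) (fibIdeal K x) ((ρ w).restrictScalars ℂ)
    (map_fibIdeal (ρ w) x)
  map_one' := by
    ext a
    obtain ⟨a, rfl⟩ := Ideal.Quotient.mk_surjective a
    simp
  map_mul' w w' := by
    ext a
    obtain ⟨a, rfl⟩ := Ideal.Quotient.mk_surjective a
    rw [map_mul]
    rfl

theorem fibAct_mk (ρ : W →* (K ≃ₐ[PolyFun E] K)) (x : E) (w : W) (k : K) :
    fibAct ρ x w (Ideal.Quotient.mk (fibIdeal K x) k) = Ideal.Quotient.mk (fibIdeal K x) (ρ w k) :=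
  rfl

end Fibre

end Pool.Agent.Helper664_Ext
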