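import Pool.Agent.Helper664_Ext.Fibre

/-!
# Exterior algebras: socle, products of degree one elements, the map `⋀ U → A`
-/

open Module TensorProduct

namespace Pool.Agent.Helper664_Ext

section Socle

variable {U : Type*} [AddCommGroup U] [Module ℂ U] {m : ℕ} (b : Basis (Fin m) ℂ U)

theorem extBasis_univ : b.ExteriorAlgebra Finset.univ = ExteriorAlgebra.ιMulti ℂ m b := by
  rw [ExteriorAlgebra.basis_apply_ofCard b (s := Finset.univ) (n := m) (by simp)]
  unfold ExteriorAlgebra.ιMulti_family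
  congr 1
  have : (⇑(Set.powersetCard.ofFinEmbEquiv.symm
      (Set.powersetCard.ofCard (α := Fin m) (s := Finset.univ) (n := m) (by simp)))) =
      (id : Fin m → Fin m) := by
    apply StrictMono.range_inj (OrderEmbedding.strictMono _) strictMono_id |>.1
    rw [Set.range_id]
    apply Set.eq_univ_of_forall
    intro i
    rw [Set.powersetCard.mem_range_ofFinEmbEquiv_symm_iff_mem]
    simp [Set.powersetCard.ofCard]
  rw [this]; rfl

theorem extBasis_mul_of_not_disjoint (s t : Finset (Fin m)) (h : ¬ Disjoint s t) :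
    b.ExteriorAlgebra s * b.ExteriorAlgebra t = 0 :=
  ExteriorAlgebra.basis_mul_of_not_disjoint (b := b) (s := ⟨s, rfl⟩) (t := ⟨t, rfl⟩) h

theorem extBasis_mul_compl (s : Finset (Fin m)) :
    ∃ c : ℂ, c ≠ 0 ∧ b.ExteriorAlgebra sᶜ * b.ExteriorAlgebra s =
      c • b.ExteriorAlgebra Finset.univ := by
  have hdis : Disjoint sᶜ s := disjoint_compl_left
  have h := ExteriorAlgebra.basis_mul_of_disjoint (b := b) (s := ⟨sᶜ, rfl⟩) (t := ⟨s, rfl⟩) hdis
  have hu : ((Set.powersetCard.disjUnion (s := ⟨sᶜ, rfl⟩) (t := ⟨s, rfl⟩) hdis :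
      Set.powersetCard (Fin m) _) : Finset (Fin m)) = Finset.univ := by
    ext i
    simp [Set.powersetCard.coe_disjUnion]
    tauto
  rw [hu] at h
  refine ⟨((Set.powersetCard.permOfDisjoint (s := ⟨sᶜ, rfl⟩) (t := ⟨s, rfl⟩) hdis).sign : ℤ), ?_, ?_⟩
  · exact_mod_cast Units.ne_zero _
  · refine h.trans ?_
    rw [Units.smul_def, Int.cast_smul_eq_zsmul]

/-- An algebra map out of an exterior algebra which does not kill the product of a basis is
injective. -/
theorem injective_of_top {B : Type*} [Ring B] [Algebra ℂ B] (φ : ExteriorAlgebra ℂ U →ₐ[ℂ] B)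
    (h : φ (ExteriorAlgebra.ιMulti ℂ m b) ≠ 0) : Function.Injective φ := by
  classical
  rw [injective_iff_map_eq_zero]
  intro z hz
  by_contra hz0
  have hne : (Finset.univ.filter fun s => b.ExteriorAlgebra.repr z s ≠ 0).Nonempty := by
    by_contra hemp
    rw [Finset.not_nonempty_iff_eq_empty, Finset.filter_eq_empty_iff] at hemp
    apply hz0
    apply b.ExteriorAlgebra.repr.injective
    rw [map_zero]
    ext s
    have := hemp (Finset.mem_univ s)
    push Not at this
    exact this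
  obtain ⟨s, hs, hmin⟩ := Finset.exists_min_image _ Finset.card hne
  rw [Finset.mem_filter] at hs
  have key : b.ExteriorAlgebra sᶜ * z =
      b.ExteriorAlgebra.repr z s • (b.ExteriorAlgebra sᶜ * b.ExteriorAlgebra s) := by
    conv_lhs => rw [← b.ExteriorAlgebra.sum_repr z]
    rw [Finset.mul_sum]
    simp only [mul_smul_comm]
    rw [Finset.sum_eq_single s]
    · intro t _ hts
      by_cases ht : b.ExteriorAlgebra.repr z t = 0
      · rw [ht, zero_smul]
      · rw [extBasis_mul_of_not_disjoint, smul_zero]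
        intro hdis
        have hsub : t ⊆ s := by
          intro i hi
          by_contra his
          exact (Finset.disjoint_left.1 hdis (Finset.mem_compl.2 his)) hi
        have hcard := hmin t (Finset.mem_filter.2 ⟨Finset.mem_univ _, ht⟩)
        exact hts (Finset.eq_of_subset_of_card_le hsub hcard)
    · intro h; exact absurd (Finset.mem_univ _) h
  obtain ⟨c, hc, hc'⟩ := extBasis_mul_compl b s
  rw [hc', extBasis_univ] at key
  have := congrArg φ key
  rw [map_mul, hz, mul_zero, map_smul, map_smul, eq_comm, smul_eq_zero, smul_eq_zero] at this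
  rcases this with h1 | h1 | h1
  · exact hs.2 h1
  · exact hc h1
  · exact h h1

/-- A linear map which kills the products of `k` elements for `k ≠ m` sees only the top degree. -/
theorem exists_smul_of_proj {T : Type*} [AddCommGroup T] [Module ℂ T]
    (Φ : ExteriorAlgebra ℂ U →ₗ[ℂ] T)
    (hP : ∀ (k : ℕ) (u : Fin k → U), k ≠ m → Φ (ExteriorAlgebra.ιMulti ℂ k u) = 0)
    (z : ExteriorAlgebra ℂ U) : ∃ c : ℂ, Φ z = c • Φ (ExteriorAlgebra.ιMulti ℂ m b) := by
  refine ⟨b.ExteriorAlgebra.repr z Finset.univ, ?_⟩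
  conv_lhs => rw [← b.ExteriorAlgebra.sum_repr z]
  rw [map_sum, Finset.sum_eq_single Finset.univ]
  · rw [map_smul, extBasis_univ]
  · intro I _ hI
    rw [map_smul, ExteriorAlgebra.basis_apply_ofCard b (s := I) (n := I.card) rfl]
    have := hP I.card
      (b ∘ (Set.powersetCard.ofFinEmbEquiv.symm (Set.powersetCard.ofCard (s := I) rfl))) (by
        intro hcard
        apply hI
        rw [← Finset.card_eq_iff_eq_univ, hcard, Fintype.card_fin])
    rw [show ExteriorAlgebra.ιMulti_family ℂ I.card (⇑b) (Set.powersetCard.ofCard rfl) =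
      ExteriorAlgebra.ιMulti ℂ I.card
      (b ∘ (Set.powersetCard.ofFinEmbEquiv.symm (Set.powersetCard.ofCard (s := I) rfl))) from rfl,
      this, smul_zero]
  · intro h; exact absurd (Finset.mem_univ _) h

theorem ιMulti_basis_ne_zero : ExteriorAlgebra.ιMulti ℂ m b ≠ 0 := by
  rw [← extBasis_univ]
  exact b.ExteriorAlgebra.ne_zero _

theorem finrank_exteriorAlgebra [FiniteDimensional ℂ U] :
    finrank ℂ (ExteriorAlgebra ℂ U) = 2 ^ finrank ℂ U := by
  rw [finrank_eq_card_basis (finBasis ℂ U).ExteriorAlgebra, Fintype.card_finset, Fintype.card_fin]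

instance finiteDimensional_exteriorAlgebra [FiniteDimensional ℂ U] :
    FiniteDimensional ℂ (ExteriorAlgebra ℂ U) :=
  (finBasis ℂ U).ExteriorAlgebra.finiteDimensional_of_finite

end Socle

section Psi

variable {W : Type*} [Group W] {H : Type*} [CommRing H] [Algebra ℂ H]
  {V : Type*} [AddCommGroup V] [Module ℂ V]
  (σ : W →* (H ≃ₐ[ℂ] H)) (τ : W →* (V ≃ₗ[ℂ] V))

/-- shortcut to the standard instance -/
instance scGroup' (A : Subalgebra ℂ (H ⊗[ℂ] ExteriorAlgebra ℂ V)) (p : Submodule ℂ A) :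
    AddCommGroup p := Submodule.addCommGroup p

/-- `V` as a representation -/
def repV : Representation ℂ W V where
  toFun w := (τ w : V →ₗ[ℂ] V)
  map_one' := by rw [map_one]; rfl
  map_mul' w w' := by rw [map_mul]; rfl

/-- `⋀ V` as a representation -/
noncomputable def repExt : Representation ℂ W (ExteriorAlgebra ℂ V) where
  toFun w := (ExteriorAlgebra.map (τ w : V →ₗ[ℂ] V)).toLinearMap
  map_one' := by
    rw [map_one]
    have : ((1 : V ≃ₗ[ℂ] V) : V →ₗ[ℂ] V) = LinearMap.id := rfl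
    rw [this, ExteriorAlgebra.map_id]; rfl
  map_mul' w w' := by
    rw [map_mul]
    have : ((τ w * τ w' : V ≃ₗ[ℂ] V) : V →ₗ[ℂ] V) =
      (τ w : V →ₗ[ℂ] V) ∘ₗ (τ w' : V →ₗ[ℂ] V) := rfl
    rw [this, ← ExteriorAlgebra.map_comp_map]; rfl

/-- `⋀^m V` as a representation -/
noncomputable def repPow (m : ℕ) : Representation ℂ W (⋀[ℂ]^m V) where
  toFun w := exteriorPower.map m (τ w : V →ₗ[ℂ] V)
  map_one' := by
    rw [map_one]
    have : ((1 : V ≃ₗ[ℂ] V) : V →ₗ[ℂ] V) = LinearMap.id := rfl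
    rw [this, exteriorPower.map_id]; rfl
  map_mul' w w' := by
    rw [map_mul]
    have : ((τ w * τ w' : V ≃ₗ[ℂ] V) : V →ₗ[ℂ] V) =
      (τ w : V →ₗ[ℂ] V) ∘ₗ (τ w' : V →ₗ[ℂ] V) := rfl
    rw [this, exteriorPower.map_comp]; rfl

variable (H V) in
/-- inclusion of `H ⊗ V` -/
noncomputable def jV : H ⊗[ℂ] V →ₗ[ℂ] H ⊗[ℂ] ExteriorAlgebra ℂ V :=
  LinearMap.lTensor H (ExteriorAlgebra.ι ℂ (M := V))

variable (H V) in
/-- inclusion of `H ⊗ ⋀^m V` -/
noncomputable def jP (m : ℕ) : H ⊗[ℂ] (⋀[ℂ]^m V) →ₗ[ℂ] H ⊗[ℂ] ExteriorAlgebra ℂ V :=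
  LinearMap.lTensor H (⋀[ℂ]^m V).subtype

theorem jV_injective : Function.Injective (jV H V) :=
  Module.Flat.lTensor_preserves_injective_linearMap _ (fun x y h => (ExteriorAlgebra.ι_inj ℂ x y).1 h)

theorem jP_injective (m : ℕ) : Function.Injective (jP H V m) :=
  Module.Flat.lTensor_preserves_injective_linearMap _ (Submodule.subtype_injective _)

theorem mem_invAlg (t : H ⊗[ℂ] ExteriorAlgebra ℂ V) :
    t ∈ invAlg σ τ ↔ t ∈ invT σ (repExt τ) := by
  unfold invAlg
  rw [Algebra.mem_iInf, mem_invT]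
  rfl

theorem diag_jV (w : W) (t : H ⊗[ℂ] V) :
    diag σ τ w (jV H V t) = jV H V (TensorProduct.map (σ w).toLinearMap (repV τ w) t) := by
  induction t using TensorProduct.induction_on with
  | zero => simp
  | add s t hs ht => simp only [map_add, hs, ht]
  | tmul h v =>
    simp only [jV, LinearMap.lTensor_tmul, TensorProduct.map_tmul, diag,
      Algebra.TensorProduct.map_tmul, ExteriorAlgebra.map_apply_ι]
    rfl

theorem diag_jP (m : ℕ) (w : W) (t : H ⊗[ℂ] (⋀[ℂ]^m V)) :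
    diag σ τ w (jP H V m t) = jP H V m (TensorProduct.map (σ w).toLinearMap (repPow τ m w) t) := by
  induction t using TensorProduct.induction_on with
  | zero => simp
  | add s t hs ht => simp only [map_add, hs, ht]
  | tmul h v =>
    simp only [jP, LinearMap.lTensor_tmul, TensorProduct.map_tmul, diag,
      Algebra.TensorProduct.map_tmul]
    congr 1
    have : ∀ v : ⋀[ℂ]^m V, ExteriorAlgebra.map (τ w : V →ₗ[ℂ] V) (v : ExteriorAlgebra ℂ V) =
        (exteriorPower.map m (τ w : V →ₗ[ℂ] V) v : ExteriorAlgebra ℂ V) := by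
      intro v
      have h2 : (ExteriorAlgebra.map (τ w : V →ₗ[ℂ] V)).toLinearMap ∘ₗ (⋀[ℂ]^m V).subtype =
          (⋀[ℂ]^m V).subtype ∘ₗ exteriorPower.map m (τ w : V →ₗ[ℂ] V) := by
        apply exteriorPower.linearMap_ext
        ext a
        simp [ExteriorAlgebra.map_apply_ιMulti]
      exact LinearMap.congr_fun h2 v
    exact this v

theorem jV_mem (t : H ⊗[ℂ] V) : jV H V t ∈ invAlg σ τ ↔ t ∈ invT σ (repV τ) := by
  unfold invAlg
  rw [Algebra.mem_iInf, mem_invT]
  refine forall_congr' fun w => ?_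
  rw [AlgHom.mem_equalizer, diag_jV]
  exact jV_injective.eq_iff

theorem jP_mem (m : ℕ) (t : H ⊗[ℂ] (⋀[ℂ]^m V)) :
    jP H V m t ∈ invAlg σ τ ↔ t ∈ invT σ (repPow τ m) := by
  unfold invAlg
  rw [Algebra.mem_iInf, mem_invT]
  refine forall_congr' fun w => ?_
  rw [AlgHom.mem_equalizer, diag_jP]
  exact (jP_injective m).eq_iff

/-- `(H ⊗ V)^W` is the space `invOne`. -/
noncomputable def oneEquiv : invT σ (repV τ) ≃ₗ[ℂ] invOne σ τ :=
  LinearEquiv.ofBijective
    { toFun := fun t : invT σ (repV τ) => (⟨⟨jV H V (t : H ⊗[ℂ] V), (jV_mem σ τ _).2 t.2⟩,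
        ⟨(t : H ⊗[ℂ] V), rfl⟩⟩ : invOne σ τ)
      map_add' := fun s t => Subtype.ext (Subtype.ext (map_add _ _ _))
      map_smul' := fun c t => Subtype.ext (Subtype.ext (map_smul _ _ _)) }
    ⟨fun s t h => Subtype.ext (jV_injective (congrArg Subtype.val (congrArg Subtype.val h))),
      fun u => by
        obtain ⟨t, ht⟩ := u.2
        refine ⟨⟨t, (jV_mem σ τ t).1 ?_⟩, Subtype.ext (Subtype.ext ht)⟩
        have : jV H V t = ((u : invAlg σ τ) : H ⊗[ℂ] ExteriorAlgebra ℂ V) := ht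
        rw [this]
        exact (u : invAlg σ τ).2⟩

theorem oneEquiv_coe (t : invT σ (repV τ)) :
    (((oneEquiv σ τ t : invOne σ τ) : invAlg σ τ) : H ⊗[ℂ] ExteriorAlgebra ℂ V) = jV H V t := rfl

/-- `(H ⊗ ⋀ V)^W` as an invariant space. -/
def algEquivInv : invAlg σ τ ≃ₗ[ℂ] invT σ (repExt τ) where
  toFun a := ⟨a, (mem_invAlg σ τ _).1 a.2⟩
  invFun a := ⟨a, (mem_invAlg σ τ _).2 a.2⟩
  map_add' _ _ := rfl
  map_smul' _ _ := rfl
  left_inv _ := rfl
  right_inv _ := rfl

theorem jV_mul_jP (m : ℕ) (s : H ⊗[ℂ] V) (t : H ⊗[ℂ] (⋀[ℂ]^m V)) :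
    jV H V s * jP H V m t ∈ LinearMap.range (jP H V (m + 1)) := by
  induction s using TensorProduct.induction_on with
  | zero => rw [map_zero, zero_mul]; exact Submodule.zero_mem _
  | add s s' hs hs' => rw [map_add, add_mul]; exact Submodule.add_mem _ hs hs'
  | tmul h v =>
    induction t using TensorProduct.induction_on with
    | zero => rw [map_zero, mul_zero]; exact Submodule.zero_mem _
    | add s s' hs hs' => rw [map_add, mul_add]; exact Submodule.add_mem _ hs hs'
    | tmul h' v' =>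
      have hm : ExteriorAlgebra.ι ℂ v * (v' : ExteriorAlgebra ℂ V) ∈ ⋀[ℂ]^(m + 1) V := by
        show _ ∈ LinearMap.range (ExteriorAlgebra.ι ℂ (M := V)) ^ (m + 1)
        rw [pow_succ']
        exact Submodule.mul_mem_mul ⟨v, rfl⟩ v'.2
      refine ⟨(h * h') ⊗ₜ ⟨_, hm⟩, ?_⟩
      simp only [jP, jV, LinearMap.lTensor_tmul, Algebra.TensorProduct.tmul_mul_tmul]
      rfl

/-- The product of elements of `H ⊗ V` lies in `H ⊗ ⋀^m V`. -/
theorem exists_prod (m : ℕ) (a : Fin m → H ⊗[ℂ] V) :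
    ∃ t : H ⊗[ℂ] (⋀[ℂ]^m V), jP H V m t = (List.ofFn fun i => jV H V (a i)).prod := by
  induction m with
  | zero =>
    refine ⟨1 ⊗ₜ ⟨1, ?_⟩, rfl⟩
    show (1 : ExteriorAlgebra ℂ V) ∈ LinearMap.range (ExteriorAlgebra.ι ℂ (M := V)) ^ 0
    rw [pow_zero]
    exact Submodule.one_le.1 le_rfl
  | succ m ih =>
    obtain ⟨t, ht⟩ := ih (fun i => a i.succ)
    rw [List.ofFn_succ, List.prod_cons, ← ht]
    exact jV_mul_jP m _ _

theorem psi_ι (u : invOne σ τ) : psi σ τ (ExteriorAlgebra.ι ℂ u) = (u : invAlg σ τ) :=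
  ExteriorAlgebra.lift_ι_apply ℂ _ _ u

theorem psi_ιMulti (m : ℕ) (u : Fin m → invOne σ τ) :
    ((psi σ τ (ExteriorAlgebra.ιMulti ℂ m u) : invAlg σ τ) : H ⊗[ℂ] ExteriorAlgebra ℂ V) =
      (List.ofFn fun i => (((u i : invOne σ τ) : invAlg σ τ) : H ⊗[ℂ] ExteriorAlgebra ℂ V)).prod := by
  rw [ExteriorAlgebra.ιMulti_apply, map_list_prod, List.map_ofFn]
  have h2 : ∀ l : List (invAlg σ τ), ((l.prod : invAlg σ τ) : H ⊗[ℂ] ExteriorAlgebra ℂ V) =
      (l.map fun x : invAlg σ τ => (x : H ⊗[ℂ] ExteriorAlgebra ℂ V)).prod := fun l =>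
    map_list_prod (invAlg σ τ).val l
  rw [h2, List.map_ofFn]
  congr 2
  ext i
  simp only [Function.comp_apply, psi_ι]

end Psi

end Pool.Agent.Helper664_Ext
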