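import Pool.Agent.Helper664_Ext.Poly

/-!
# Fibres of a free algebra over the polynomial functions

Bases of the fibres, constancy of the dimension of the invariants of `H_x ⊗ F`, and divisibility
of an invariant which vanishes at a point when the invariants have dimension one everywhere.
-/

open Module TensorProduct

namespace Pool.Agent.Helper664_Ext

section Rep

variable {W : Type*} [Group W] {H : Type*} [CommRing H] [Algebra ℂ H]
  {F : Type*} [AddCommGroup F] [Module ℂ F]

/-- shortcut to the standard instance -/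
instance scGroup (p : Submodule ℂ (H ⊗[ℂ] F)) : AddCommGroup p := Submodule.addCommGroup p

instance freeSub (p : Submodule ℂ (H ⊗[ℂ] F)) : Module.Free ℂ p :=
  Module.Free.of_divisionRing ℂ p

/-- The representation underlying an action by algebra automorphisms. -/
def repOf (σ : W →* (H ≃ₐ[ℂ] H)) : Representation ℂ W H where
  toFun w := (σ w).toLinearMap
  map_one' := by rw [map_one]; rfl
  map_mul' w w' := by rw [map_mul]; rfl

theorem repOf_apply (σ : W →* (H ≃ₐ[ℂ] H)) (w : W) (h : H) : repOf σ w h = σ w h := rfl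

/-- The invariants of `H ⊗ F`. -/
noncomputable def invT (σ : W →* (H ≃ₐ[ℂ] H)) (θ : Representation ℂ W F) :
    Submodule ℂ (H ⊗[ℂ] F) :=
  ((repOf σ).tprod θ).invariants

theorem mem_invT (σ : W →* (H ≃ₐ[ℂ] H)) (θ : Representation ℂ W F) (t : H ⊗[ℂ] F) :
    t ∈ invT σ θ ↔ ∀ w, TensorProduct.map (σ w).toLinearMap (θ w) t = t := Iff.rfl

theorem finrank_invT [Finite W] [FiniteDimensional ℂ H] [FiniteDimensional ℂ F]
    (σ : W →* (H ≃ₐ[ℂ] H)) (θ : Representation ℂ W F) [Fintype W] :
    ((finrank ℂ (invT σ θ) : ℕ) : ℂ) =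
      (Nat.card W : ℂ)⁻¹ * ∑ w : W, LinearMap.trace ℂ H (σ w).toLinearMap *
        LinearMap.trace ℂ F (θ w) := by
  have : Invertible (Nat.card W : ℂ) := invertibleOfNonzero (by
    exact_mod_cast Nat.card_pos.ne')
  have h := Representation.card_inv_mul_sum_char_eq_finrank ((repOf σ).tprod θ)
  rw [Representation.char_tensor] at h
  exact h.symm

/-- The averaging operator on `H ⊗ F`. -/
noncomputable def avg [Fintype W] (σ : W →* (H ≃ₐ[ℂ] H)) (θ : Representation ℂ W F) :
    H ⊗[ℂ] F →ₗ[ℂ] H ⊗[ℂ] F :=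
  (Nat.card W : ℂ)⁻¹ • ∑ w : W, TensorProduct.map (σ w).toLinearMap (θ w)

theorem avg_mem [Fintype W] (σ : W →* (H ≃ₐ[ℂ] H)) (θ : Representation ℂ W F) (t : H ⊗[ℂ] F) :
    avg σ θ t ∈ invT σ θ := by
  intro g
  simp only [avg, LinearMap.smul_apply, map_smul, LinearMap.sum_apply, map_sum]
  congr 1
  have : ∀ w, ((repOf σ).tprod θ) g ((TensorProduct.map (σ w).toLinearMap (θ w)) t) =
      (TensorProduct.map (σ (g * w)).toLinearMap (θ (g * w))) t := by
    intro w
    have := LinearMap.congr_fun (map_mul ((repOf σ).tprod θ) g w) t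
    exact this.symm
  rw [Finset.sum_congr rfl fun w _ => this w]
  exact Fintype.sum_equiv (Equiv.mulLeft g) _ _ fun w => rfl

theorem avg_eq [Fintype W] (σ : W →* (H ≃ₐ[ℂ] H)) (θ : Representation ℂ W F) {t : H ⊗[ℂ] F}
    (ht : t ∈ invT σ θ) : avg σ θ t = t := by
  simp only [avg, LinearMap.smul_apply, LinearMap.sum_apply]
  rw [Finset.sum_congr rfl fun w _ => (mem_invT σ θ t).1 ht w, Finset.sum_const, Finset.card_univ,
    ← Nat.card_eq_fintype_card, ← Nat.cast_smul_eq_nsmul ℂ, smul_smul, inv_mul_cancel₀, one_smul]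
  exact_mod_cast Nat.card_pos.ne'

theorem isProj_avg [Fintype W] (σ : W →* (H ≃ₐ[ℂ] H))
    (θ : Representation ℂ W F) : LinearMap.IsProj (invT σ θ) (avg σ θ) :=
  ⟨avg_mem σ θ, fun _ h => avg_eq σ θ h⟩

theorem trace_avg [Fintype W] [FiniteDimensional ℂ H] [FiniteDimensional ℂ F]
    (σ : W →* (H ≃ₐ[ℂ] H)) (θ : Representation ℂ W F) :
    LinearMap.trace ℂ (H ⊗[ℂ] F) (avg σ θ) = finrank ℂ (invT σ θ) := by
  exact (isProj_avg σ θ).trace

theorem exists_gen_of_finrank_one (σ : W →* (H ≃ₐ[ℂ] H)) (θ : Representation ℂ W F)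
    (h : finrank ℂ (invT σ θ) = 1) :
    ∃ v : H ⊗[ℂ] F, v ∈ invT σ θ ∧ v ≠ 0 ∧ ∀ t ∈ invT σ θ, ∃ α : ℂ, α • v = t := by
  obtain ⟨v, hv0, hv⟩ := (finrank_eq_one_iff' (K := ℂ) (V := invT σ θ)).1 h
  exact ⟨v, v.2, fun h => hv0 (Subtype.ext h), fun t ht => by
    obtain ⟨α, hα⟩ := hv ⟨t, ht⟩
    exact ⟨α, congrArg Subtype.val hα⟩⟩

end Rep

section Fibre

variable {W : Type*} [Group W] {E : Type*} [AddCommGroup E] [Module ℂ E]
  {K : Type*} [CommRing K] [Algebra ℂ K] [Algebra (PolyFun E) K] [IsScalarTower ℂ (PolyFun E) K]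
  {ι : Type*} [Fintype ι] (b : Basis ι (PolyFun E) K)

omit [Algebra ℂ K] [IsScalarTower ℂ (PolyFun E) K] in
theorem mem_fibIdeal_iff (x : E) (k : K) :
    k ∈ fibIdeal K x ↔ ∀ i, evalAt x (b.repr k i) = 0 := by
  constructor
  · intro h
    unfold fibIdeal Ideal.map at h
    induction h using Submodule.span_induction with
    | mem k hk =>
      obtain ⟨f, hf, rfl⟩ := hk
      intro i
      have : (algebraMap (PolyFun E) K) f = f • (1 : K) := Algebra.algebraMap_eq_smul_one f
      rw [this, map_smul, Finsupp.smul_apply, smul_eq_mul, map_mul, (RingHom.mem_ker).1 hf,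
        zero_mul]
    | zero => intro i; simp
    | add k k' _ _ hk hk' => intro i; rw [map_add, Finsupp.add_apply, map_add, hk, hk', add_zero]
    | smul a k _ hk =>
      intro i
      have : a • k = ∑ j, b.repr k j • (a * b j) := by
        conv_lhs => rw [← b.sum_repr k]
        rw [smul_eq_mul, Finset.mul_sum]
        exact Finset.sum_congr rfl fun j _ => by rw [mul_smul_comm]
      rw [this, map_sum, Finsupp.coe_finsetSum, Finset.sum_apply, map_sum]
      apply Finset.sum_eq_zero
      intro j _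
      rw [map_smul, Finsupp.smul_apply, smul_eq_mul, map_mul, hk, zero_mul]
  · intro h
    rw [← b.sum_repr k]
    refine sum_mem fun i _ => ?_
    rw [Algebra.smul_def]
    exact Ideal.mul_mem_right _ _ (Ideal.mem_map_of_mem _ (h i))

variable (K) in
/-- The quotient map to the fibre, as a linear map. -/
def mkC (x : E) : K →ₗ[ℂ] Fib K x := (Ideal.Quotient.mkₐ ℂ (fibIdeal K x)).toLinearMap

omit [IsScalarTower ℂ (PolyFun E) K] in
theorem mkC_apply (x : E) (k : K) : mkC K x k = Ideal.Quotient.mk (fibIdeal K x) k := rfl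

theorem mkC_smul (x : E) (f : PolyFun E) (k : K) :
    mkC K x (f • k) = evalAt x f • mkC K x k := by
  have h1 : f • k - evalAt x f • k ∈ fibIdeal K x := by
    have : f • k - evalAt x f • k =
        algebraMap (PolyFun E) K (f - algebraMap ℂ (PolyFun E) (evalAt x f)) * k := by
      rw [map_sub, sub_mul, ← Algebra.smul_def, ← IsScalarTower.algebraMap_apply,
        ← Algebra.smul_def]
    rw [this]
    apply Ideal.mul_mem_right
    apply Ideal.mem_map_of_mem
    rw [RingHom.mem_ker, map_sub, AlgHom.commutes]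
    simp
  have h2 : mkC K x (f • k - evalAt x f • k) = 0 := by
    rw [mkC_apply, Ideal.Quotient.eq_zero_iff_mem]; exact h1
  rw [map_sub, sub_eq_zero] at h2
  rw [h2]
  exact (mkC K x).map_smul _ _

/-- The basis of the fibre which is induced by a basis. -/
noncomputable def fibBasis (x : E) : Basis ι ℂ (Fib K x) :=
  Basis.mk (v := fun i => mkC K x (b i))
    (by
      rw [Fintype.linearIndependent_iff]
      intro g hg i
      have h1 : mkC K x (∑ j, g j • b j) = 0 := by rw [map_sum]; simpa using hg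
      rw [mkC_apply, Ideal.Quotient.eq_zero_iff_mem, mem_fibIdeal_iff b] at h1
      have h2 := h1 i
      have h3 : ∀ j, g j • b j = algebraMap ℂ (PolyFun E) (g j) • b j := fun j => by
        rw [algebraMap_smul]
      rw [Finset.sum_congr rfl fun j _ => h3 j, Basis.repr_sum_self, AlgHom.commutes] at h2
      simpa using h2)
    (by
      rintro a -
      obtain ⟨k, rfl⟩ := Ideal.Quotient.mk_surjective a
      rw [← mkC_apply, ← b.sum_repr k, map_sum]
      refine sum_mem fun i _ => ?_
      rw [mkC_smul]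
      exact Submodule.smul_mem _ _ (Submodule.subset_span ⟨i, rfl⟩))

theorem fibBasis_apply (x : E) (i : ι) : fibBasis b x i = mkC K x (b i) := by
  rw [fibBasis, Basis.mk_apply]

theorem fibBasis_repr (x : E) (k : K) (i : ι) :
    (fibBasis b x).repr (mkC K x k) i = evalAt x (b.repr k i) := by
  conv_lhs => rw [← b.sum_repr k]
  simp only [map_sum, mkC_smul, map_smul]
  simp only [← fibBasis_apply, Basis.repr_self, Finsupp.coe_finsetSum, Finset.sum_apply,
    Finsupp.smul_apply]
  rw [Finset.sum_eq_single i]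
  · simp
  · intro j _ hj; simp [hj]
  · intro h; exact absurd (Finset.mem_univ _) h

theorem finiteDimensional_fib [Module.Free (PolyFun E) K] [Module.Finite (PolyFun E) K] (x : E) :
    FiniteDimensional ℂ (Fib K x) :=
  (fibBasis (Module.Free.chooseBasis (PolyFun E) K) x).finiteDimensional_of_finite

theorem finrank_fib [Module.Free (PolyFun E) K] [Module.Finite (PolyFun E) K]
    [FiniteDimensional ℂ E] (x : E) :
    finrank ℂ (Fib K x) = finrank (PolyFun E) K := by
  rw [finrank_eq_card_basis (fibBasis (Module.Free.chooseBasis (PolyFun E) K) x),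
    finrank_eq_card_basis (Module.Free.chooseBasis (PolyFun E) K)]

include b in
theorem trace_fibAct (ρ : W →* (K ≃ₐ[PolyFun E] K)) (x : E) (w : W) [DecidableEq ι] :
    LinearMap.trace ℂ (Fib K x) (fibAct ρ x w).toLinearMap =
      evalAt x (LinearMap.trace (PolyFun E) K (ρ w).toLinearMap) := by
  rw [LinearMap.trace_eq_matrix_trace ℂ (fibBasis b x), LinearMap.trace_eq_matrix_trace _ b]
  simp only [Matrix.trace, Matrix.diag, map_sum]
  refine Finset.sum_congr rfl fun i _ => ?_
  rw [LinearMap.toMatrix_apply, LinearMap.toMatrix_apply, fibBasis_apply]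
  have : (fibAct ρ x w).toLinearMap (mkC K x (b i)) = mkC K x (ρ w (b i)) := rfl
  rw [this, fibBasis_repr]
  rfl

/-- Dimension of the invariants of `H_x ⊗ F`: the same at all points. -/
theorem finrank_invT_fib_eq [Finite W] [Module.Free (PolyFun E) K] [Module.Finite (PolyFun E) K]
    [FiniteDimensional ℂ E]
    {F : Type*} [AddCommGroup F] [Module ℂ F] [FiniteDimensional ℂ F]
    (ρ : W →* (K ≃ₐ[PolyFun E] K)) (θ : Representation ℂ W F) (x y : E) :
    finrank ℂ (invT (fibAct ρ x) θ) = finrank ℂ (invT (fibAct ρ y) θ) := by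
  classical
  have := Fintype.ofFinite W
  have hfd : ∀ z : E, FiniteDimensional ℂ (Fib K z) := fun z => finiteDimensional_fib z
  refine eval_eq_of_nat ((Nat.card W : ℂ)⁻¹ • ∑ w : W, LinearMap.trace ℂ F (θ w) •
      LinearMap.trace (PolyFun E) K (ρ w).toLinearMap) (finrank (PolyFun E) K * finrank ℂ F)
      (fun z => finrank ℂ (invT (fibAct ρ z) θ)) ?_ ?_ x y
  · intro z
    have := Submodule.finrank_le (invT (fibAct ρ z) θ)
    rwa [finrank_tensorProduct, finrank_fib] at this
  · intro z
    rw [finrank_invT, map_smul, map_sum, smul_eq_mul]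
    congr 1
    refine Finset.sum_congr rfl fun w _ => ?_
    rw [map_smul, smul_eq_mul, trace_fibAct (Module.Free.chooseBasis (PolyFun E) K), mul_comm]

/-- The underlying action by `ℂ`-algebra automorphisms. -/
def resC (ρ : W →* (K ≃ₐ[PolyFun E] K)) : W →* (K ≃ₐ[ℂ] K) where
  toFun w := (ρ w).restrictScalars ℂ
  map_one' := by rw [map_one]; rfl
  map_mul' w w' := by rw [map_mul]; rfl

theorem resC_apply (ρ : W →* (K ≃ₐ[PolyFun E] K)) (w : W) (k : K) : resC ρ w k = ρ w k := rfl

variable {F : Type*} [AddCommGroup F] [Module ℂ F]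

variable (K F) in
/-- Specialisation of `K ⊗ F` at a point. -/
noncomputable def sp (x : E) : K ⊗[ℂ] F →ₗ[ℂ] Fib K x ⊗[ℂ] F := LinearMap.rTensor F (mkC K x)

omit [IsScalarTower ℂ (PolyFun E) K] in
theorem sp_tmul (x : E) (k : K) (f : F) : sp K F x (k ⊗ₜ f) = mkC K x k ⊗ₜ f := rfl

omit [IsScalarTower ℂ (PolyFun E) K] in
theorem sp_surjective (x : E) : Function.Surjective (sp K F x) :=
  LinearMap.rTensor_surjective F (Ideal.Quotient.mk_surjective)

theorem sp_repr {κ : Type*} [Fintype κ] (e : Basis κ ℂ F) (x : E) (t : K ⊗[ℂ] F) (p : ι × κ) :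
    ((fibBasis b x).tensorProduct e).repr (sp K F x t) p =
      evalAt x ((b.tensorProduct e).repr t p) := by
  induction t using TensorProduct.induction_on with
  | zero => simp
  | add s t hs ht => rw [map_add, map_add, map_add, Finsupp.add_apply, Finsupp.add_apply, map_add,
      hs, ht]
  | tmul k f =>
    obtain ⟨i, j⟩ := p
    rw [sp_tmul, Basis.tensorProduct_repr_tmul_apply, Basis.tensorProduct_repr_tmul_apply,
      fibBasis_repr, map_smul]

theorem sp_map (ρ : W →* (K ≃ₐ[PolyFun E] K)) (θ : Representation ℂ W F) (x : E) (w : W)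
    (t : K ⊗[ℂ] F) :
    sp K F x (TensorProduct.map (resC ρ w).toLinearMap (θ w) t) =
      TensorProduct.map (fibAct ρ x w).toLinearMap (θ w) (sp K F x t) := by
  induction t using TensorProduct.induction_on with
  | zero => simp
  | add s t hs ht => simp only [map_add, hs, ht]
  | tmul k f => rfl

theorem sp_mem (ρ : W →* (K ≃ₐ[PolyFun E] K)) (θ : Representation ℂ W F) (x : E)
    {t : K ⊗[ℂ] F} (ht : t ∈ invT (resC ρ) θ) : sp K F x t ∈ invT (fibAct ρ x) θ := by
  intro w
  have := sp_map ρ θ x w t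
  rw [(mem_invT _ _ _).1 ht w] at this
  exact this.symm

theorem sp_avg [Fintype W] (ρ : W →* (K ≃ₐ[PolyFun E] K)) (θ : Representation ℂ W F) (x : E)
    (t : K ⊗[ℂ] F) :
    sp K F x (avg (resC ρ) θ t) = avg (fibAct ρ x) θ (sp K F x t) := by
  simp only [avg, LinearMap.smul_apply, LinearMap.sum_apply, map_smul, map_sum, sp_map]

/-- Every invariant of the fibre lifts to an invariant. -/
theorem exists_lift [Finite W] (ρ : W →* (K ≃ₐ[PolyFun E] K)) (θ : Representation ℂ W F) (x : E)
    {t : Fib K x ⊗[ℂ] F} (ht : t ∈ invT (fibAct ρ x) θ) :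
    ∃ s ∈ invT (resC ρ) θ, sp K F x s = t := by
  have := Fintype.ofFinite W
  obtain ⟨s, rfl⟩ := sp_surjective x t
  exact ⟨avg (resC ρ) θ s, avg_mem _ _ _, by rw [sp_avg, avg_eq _ _ ht]⟩

/-- If the invariants of `H_x ⊗ F` have dimension one at every point `x`, and an invariant of
`K ⊗ F` vanishes at `x₀`, then it vanishes on the zero set of a polynomial function which vanishes
at `x₀`. -/
theorem exists_dvd_of_sp_eq_zero [Finite W] [Module.Free (PolyFun E) K]
    [Module.Finite (PolyFun E) K] [FiniteDimensional ℂ E] [FiniteDimensional ℂ F]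
    (ρ : W →* (K ≃ₐ[PolyFun E] K)) (θ : Representation ℂ W F)
    (h1 : ∀ x, finrank ℂ (invT (fibAct ρ x) θ) = 1)
    (D : K ⊗[ℂ] F) (hD : D ∈ invT (resC ρ) θ) (x₀ : E) (h0 : sp K F x₀ D = 0) :
    ∃ g : PolyFun E, evalAt x₀ g = 0 ∧ ∀ y, evalAt y g = 0 → sp K F y D = 0 := by
  classical
  have := Fintype.ofFinite W
  have hfd : ∀ z : E, FiniteDimensional ℂ (Fib K z) := fun z => finiteDimensional_fib z
  let b := Module.Free.chooseBasis (PolyFun E) K
  let e := finBasis ℂ F
  let B := b.tensorProduct e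
  have hz : ∀ y, (∀ p, evalAt y (B.repr D p) = 0) → sp K F y D = 0 := by
    intro y hy
    apply ((fibBasis b y).tensorProduct e).repr.injective
    rw [map_zero]
    ext p
    rw [sp_repr, hy p]; rfl
  by_cases hd : ∃ p, B.repr D p ≠ 0
  swap
  · push Not at hd
    exact ⟨0, map_zero _, fun y _ => hz y fun p => by rw [hd p, map_zero]⟩
  obtain ⟨g, d', hg, -, hprim⟩ := exists_primitive (fun p => B.repr D p) hd
  have hg0 : g ≠ 0 := by
    rintro rfl
    obtain ⟨p, hp⟩ := hd
    apply hp
    rw [hg p, zero_mul]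
  -- proportionality
  have hprop : ∀ (s : K ⊗[ℂ] F), s ∈ invT (resC ρ) θ → ∀ p q,
      B.repr s p * d' q = B.repr s q * d' p := by
    intro s hs p q
    apply mul_left_cancel₀ hg0
    have hkey : B.repr s p * B.repr D q - B.repr s q * B.repr D p = 0 := by
      rw [polyFun_eq_zero_iff]
      intro x
      have hs' := sp_mem ρ θ x hs
      have hD' := sp_mem ρ θ x hD
      obtain ⟨v, -, -, hv⟩ := exists_gen_of_finrank_one _ _ (h1 x)
      obtain ⟨α, hα'⟩ := hv _ hs'
      obtain ⟨β, hβ'⟩ := hv _ hD'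
      have e1 : ∀ r, evalAt x (B.repr s r) =
          α * ((fibBasis b x).tensorProduct e).repr (v : Fib K x ⊗[ℂ] F) r := by
        intro r
        rw [← sp_repr b e x s r, ← hα', map_smul, Finsupp.smul_apply, smul_eq_mul]
      have e2 : ∀ r, evalAt x (B.repr D r) =
          β * ((fibBasis b x).tensorProduct e).repr (v : Fib K x ⊗[ℂ] F) r := by
        intro r
        rw [← sp_repr b e x D r, ← hβ', map_smul, Finsupp.smul_apply, smul_eq_mul]
      rw [map_sub, map_mul, map_mul, e1, e1, e2, e2]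
      ring
    have e3 : B.repr D q = g * d' q := hg q
    have e4 : B.repr D p = g * d' p := hg p
    rw [e3, e4] at hkey
    linear_combination hkey
  refine ⟨g, ?_, fun y hy => hz y fun p => ?_⟩
  swap
  · have e3 : B.repr D p = g * d' p := hg p
    rw [e3, map_mul, hy, zero_mul]
  -- the trace of the averaging operator at `x₀`
  have hc : ∀ q, ∃ c, ∀ p, B.repr (avg (resC ρ) θ (B q)) p = c * d' p := fun q =>
    hprim _ fun i l => hprop _ (avg_mem _ _ _) i l
  choose c hc using hc
  have htr : LinearMap.trace ℂ _ (avg (fibAct ρ x₀) θ) = 1 := by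
    rw [trace_avg, h1 x₀, Nat.cast_one]
  rw [LinearMap.trace_eq_matrix_trace ℂ ((fibBasis b x₀).tensorProduct e)] at htr
  simp only [Matrix.trace, Matrix.diag] at htr
  have hterm : ∀ p, (LinearMap.toMatrix ((fibBasis b x₀).tensorProduct e)
      ((fibBasis b x₀).tensorProduct e)) (avg (fibAct ρ x₀) θ) p p =
      evalAt x₀ (c p) * evalAt x₀ (d' p) := by
    intro p
    rw [LinearMap.toMatrix_apply]
    have : ((fibBasis b x₀).tensorProduct e) p = sp K F x₀ (B p) := by
      rw [Basis.tensorProduct_apply', fibBasis_apply, Basis.tensorProduct_apply']; rfl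
    rw [this, ← sp_avg, sp_repr, hc, map_mul]
  rw [Finset.sum_congr rfl fun p _ => hterm p] at htr
  by_contra hgx
  have hd0 : ∀ p, evalAt x₀ (d' p) = 0 := by
    intro p
    have e4 : B.repr D p = g * d' p := hg p
    have e5 : evalAt x₀ (B.repr D p) = 0 := by
      rw [← sp_repr b e x₀ D p, h0]; simp
    rw [e4, map_mul] at e5
    exact (mul_eq_zero.1 e5).resolve_left hgx
  rw [Finset.sum_eq_zero fun p _ => by rw [hd0 p, mul_zero]] at htr
  exact zero_ne_one htr

end Fibre

end Pool.Agent.Helper664_Ext
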