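import Pool.Agent.Helper664_Ext.Purity

/-!
# The locus where a fibre is not exterior is a hypersurface
-/

open Module TensorProduct

namespace Pool.Agent.Helper664_Ext

section GCD

variable {R : Type*} [CommRing R] [IsDomain R] [UniqueFactorizationMonoid R]
  {ι : Type*} [Fintype ι]

omit [IsDomain R] in
theorem exists_gcd_family (D : ι → R) (hD : ∃ i, D i ≠ 0) :
    ∃ (g : R) (D' : ι → R), (∀ i, D i = g * D' i) ∧ g ≠ 0 ∧
      ∀ p : R, Prime p → ¬ ∀ i, p ∣ D' i := by
  classical
  let _ : StrongNormalizationMonoid R := UniqueFactorizationMonoid.strongNormalizationMonoid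
  let _ := UniqueFactorizationMonoid.toStrongNormalizedGCDMonoid R
  obtain ⟨i₀, hi₀⟩ := hD
  obtain ⟨D', h1, h2⟩ := Finset.extract_gcd (s := Finset.univ) D ⟨i₀, Finset.mem_univ _⟩
  refine ⟨Finset.univ.gcd D, D', fun i => h1 i (Finset.mem_univ _), ?_, ?_⟩
  · intro h0
    apply hi₀
    rw [h1 i₀ (Finset.mem_univ _), h0, zero_mul]
  · intro p hp hall
    apply hp.not_isUnit
    rw [isUnit_iff_dvd_one, ← h2]
    exact Finset.dvd_gcd fun i _ => hall i

end GCD

section Prime

variable {E : Type*} [AddCommGroup E] [Module ℂ E] [FiniteDimensional ℂ E]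

theorem exists_prime_dvd (x₀ : E) (a : PolyFun E) (ha : a ≠ 0) (h0 : evalAt x₀ a = 0) :
    ∃ p : PolyFun E, Prime p ∧ p ∣ a ∧ evalAt x₀ p = 0 := by
  induction a using UniqueFactorizationMonoid.induction_on_prime with
  | h₁ => exact absurd rfl ha
  | h₂ u hu => exact absurd h0 (hu.map (evalAt x₀)).ne_zero
  | h₃ a p ha' hp ih =>
    rw [map_mul, mul_eq_zero] at h0
    rcases h0 with h | h
    · exact ⟨p, hp, dvd_mul_right _ _, h⟩
    · obtain ⟨q, hq, hqa, hq0⟩ := ih ha' h
      exact ⟨q, hq, hqa.mul_left _, hq0⟩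

end Prime

section Gen

variable {W : Type*} [Group W] {E : Type*} [AddCommGroup E] [Module ℂ E]
  {K : Type*} [CommRing K] [Algebra ℂ K] [Algebra (PolyFun E) K] [IsScalarTower ℂ (PolyFun E) K]
  {F : Type*} [AddCommGroup F] [Module ℂ F]

/-- If the invariants of `H_x ⊗ F` have dimension one at every point, then the invariants of
`K ⊗ F` are the multiples of a family of coordinates without common zero. -/
theorem exists_generator [Finite W] [FiniteDimensional ℂ E] [FiniteDimensional ℂ F]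
    {ι κ : Type*} [Fintype ι] [Fintype κ] (b : Basis ι (PolyFun E) K) (e : Basis κ ℂ F)
    (ρ : W →* (K ≃ₐ[PolyFun E] K)) (θ : Representation ℂ W F)
    (h1 : ∀ x, finrank ℂ (invT (fibAct ρ x) θ) = 1) :
    ∃ d' : ι × κ → PolyFun E,
      (∀ s ∈ invT (resC ρ) θ, ∃ c, ∀ p, (b.tensorProduct e).repr s p = c * d' p) ∧
      ∀ x, ∃ p, evalAt x (d' p) ≠ 0 := by
  classical
  have := Fintype.ofFinite W
  have hfree : Module.Free (PolyFun E) K := Module.Free.of_basis b
  have hfin : Module.Finite (PolyFun E) K := Module.Finite.of_basis b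
  have hfd : ∀ z : E, FiniteDimensional ℂ (Fib K z) := fun z => finiteDimensional_fib z
  let B := b.tensorProduct e
  -- a nonzero invariant
  obtain ⟨v, hv, hv0, -⟩ := exists_gen_of_finrank_one _ _ (h1 0)
  obtain ⟨D, hD, hDv⟩ := exists_lift ρ θ 0 hv
  have hd : ∃ p, B.repr D p ≠ 0 := by
    by_contra hcon
    push Not at hcon
    apply hv0
    rw [← hDv]
    apply ((fibBasis b 0).tensorProduct e).repr.injective
    rw [map_zero]
    ext p
    rw [sp_repr, hcon p, map_zero]; rfl
  obtain ⟨g, d', hg, -, hprim⟩ := exists_primitive (fun p => B.repr D p) hd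
  have hg0 : g ≠ 0 := by
    rintro rfl
    obtain ⟨p, hp⟩ := hd
    apply hp
    rw [hg p, zero_mul]
  -- proportionality
  have hprop : ∀ (s : K ⊗[ℂ] F), s ∈ invT (resC ρ) θ → ∀ p q,
      B.repr s p * d' q = B.repr s q * d' p := by
    intro s hs p q
    apply mul_left_cancel₀ hg0
    have hkey : B.repr s p * B.repr D q - B.repr s q * B.repr D p = 0 := by
      rw [polyFun_eq_zero_iff]
      intro x
      have hs' := sp_mem ρ θ x hs
      have hD' := sp_mem ρ θ x hD
      obtain ⟨v, -, -, hv⟩ := exists_gen_of_finrank_one _ _ (h1 x)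
      obtain ⟨α, hα'⟩ := hv _ hs'
      obtain ⟨β, hβ'⟩ := hv _ hD'
      have e1 : ∀ r, evalAt x (B.repr s r) =
          α * ((fibBasis b x).tensorProduct e).repr (v : Fib K x ⊗[ℂ] F) r := by
        intro r
        rw [← sp_repr b e x s r, ← hα', map_smul, Finsupp.smul_apply, smul_eq_mul]
      have e2 : ∀ r, evalAt x (B.repr D r) =
          β * ((fibBasis b x).tensorProduct e).repr (v : Fib K x ⊗[ℂ] F) r := by
        intro r
        rw [← sp_repr b e x D r, ← hβ', map_smul, Finsupp.smul_apply, smul_eq_mul]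
      rw [map_sub, map_mul, map_mul, e1, e1, e2, e2]
      ring
    have e3 : B.repr D q = g * d' q := hg q
    have e4 : B.repr D p = g * d' p := hg p
    rw [e3, e4] at hkey
    linear_combination hkey
  refine ⟨d', fun s hs => hprim _ fun i l => hprop s hs i l, fun x₀ => ?_⟩
  -- the trace of the averaging operator at `x₀`
  have hc : ∀ q, ∃ c, ∀ p, B.repr (avg (resC ρ) θ (B q)) p = c * d' p := fun q =>
    hprim _ fun i l => hprop _ (avg_mem _ _ _) i l
  choose c hc using hc
  have htr : LinearMap.trace ℂ _ (avg (fibAct ρ x₀) θ) = 1 := by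
    rw [trace_avg, h1 x₀, Nat.cast_one]
  rw [LinearMap.trace_eq_matrix_trace ℂ ((fibBasis b x₀).tensorProduct e)] at htr
  simp only [Matrix.trace, Matrix.diag] at htr
  have hterm : ∀ p, (LinearMap.toMatrix ((fibBasis b x₀).tensorProduct e)
      ((fibBasis b x₀).tensorProduct e)) (avg (fibAct ρ x₀) θ) p p =
      evalAt x₀ (c p) * evalAt x₀ (d' p) := by
    intro p
    rw [LinearMap.toMatrix_apply]
    have : ((fibBasis b x₀).tensorProduct e) p = sp K F x₀ (B p) := by
      rw [Basis.tensorProduct_apply', fibBasis_apply, Basis.tensorProduct_apply']; rfl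
    rw [this, ← sp_avg, sp_repr, hc, map_mul]
  rw [Finset.sum_congr rfl fun p _ => hterm p] at htr
  by_contra hall
  push Not at hall
  rw [Finset.sum_eq_zero fun p _ => by rw [hall p, mul_zero]] at htr
  exact zero_ne_one htr

/-- The averages of the basis vectors span the invariants at every point. -/
theorem span_avg [Fintype W] [FiniteDimensional ℂ F]
    {ι κ : Type*} [Fintype ι] [Fintype κ] (b : Basis ι (PolyFun E) K) (e : Basis κ ℂ F)
    (ρ : W →* (K ≃ₐ[PolyFun E] K)) (θ : Representation ℂ W F) (y : E)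
    {w : Fib K y ⊗[ℂ] F} (hw : w ∈ invT (fibAct ρ y) θ) :
    w ∈ Submodule.span ℂ (Set.range fun q =>
      sp K F y (avg (resC ρ) θ ((b.tensorProduct e) q))) := by
  have h1 : w = ∑ q, ((fibBasis b y).tensorProduct e).repr w q •
      sp K F y (avg (resC ρ) θ ((b.tensorProduct e) q)) := by
    conv_lhs => rw [← avg_eq (fibAct ρ y) θ hw, ← ((fibBasis b y).tensorProduct e).sum_repr w]
    rw [map_sum]
    refine Finset.sum_congr rfl fun q _ => ?_
    rw [map_smul]
    congr 1
    rw [sp_avg]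
    congr 1
    rw [Basis.tensorProduct_apply', fibBasis_apply, Basis.tensorProduct_apply']; rfl
  rw [h1]
  exact sum_mem fun q _ => Submodule.smul_mem _ _ (Submodule.subset_span ⟨q, rfl⟩)

end Gen

section Alt

theorem alt_comm {M : Type*} [AddCommGroup M] [Module ℂ M] [FiniteDimensional ℂ M] {m : ℕ}
    (hm : finrank ℂ M = m) (F G : M [⋀^Fin m]→ₗ[ℂ] ℂ) (u v : Fin m → M) :
    F u * G v = F v * G u := by
  let e : Basis (Fin m) ℂ M := finBasisOfFinrankEq ℂ M hm
  rw [AlternatingMap.eq_smul_basis_det e F, AlternatingMap.eq_smul_basis_det e G]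
  simp only [AlternatingMap.smul_apply, smul_eq_mul]
  ring

variable {W : Type*} [Group W] {H : Type*} [CommRing H] [Algebra ℂ H]
  {V : Type*} [AddCommGroup V] [Module ℂ V]
  (σ : W →* (H ≃ₐ[ℂ] H)) (τ : W →* (V ≃ₗ[ℂ] V))

/-- the product of `m` elements of `U`, as an alternating map -/
noncomputable def prodAlt (m : ℕ) :
    (invT σ (repV τ)) [⋀^Fin m]→ₗ[ℂ] (H ⊗[ℂ] ExteriorAlgebra ℂ V) :=
  ((invAlg σ τ).val.toLinearMap ∘ₗ (psi σ τ).toLinearMap).compAlternatingMap
    ((ExteriorAlgebra.ιMulti ℂ m).compLinearMap (oneEquiv σ τ).toLinearMap)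

theorem prodAlt_apply (m : ℕ) (u : Fin m → invT σ (repV τ)) :
    prodAlt σ τ m u = (List.ofFn fun i => jV H V (u i : H ⊗[ℂ] V)).prod := by
  have h1 : prodAlt σ τ m u = ((psi σ τ (ExteriorAlgebra.ιMulti ℂ m
    fun i => oneEquiv σ τ (u i)) : invAlg σ τ) : H ⊗[ℂ] ExteriorAlgebra ℂ V) := rfl
  rw [h1, psi_ιMulti]
  congr 2

theorem injective_of_prodAlt [FiniteDimensional ℂ H] [FiniteDimensional ℂ V] {m : ℕ}
    (hm : finrank ℂ (invT σ (repV τ)) = m) (u : Fin m → invT σ (repV τ))
    (hu : prodAlt σ τ m u ≠ 0) : Function.Injective (psi σ τ) := by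
  classical
  have hli : LinearIndependent ℂ u := by
    by_contra hcon
    exact hu (AlternatingMap.map_linearDependent _ _ hcon)
  have hli' : LinearIndependent ℂ fun i => oneEquiv σ τ (u i) :=
    hli.map' (oneEquiv σ τ).toLinearMap (LinearEquiv.ker _)
  have hfin : FiniteDimensional ℂ (invOne σ τ) := inferInstance
  have hfr : Fintype.card (Fin m) = finrank ℂ (invOne σ τ) := by
    rw [Fintype.card_fin, finrank_invOne, hm]
  let bu := basisOfLinearIndependentOfCardEqFinrank' (K := ℂ) _ hli' hfr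
  have hbu : (bu : Fin m → invOne σ τ) = fun i => oneEquiv σ τ (u i) :=
    coe_basisOfLinearIndependentOfCardEqFinrank' _ hli' hfr
  apply injective_of_top bu
  rw [hbu]
  intro h0
  apply hu
  have h1 : prodAlt σ τ m u = ((psi σ τ (ExteriorAlgebra.ιMulti ℂ m
    fun i => oneEquiv σ τ (u i)) : invAlg σ τ) : H ⊗[ℂ] ExteriorAlgebra ℂ V) := rfl
  rw [h1, h0]
  rfl

theorem prodAlt_ne_zero [FiniteDimensional ℂ H] [FiniteDimensional ℂ V] {m : ℕ}
    (hm : finrank ℂ (invT σ (repV τ)) = m) (u : Fin m → invT σ (repV τ))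
    (hu : LinearIndependent ℂ u) (hinj : Function.Injective (psi σ τ)) :
    prodAlt σ τ m u ≠ 0 := by
  classical
  have hli' : LinearIndependent ℂ fun i => oneEquiv σ τ (u i) :=
    hu.map' (oneEquiv σ τ).toLinearMap (LinearEquiv.ker _)
  have hfin : FiniteDimensional ℂ (invOne σ τ) := inferInstance
  have hfr : Fintype.card (Fin m) = finrank ℂ (invOne σ τ) := by
    rw [Fintype.card_fin, finrank_invOne, hm]
  let bu := basisOfLinearIndependentOfCardEqFinrank' (K := ℂ) _ hli' hfr
  have hbu : (bu : Fin m → invOne σ τ) = fun i => oneEquiv σ τ (u i) :=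
    coe_basisOfLinearIndependentOfCardEqFinrank' _ hli' hfr
  intro h0
  have h1 : prodAlt σ τ m u = ((psi σ τ (ExteriorAlgebra.ιMulti ℂ m
    fun i => oneEquiv σ τ (u i)) : invAlg σ τ) : H ⊗[ℂ] ExteriorAlgebra ℂ V) := rfl
  rw [h1, ← hbu] at h0
  have h2 : psi σ τ (ExteriorAlgebra.ιMulti ℂ m bu) = psi σ τ 0 := by
    rw [map_zero]; exact Subtype.ext h0
  exact ιMulti_basis_ne_zero bu (hinj h2)

end Alt

section Main

variable {W : Type*} [Group W] {E : Type*} [AddCommGroup E] [Module ℂ E]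
  {K : Type*} [CommRing K] [Algebra ℂ K] [Algebra (PolyFun E) K] [IsScalarTower ℂ (PolyFun E) K]
  {V : Type*} [AddCommGroup V] [Module ℂ V]

/-- Among the values of a spanning family there is a basis. -/
theorem exists_tuple {M : Type*} [AddCommGroup M] [Module ℂ M] [FiniteDimensional ℂ M] {I : Type*}
    {m : ℕ} (hm : finrank ℂ M = m) (v : I → M)
    (hv : ∀ w, w ∈ Submodule.span ℂ (Set.range v)) :
    ∃ t : Fin m → I, LinearIndependent ℂ fun i => v (t i) := by
  obtain ⟨κ, a, -, hsp, hli⟩ := exists_linearIndependent' ℂ v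
  have hfin : Finite κ := hli.finite
  have := Fintype.ofFinite κ
  let bs : Basis κ ℂ M := Basis.mk hli (by
    rw [hsp]; intro w _; exact hv w)
  have hcard : Fintype.card κ = m := by rw [← finrank_eq_card_basis bs, hm]
  let eq : Fin m ≃ κ := (Fintype.equivFinOfCardEq hcard).symm
  exact ⟨fun i => a (eq i), hli.comp eq eq.injective⟩

/-- Comparison of two tuples of invariants by determinants. -/
theorem exists_compare [FiniteDimensional ℂ V]
    {ι κ : Type*} [Fintype ι] [Fintype κ] (b : Basis ι (PolyFun E) K) (e : Basis κ ℂ V)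
    (ρ : W →* (K ≃ₐ[PolyFun E] K)) (τ : W →* (V ≃ₗ[ℂ] V)) {m : ℕ}
    (hmx : ∀ x : E, finrank ℂ (invT (fibAct ρ x) (repV τ)) = m) {T : Type*}
    (u : T → Fin m → K ⊗[ℂ] V) (hu : ∀ t i, u t i ∈ invT (resC ρ) (repV τ)) (x₀ : E) (t₀ : T)
    (hli : LinearIndependent ℂ fun i => (⟨sp K V x₀ (u t₀ i), sp_mem ρ (repV τ) x₀ (hu t₀ i)⟩ :
      invT (fibAct ρ x₀) (repV τ))) :
    ∃ N : T → PolyFun E, evalAt x₀ (N t₀) ≠ 0 ∧
      ∀ (y : E) (G : (invT (fibAct ρ y) (repV τ)) [⋀^Fin m]→ₗ[ℂ] ℂ) (t : T),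
        evalAt y (N t₀) * G (fun i => ⟨sp K V y (u t i), sp_mem ρ (repV τ) y (hu t i)⟩) =
        evalAt y (N t) * G (fun i => ⟨sp K V y (u t₀ i), sp_mem ρ (repV τ) y (hu t₀ i)⟩) := by
  classical
  -- left inverse at `x₀`
  obtain ⟨L, hL⟩ : ∃ L : (Fib K x₀ ⊗[ℂ] V) →ₗ[ℂ] (Fin m → ℂ),
      ∀ i, L (sp K V x₀ (u t₀ i)) = Pi.single i 1 := by
    have hli' : LinearIndependent ℂ fun i => sp K V x₀ (u t₀ i) :=
      hli.map' (invT (fibAct ρ x₀) (repV τ)).subtype (Submodule.ker_subtype _)
    obtain ⟨g, hg⟩ := LinearMap.exists_leftInverse_of_injective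
      (Fintype.linearCombination ℂ fun i => sp K V x₀ (u t₀ i))
      (LinearMap.ker_eq_bot.2 (linearIndependent_iff_injective_fintypeLinearCombination.1 hli'))
    refine ⟨g, fun i => ?_⟩
    have := LinearMap.congr_fun hg (Pi.single i 1)
    simpa [Fintype.linearCombination_apply] using this
  let Lm : Matrix (Fin m) (ι × κ) ℂ := fun i p => L ((fibBasis b x₀).tensorProduct e p) i
  let M : T → Matrix (Fin m) (Fin m) (PolyFun E) := fun t j i =>
    ∑ p, Lm i p • (b.tensorProduct e).repr (u t j) p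
  -- the linear map at `y`
  let Ly : ∀ y : E, (Fib K y ⊗[ℂ] V) →ₗ[ℂ] (Fin m → ℂ) := fun y =>
    Lm.mulVecLin ∘ₗ ((fibBasis b y).tensorProduct e).equivFun.toLinearMap
  have hLy : ∀ y z i, Ly y z i = ∑ p, Lm i p * ((fibBasis b y).tensorProduct e).repr z p :=
    fun y z i => rfl
  let Fy : ∀ y : E, (invT (fibAct ρ y) (repV τ)) [⋀^Fin m]→ₗ[ℂ] ℂ := fun y =>
    Matrix.detRowAlternating.compLinearMap (Ly y ∘ₗ (invT (fibAct ρ y) (repV τ)).subtype)
  have hM : ∀ t y, evalAt y (M t).det =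
      Fy y fun i => ⟨sp K V y (u t i), sp_mem ρ (repV τ) y (hu t i)⟩ := by
    intro t y
    rw [AlgHom.map_det]
    have h1 : (evalAt y).mapMatrix (M t) = fun j => Ly y (sp K V y (u t j)) := by
      ext j i
      rw [hLy]
      simp only [AlgHom.mapMatrix_apply, Matrix.map_apply, M, map_sum, map_smul, smul_eq_mul]
      refine Finset.sum_congr rfl fun p _ => ?_
      rw [sp_repr]
    rw [h1]
    rfl
  refine ⟨fun t => (M t).det, ?_, ?_⟩
  · show evalAt x₀ (M t₀).det ≠ 0
    rw [hM]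
    show Matrix.det (fun j => Ly x₀ (sp K V x₀ (u t₀ j))) ≠ 0
    have h1 : (fun j => Ly x₀ (sp K V x₀ (u t₀ j))) = (1 : Matrix (Fin m) (Fin m) ℂ) := by
      ext j i
      rw [hLy]
      have h2 : L (sp K V x₀ (u t₀ j)) i = ∑ p, Lm i p *
          ((fibBasis b x₀).tensorProduct e).repr (sp K V x₀ (u t₀ j)) p := by
        conv_lhs => rw [← ((fibBasis b x₀).tensorProduct e).sum_repr (sp K V x₀ (u t₀ j))]
        rw [map_sum, Finset.sum_apply]
        refine Finset.sum_congr rfl fun p _ => ?_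
        rw [map_smul, Pi.smul_apply, smul_eq_mul, mul_comm]
      rw [← h2, hL, Matrix.one_apply, Pi.single_apply]
      simp only [eq_comm]
    rw [h1, Matrix.det_one]
    exact one_ne_zero
  · intro y G t
    have hfd : Module.Finite ℂ (Fib K y) := (fibBasis b y).finiteDimensional_of_finite
    have h4 := alt_comm (hmx y) (Fy y) G
      (fun i => ⟨sp K V y (u t₀ i), sp_mem ρ (repV τ) y (hu t₀ i)⟩)
      (fun i => ⟨sp K V y (u t i), sp_mem ρ (repV τ) y (hu t i)⟩)
    rw [← hM, ← hM] at h4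
    exact h4

/-- **The failure locus is a hypersurface.** The points at which the fibre is not exterior are the
zeros of one polynomial function. -/
theorem exists_hypersurface [Finite W] [FiniteDimensional ℂ V] [FiniteDimensional ℂ E]
    [Module.Free (PolyFun E) K] [Module.Finite (PolyFun E) K]
    (ρ : W →* (K ≃ₐ[PolyFun E] K)) (τ : W →* (V ≃ₗ[ℂ] V)) :
    ∃ g : PolyFun E, ∀ x, IsExterior (fibAct ρ x) τ ↔ evalAt x g ≠ 0 := by
  classical
  have := Fintype.ofFinite W
  have hfd : ∀ z : E, FiniteDimensional ℂ (Fib K z) := fun z => finiteDimensional_fib z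
  by_cases hex : ∃ y₀, IsExterior (fibAct ρ y₀) τ
  swap
  · push Not at hex
    refine ⟨0, fun x => ?_⟩
    rw [map_zero]
    exact ⟨fun h => absurd h (hex x), fun h => absurd rfl h⟩
  obtain ⟨y₀, hgood⟩ := hex
  set m := finrank ℂ (invT (fibAct ρ y₀) (repV τ)) with hm
  have hmx : ∀ x : E, finrank ℂ (invT (fibAct ρ x) (repV τ)) = m := fun x =>
    finrank_invT_fib_eq ρ (repV τ) x y₀
  have hAx : ∀ x : E, finrank ℂ (invT (fibAct ρ x) (repExt τ)) = 2 ^ m := fun x => by
    rw [finrank_invT_fib_eq ρ (repExt τ) x y₀, finrank_invAlg_of_isExterior _ _ hgood]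
  have hTx : ∀ x : E, finrank ℂ (invT (fibAct ρ x) (repPow τ m)) = 1 := fun x => by
    rw [finrank_invT_fib_eq ρ (repPow τ m) x y₀, finrank_top_of_isExterior _ _ hgood hm.symm]
  -- injectivity is enough
  have hinjx : ∀ x : E, Function.Injective (psi (fibAct ρ x) τ) → IsExterior (fibAct ρ x) τ := by
    intro x hinj
    have hfin : FiniteDimensional ℂ (invOne (fibAct ρ x) τ) := inferInstance
    have hdim : finrank ℂ (ExteriorAlgebra ℂ (invOne (fibAct ρ x) τ)) =
        finrank ℂ (invAlg (fibAct ρ x) τ) := by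
      rw [finrank_exteriorAlgebra, finrank_invOne, finrank_invAlg, hAx x, hmx x]
    exact ⟨hinj, (LinearMap.injective_iff_surjective_of_finrank_eq_finrank
      (f := (psi (fibAct ρ x) τ).toLinearMap) hdim).1 hinj⟩
  let b := Module.Free.chooseBasis (PolyFun E) K
  let e := finBasis ℂ V
  let e' := finBasis ℂ (⋀[ℂ]^m V)
  let I := Module.Free.ChooseBasisIndex (PolyFun E) K × Fin (finrank ℂ V)
  let a : I → K ⊗[ℂ] V := fun q => avg (resC ρ) (repV τ) ((b.tensorProduct e) q)
  have ha : ∀ q, a q ∈ invT (resC ρ) (repV τ) := fun q => avg_mem _ _ _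
  let av : ∀ (y : E), I → invT (fibAct ρ y) (repV τ) := fun y q =>
    ⟨sp K V y (a q), sp_mem ρ (repV τ) y (ha q)⟩
  have hspan : ∀ (y : E) (w : invT (fibAct ρ y) (repV τ)),
      w ∈ Submodule.span ℂ (Set.range (av y)) := by
    intro y w
    have h1 := span_avg b e ρ (repV τ) y w.2
    have h2 : (fun q => sp K V y (avg (resC ρ) (repV τ) ((b.tensorProduct e) q))) =
        (invT (fibAct ρ y) (repV τ)).subtype ∘ av y := rfl
    rw [h2, Set.range_comp, Submodule.span_image] at h1
    obtain ⟨w', hw', hww⟩ := h1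
    have : w' = w := Subtype.ext hww
    rwa [← this]
  have htup : ∀ y : E, ∃ t : Fin m → I, LinearIndependent ℂ fun i => av y (t i) := fun y =>
    exists_tuple (hmx y) (av y) (hspan y)
  -- the products
  have hD : ∀ t : Fin m → I, ∃ D : K ⊗[ℂ] (⋀[ℂ]^m V),
      jP K V m D = (List.ofFn fun i => jV K V (a (t i))).prod := fun t =>
    exists_prod (H := K) (V := V) m fun i => a (t i)
  choose D hD using hD
  have hDmem : ∀ t, D t ∈ invT (resC ρ) (repPow τ m) := by
    intro t
    rw [← jP_mem, hD]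
    apply Subalgebra.list_prod_mem
    intro z hz
    rw [List.mem_ofFn] at hz
    obtain ⟨i, rfl⟩ := hz
    exact (jV_mem (resC ρ) τ _).2 (ha _)
  have hDy : ∀ (t : Fin m → I) (y : E), jP (Fib K y) V m (sp K (⋀[ℂ]^m V) y (D t)) =
      prodAlt (fibAct ρ y) τ m fun i => av y (t i) := by
    intro t y
    rw [prodAlt_apply, ← spAlg_jP, hD, map_list_prod, List.map_ofFn]
    congr 2
    ext i
    exact spAlg_jV y (a (t i))
  obtain ⟨d', hd'1, hd'2⟩ := exists_generator b e' ρ (repPow τ m) hTx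
  have hc : ∀ t, ∃ c, ∀ p, (b.tensorProduct e').repr (D t) p = c * d' p := fun t =>
    hd'1 _ (hDmem t)
  choose c hc using hc
  have hc0 : ∀ t y, evalAt y (c t) ≠ 0 ↔ sp K (⋀[ℂ]^m V) y (D t) ≠ 0 := by
    intro t y
    rw [not_iff_not]
    constructor
    · intro h0
      apply ((fibBasis b y).tensorProduct e').repr.injective
      rw [map_zero]
      ext p
      rw [sp_repr, hc t p, map_mul, h0, zero_mul]; rfl
    · intro h0
      obtain ⟨p, hp⟩ := hd'2 y
      have h1 := sp_repr b e' y (D t) p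
      rw [h0, hc t p, map_mul, map_zero, Finsupp.zero_apply] at h1
      exact (mul_eq_zero.1 h1.symm).resolve_right hp
  have hcprod : ∀ t y, evalAt y (c t) ≠ 0 ↔
      prodAlt (fibAct ρ y) τ m (fun i => av y (t i)) ≠ 0 := by
    intro t y
    rw [hc0, ← hDy]
    constructor
    · intro h1 h2
      apply h1
      apply jP_injective (H := Fib K y) (V := V) m
      rw [h2, map_zero]
    · intro h1 h2
      apply h1
      rw [h2, map_zero]
  -- comparison of two tuples
  have hcomp : ∀ (x₀ : E) (t₀ : Fin m → I), (LinearIndependent ℂ fun i => av x₀ (t₀ i)) →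
      ∃ N : (Fin m → I) → PolyFun E, evalAt x₀ (N t₀) ≠ 0 ∧
        ∀ t, N t₀ * c t = N t * c t₀ := by
    intro x₀ t₀ hli
    obtain ⟨N, hN0, hN⟩ := exists_compare b e ρ τ hmx (T := Fin m → I) (fun t i => a (t i))
      (fun t i => ha (t i)) x₀ t₀ hli
    refine ⟨N, hN0, fun t => ?_⟩
    apply polyFun_ext
    intro y
    obtain ⟨p, hp⟩ := hd'2 y
    -- a linear form which reads the coordinate `p`
    obtain ⟨r, hr⟩ := LinearMap.exists_leftInverse_of_injective (jP (Fib K y) V m)
      (LinearMap.ker_eq_bot.2 (jP_injective (H := Fib K y) (V := V) m))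
    let φ : (Fib K y ⊗[ℂ] ExteriorAlgebra ℂ V) →ₗ[ℂ] ℂ :=
      (((fibBasis b y).tensorProduct e').coord p) ∘ₗ r
    have hG : ∀ s : Fin m → I, φ (prodAlt (fibAct ρ y) τ m fun i => av y (s i)) =
        evalAt y (c s) * evalAt y (d' p) := by
      intro s
      rw [← hDy]
      have h3 : r (jP (Fib K y) V m (sp K (⋀[ℂ]^m V) y (D s))) =
          sp K (⋀[ℂ]^m V) y (D s) := LinearMap.congr_fun hr _
      show ((fibBasis b y).tensorProduct e').repr
        (r (jP (Fib K y) V m (sp K (⋀[ℂ]^m V) y (D s)))) p = _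
      rw [h3, sp_repr, hc s p, map_mul]
    have h4 := hN y (φ.compAlternatingMap (prodAlt (fibAct ρ y) τ m)) t
    have h5 : ∀ s : Fin m → I, (φ.compAlternatingMap (prodAlt (fibAct ρ y) τ m))
        (fun i => ⟨sp K V y (a (s i)), sp_mem ρ (repV τ) y (ha (s i))⟩) =
        evalAt y (c s) * evalAt y (d' p) := hG
    rw [h5, h5] at h4
    rw [map_mul, map_mul]
    apply mul_right_cancel₀ hp
    linear_combination h4
  -- the greatest common divisor
  have hne : ∃ t, c t ≠ 0 := by
    obtain ⟨t, ht⟩ := htup y₀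
    refine ⟨t, fun h0 => ?_⟩
    have h1 := (hcprod t y₀).2 (prodAlt_ne_zero _ _ (hmx y₀) _ ht hgood.1)
    rw [h0, map_zero] at h1
    exact h1 rfl
  obtain ⟨g, c', hgc, hg0, hprime⟩ := exists_gcd_family c hne
  refine ⟨g, fun x => ⟨fun hx => ?_, fun hx => ?_⟩⟩
  · obtain ⟨t, ht⟩ := htup x
    have h1 := (hcprod t x).2 (prodAlt_ne_zero _ _ (hmx x) _ ht hx.1)
    rw [hgc t, map_mul] at h1
    exact left_ne_zero_of_mul h1
  · by_contra hcon
    have hall : ∀ t, evalAt x (c' t) = 0 := by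
      intro t
      by_contra h1
      apply hcon
      apply hinjx
      apply injective_of_prodAlt _ _ (hmx x) (fun i => av x (t i))
      rw [← hcprod, hgc t, map_mul]
      exact mul_ne_zero hx h1
    obtain ⟨t₀, ht₀⟩ := htup x
    obtain ⟨N, hN0, hN⟩ := hcomp x t₀ ht₀
    have hNne : N t₀ ≠ 0 := fun h0 => hN0 (by rw [h0, map_zero])
    have hc't₀ : c' t₀ ≠ 0 := by
      intro h0
      obtain ⟨t, ht⟩ := hne
      apply ht
      have h2 := hN t
      rw [hgc t₀, h0, mul_zero, mul_zero] at h2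
      exact (mul_eq_zero.1 h2).resolve_left hNne
    obtain ⟨p, hp, hpd, hp0⟩ := exists_prime_dvd x (c' t₀) hc't₀ (hall t₀)
    refine hprime p hp fun t => ?_
    have h3 : N t₀ * c' t = N t * c' t₀ := by
      apply mul_left_cancel₀ hg0
      have h4 := hN t
      rw [hgc t, hgc t₀] at h4
      linear_combination h4
    have h5 : p ∣ N t₀ * c' t := by
      rw [h3]; exact hpd.mul_left _
    rcases hp.dvd_or_dvd h5 with h6 | h6
    · exfalso
      obtain ⟨u, hu⟩ := h6
      apply hN0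
      rw [hu, map_mul, hp0, zero_mul]
    · exact h6

end Main

end Pool.Agent.Helper664_Ext
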