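import Pool.Agent.Helper664_Ext.ExtAlg

/-!
# The idempotent of a fibre which is attached to a point of an orbit
-/

open Module TensorProduct

namespace Pool.Agent.Helper664_Ext

section Idem

variable {W : Type*} [Group W] {V : Type*} [AddCommGroup V] [Module ℂ V]
  (τ : W →* (V ≃ₗ[ℂ] V))

theorem evalAt_pull (g : V →ₗ[ℂ] V) (f : PolyFun V) (v : V) :
    evalAt v (pull g f) = evalAt (g v) f := rfl

theorem pull_pull (w w' : W) (f : PolyFun V) :
    pull (τ w' : V →ₗ[ℂ] V) (pull (τ w : V →ₗ[ℂ] V) f) = pull (τ (w * w') : V →ₗ[ℂ] V) f := by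
  apply polyFun_ext
  intro v
  simp only [evalAt_pull, map_mul]
  rfl

theorem pull_one (f : PolyFun V) : pull (τ 1 : V →ₗ[ℂ] V) f = f := by
  apply polyFun_ext
  intro v
  simp only [evalAt_pull, map_one]
  rfl

/-- A polynomial function which vanishes on the orbit of `x` is nilpotent in the fibre. -/
theorem isNilpotent_of_orbit [Finite W] {H : Type*} [CommRing H] [Algebra ℂ H]
    (c : PolyFun V →ₐ[ℂ] H) (x : V)
    (hinv : ∀ f : PolyFun V, (∀ w v, evalAt (τ w v) f = evalAt v f) →
      c f = algebraMap ℂ H (evalAt x f))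
    (ξ : PolyFun V) (hξ : ∀ w, evalAt (τ w x) ξ = 0) : IsNilpotent (c ξ) := by
  classical
  have := Fintype.ofFinite W
  let p : Polynomial (PolyFun V) :=
    ∏ w : W, (Polynomial.X - Polynomial.C (pull (τ w : V →ₗ[ℂ] V) ξ))
  have h1 : ∀ w' : W, p.map (pull (τ w' : V →ₗ[ℂ] V)).toRingHom = p := by
    intro w'
    simp only [p, Polynomial.map_prod, Polynomial.map_sub, Polynomial.map_X, Polynomial.map_C]
    refine Fintype.prod_equiv (Equiv.mulRight w') _ _ fun w => ?_
    simp only [Equiv.coe_mulRight, AlgHom.toRingHom_eq_coe, RingHom.coe_coe]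
    rw [pull_pull]
  have h2 : ∀ j (w : W) (v : V), evalAt (τ w v) (p.coeff j) = evalAt v (p.coeff j) := by
    intro j w v
    have h3 := congrArg (fun q => Polynomial.coeff q j) (h1 w)
    simp only [Polynomial.coeff_map] at h3
    have h4 := congrArg (evalAt v) h3
    exact h4
  have h5 : p.map (evalAt x).toRingHom = Polynomial.X ^ Fintype.card W := by
    simp only [p, Polynomial.map_prod, Polynomial.map_sub, Polynomial.map_X, Polynomial.map_C]
    have : ∀ w : W, (evalAt x).toRingHom (pull (τ w : V →ₗ[ℂ] V) ξ) = 0 := fun w => hξ w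
    simp only [this, Polynomial.C_0, sub_zero, Finset.prod_const, Finset.card_univ]
  have h6 : p.map c.toRingHom = Polynomial.X ^ Fintype.card W := by
    have : p.map c.toRingHom = (p.map (evalAt x).toRingHom).map (algebraMap ℂ H) := by
      ext j
      rw [Polynomial.coeff_map, Polynomial.coeff_map, Polynomial.coeff_map]
      exact hinv _ (h2 j)
    rw [this, h5, Polynomial.map_pow, Polynomial.map_X]
  have h7 : p.eval ξ = 0 := by
    simp only [p, Polynomial.eval_prod, Polynomial.eval_sub, Polynomial.eval_X, Polynomial.eval_C]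
    apply Finset.prod_eq_zero (Finset.mem_univ (1 : W))
    rw [pull_one, sub_self]
  have h8 : (p.map c.toRingHom).eval (c ξ) = c (p.eval ξ) := by
    rw [Polynomial.eval_map]
    exact Polynomial.eval₂_at_apply c.toRingHom ξ
  rw [h6, h7, map_zero, Polynomial.eval_pow, Polynomial.eval_X] at h8
  exact ⟨_, h8⟩

/-- A polynomial function which separates `x` from the rest of its orbit. -/
theorem exists_separating [Finite W] (x : V) :
    ∃ φ : PolyFun V, evalAt x φ = 1 ∧ (∀ w, τ w x ≠ x → evalAt (τ w x) φ = 0) ∧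
      ∀ q, τ q x = x → pull (τ q : V →ₗ[ℂ] V) φ = φ := by
  classical
  have := Fintype.ofFinite W
  have hl : ∀ w : W, ∃ l : Dual ℂ V, τ w x ≠ x → l (x - τ w x) ≠ 0 := by
    intro w
    by_cases h : τ w x = x
    · exact ⟨0, fun h' => absurd h h'⟩
    · have h2 : x - τ w x ≠ 0 := fun h' => h (sub_eq_zero.1 h').symm
      have h3 := mt (Module.forall_dual_apply_eq_zero_iff ℂ (x - τ w x)).1 h2
      push Not at h3
      obtain ⟨l, hl⟩ := h3
      exact ⟨l, fun _ => hl⟩
  choose l hl using hl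
  let φ₀ : PolyFun V := ∏ w ∈ Finset.univ.filter (fun w => τ w x ≠ x),
    (l w (x - τ w x))⁻¹ • (lin (l w) - algebraMap ℂ (PolyFun V) (l w (τ w x)))
  have h1 : evalAt x φ₀ = 1 := by
    simp only [φ₀, map_prod, map_smul, map_sub, evalAt_lin, AlgHom.commutes, smul_eq_mul]
    apply Finset.prod_eq_one
    intro w hw
    rw [Finset.mem_filter] at hw
    have := hl w hw.2
    rw [map_sub] at this
    exact inv_mul_cancel₀ this
  have h2 : ∀ w, τ w x ≠ x → evalAt (τ w x) φ₀ = 0 := by
    intro w hw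
    simp only [φ₀, map_prod, map_smul, map_sub, evalAt_lin, AlgHom.commutes, smul_eq_mul]
    apply Finset.prod_eq_zero (Finset.mem_filter.2 ⟨Finset.mem_univ w, hw⟩)
    simp
  let Q := Finset.univ.filter (fun w => τ w x = x)
  have hQ : (Q.card : ℂ) ≠ 0 := by
    have : 0 < Q.card := Finset.card_pos.2 ⟨1, by simp [Q]⟩
    exact_mod_cast this.ne'
  let φ : PolyFun V := (Q.card : ℂ)⁻¹ • ∑ q ∈ Q, pull (τ q : V →ₗ[ℂ] V) φ₀
  refine ⟨φ, ?_, ?_, ?_⟩
  · simp only [φ, map_smul, map_sum, evalAt_pull, smul_eq_mul]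
    rw [Finset.sum_congr rfl (g := fun _ => (1 : ℂ))]
    · rw [Finset.sum_const, nsmul_eq_mul, mul_one, inv_mul_cancel₀ hQ]
    · intro q hq
      have : (τ q : V →ₗ[ℂ] V) x = x := (Finset.mem_filter.1 hq).2
      rw [this, h1]
  · intro w hw
    simp only [φ, map_smul, map_sum, evalAt_pull, smul_eq_mul]
    rw [Finset.sum_eq_zero, mul_zero]
    intro q hq
    have hq' : τ q x = x := (Finset.mem_filter.1 hq).2
    have e1 : (τ q : V →ₗ[ℂ] V) (τ w x) = τ (q * w) x := by rw [map_mul]; rfl
    rw [e1]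
    apply h2
    intro h3
    apply hw
    rw [map_mul, LinearEquiv.mul_apply] at h3
    apply (τ q).injective
    rw [h3, hq']
  · intro q' hq'
    simp only [φ, map_smul, map_sum]
    congr 1
    simp only [pull_pull]
    refine Finset.sum_bij (fun q _ => q * q') ?_ ?_ ?_ ?_
    · intro q hq
      simp only [Q, Finset.mem_filter, Finset.mem_univ, true_and] at hq ⊢
      rw [map_mul, LinearEquiv.mul_apply, hq', hq]
    · intro a _ b _ h; exact mul_right_cancel h
    · intro q hq
      refine ⟨q * q'⁻¹, ?_, by simp⟩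
      simp only [Q, Finset.mem_filter, Finset.mem_univ, true_and] at hq ⊢
      rw [map_mul, LinearEquiv.mul_apply, map_inv]
      have : (τ q')⁻¹ x = x := by
        have h3 : (τ q')⁻¹ (τ q' x) = x := (τ q').symm_apply_apply x
        rwa [hq'] at h3
      rw [this, hq]
    · intro q _; rfl

theorem exists_idem [Fintype W] {H : Type*}
    [CommRing H] [Algebra ℂ H] (σ : W →* (H ≃ₐ[ℂ] H))
    (c : PolyFun V →ₐ[ℂ] H) (hc : ∀ w f, σ w (c f) = c (pull (τ w⁻¹ : V →ₗ[ℂ] V) f)) (x : V)
    (hnil : ∀ ξ, (∀ w, evalAt (τ w x) ξ = 0) → IsNilpotent (c ξ)) :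
    ∃ (ε : H) (r : ℂ), r ≠ 0 ∧ ε * ε = ε ∧ (∀ q, τ q x = x → σ q ε = ε) ∧
      (∀ w, τ w x ≠ x → ε * σ w ε = 0) ∧ ∑ w : W, σ w ε = r • (1 : H) := by
  classical
  obtain ⟨φ, hφ1, hφ2, hφ3⟩ := exists_separating τ x
  have hval : ∀ w, evalAt (τ w x) φ = if τ w x = x then 1 else 0 := by
    intro w
    split_ifs with h
    · rw [h, hφ1]
    · exact hφ2 w h
  have hn1 : IsNilpotent (c φ * c φ - c φ) := by
    have : c φ * c φ - c φ = c (φ * φ - φ) := by rw [map_sub, map_mul]
    rw [this]
    apply hnil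
    intro w
    rw [map_sub, map_mul, hval]
    split_ifs <;> simp
  -- lift the idempotent
  obtain ⟨ε, hε, hεφ⟩ := exists_isIdempotentElem_eq_of_ker_isNilpotent
    (Ideal.Quotient.mk (nilradical H))
    (fun y hy => by rw [Ideal.mk_ker] at hy; exact mem_nilradical.1 hy)
    (Ideal.Quotient.mk (nilradical H) (c φ)) ⟨_, rfl⟩ (by
      rw [IsIdempotentElem, ← map_mul]
      rw [Ideal.Quotient.eq]
      exact mem_nilradical.2 hn1)
  have hsub : IsNilpotent (ε - c φ) := by
    rw [Ideal.Quotient.eq] at hεφ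
    exact mem_nilradical.1 hεφ
  have hσnil : ∀ (w : W) (y : H), IsNilpotent y → IsNilpotent (σ w y) := fun w y hy =>
    hy.map (σ w)
  have hσidem : ∀ w, IsIdempotentElem (σ w ε) := fun w => hε.map (σ w)
  have hcong : ∀ w, IsNilpotent (σ w ε - c (pull (τ w⁻¹ : V →ₗ[ℂ] V) φ)) := by
    intro w
    rw [← hc, ← map_sub]
    exact hσnil w _ hsub
  have hq : ∀ q, τ q x = x → σ q ε = ε := by
    intro q hq
    apply eq_of_isNilpotent_sub_of_isIdempotentElem (hσidem q) hε
    have hqinv : τ q⁻¹ x = x := by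
      have h3 : (τ q)⁻¹ (τ q x) = x := (τ q).symm_apply_apply x
      rw [hq] at h3
      rw [map_inv]; exact h3
    have h1 := hcong q
    rw [hφ3 q⁻¹ hqinv] at h1
    have h2 := Commute.isNilpotent_sub (Commute.all _ _) h1 hsub
    have : σ q ε - ε = σ q ε - c φ - (ε - c φ) := by ring
    rw [this]; exact h2
  have horth : ∀ w, τ w x ≠ x → ε * σ w ε = 0 := by
    intro w hw
    apply IsIdempotentElem.eq_zero_of_isNilpotent (hε.mul (hσidem w))
    have h1 : ε * σ w ε = (ε - c φ) * σ w ε + c φ * (σ w ε - c (pull (τ w⁻¹ : V →ₗ[ℂ] V) φ)) +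
        c (φ * pull (τ w⁻¹ : V →ₗ[ℂ] V) φ) := by rw [map_mul]; ring
    rw [h1]
    have h2 : IsNilpotent (c (φ * pull (τ w⁻¹ : V →ₗ[ℂ] V) φ)) := by
      apply hnil
      intro u
      rw [map_mul, evalAt_pull]
      have e1 : (τ w⁻¹ : V →ₗ[ℂ] V) (τ u x) = τ (w⁻¹ * u) x := by rw [map_mul]; rfl
      rw [e1, hval, hval]
      split_ifs with h3 h4
      · exfalso
        apply hw
        rw [map_mul, LinearEquiv.mul_apply, h3, map_inv] at h4
        have h5 : τ w ((τ w)⁻¹ x) = x := (τ w).apply_symm_apply x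
        rw [h4] at h5
        exact h5
      all_goals simp
    refine Commute.isNilpotent_add (Commute.all _ _) (Commute.isNilpotent_add (Commute.all _ _)
      ?_ ?_) h2
    · exact Commute.isNilpotent_mul_right (Commute.all _ _) hsub
    · exact Commute.isNilpotent_mul_left (Commute.all _ _) (hcong w)
  let Q := Finset.univ.filter (fun w => τ w x = x)
  have hQ : (Q.card : ℂ) ≠ 0 := by
    have : 0 < Q.card := Finset.card_pos.2 ⟨1, by simp [Q]⟩
    exact_mod_cast this.ne'
  refine ⟨ε, Q.card, hQ, hε, hq, horth, ?_⟩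
  -- the sum
  set s : H := (Q.card : ℂ)⁻¹ • ∑ w : W, σ w ε with hs
  have hprod : ∀ w w' : W, σ w ε * σ w' ε = if τ (w⁻¹ * w') x = x then σ w ε else 0 := by
    intro w w'
    have e1 : σ w' ε = σ w (σ (w⁻¹ * w') ε) := by
      rw [← AlgEquiv.mul_apply, ← map_mul, mul_inv_cancel_left]
    rw [e1, ← map_mul]
    split_ifs with h
    · rw [hq _ h, hε.eq]
    · rw [horth _ h, map_zero]
  have hsidem : IsIdempotentElem s := by
    have : (∑ w : W, σ w ε) * (∑ w : W, σ w ε) = (Q.card : ℂ) • ∑ w : W, σ w ε := by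
      rw [Finset.sum_mul_sum, Finset.smul_sum]
      refine Finset.sum_congr rfl fun w _ => ?_
      simp only [hprod]
      rw [← Finset.sum_filter, Finset.sum_const, ← Nat.cast_smul_eq_nsmul ℂ]
      congr 2
      refine Finset.card_bij (fun a _ => w⁻¹ * a) ?_ ?_ ?_
      · intro a ha
        simpa [Q] using ha
      · intro a _ b _ h; exact mul_left_cancel h
      · intro b hb
        refine ⟨w * b, ?_, by simp⟩
        simpa [Q] using hb
    rw [IsIdempotentElem, hs, smul_mul_smul_comm, this, smul_smul]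
    congr 1
    field_simp
  have hs1 : s = 1 := by
    apply eq_of_isNilpotent_sub_of_isIdempotentElem hsidem IsIdempotentElem.one
    have h1 : s - 1 = (Q.card : ℂ)⁻¹ • (∑ w : W, (σ w ε - c (pull (τ w⁻¹ : V →ₗ[ℂ] V) φ))) +
        c ((Q.card : ℂ)⁻¹ • (∑ w : W, pull (τ w⁻¹ : V →ₗ[ℂ] V) φ) - 1) := by
      rw [map_sub, map_smul, map_sum, map_one, Finset.sum_sub_distrib, smul_sub, hs]
      abel
    rw [h1]
    refine Commute.isNilpotent_add (Commute.all _ _) ?_ ?_
    · apply IsNilpotent.smul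
      exact isNilpotent_sum fun w _ => hcong w
    · apply hnil
      intro u
      simp only [map_sub, map_smul, map_sum, map_one, smul_eq_mul, evalAt_pull]
      have e2 : ∀ w : W, evalAt ((τ w⁻¹ : V →ₗ[ℂ] V) (τ u x)) φ =
          if τ (w⁻¹ * u) x = x then 1 else 0 := by
        intro w
        have e1 : (τ w⁻¹ : V →ₗ[ℂ] V) (τ u x) = τ (w⁻¹ * u) x := by rw [map_mul]; rfl
        rw [e1, hval]
      simp only [e2]
      rw [← Finset.sum_filter, Finset.sum_const, nsmul_eq_mul, mul_one, sub_eq_zero]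
      have : (Finset.univ.filter fun w : W => τ (w⁻¹ * u) x = x).card = Q.card := by
        refine Finset.card_bij (fun a _ => a⁻¹ * u) ?_ ?_ ?_
        · intro a ha
          simpa [Q] using ha
        · intro a _ b _ h
          exact inv_injective (mul_right_cancel h)
        · intro b hb
          refine ⟨u * b⁻¹, ?_, by simp⟩
          simp only [Finset.mem_filter, Finset.mem_univ, true_and]
          rw [show (u * b⁻¹)⁻¹ * u = b by group]
          exact (Finset.mem_filter.1 hb).2
      rw [this, inv_mul_cancel₀ hQ]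
  have h9 : ∑ w : W, σ w ε = (Q.card : ℂ) • s := by
    rw [hs, smul_smul, mul_inv_cancel₀ hQ, one_smul]
  rw [h9, hs1]

end Idem

end Pool.Agent.Helper664_Ext
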