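import Pool.Agent.Helper664_Ext.ExtAlg

/-!
# Purity: exteriority outside codimension two implies exteriority everywhere
-/

open Module TensorProduct

namespace Pool.Agent.Helper664_Ext

section Top

variable {W : Type*} [Group W] {H : Type*} [CommRing H] [Algebra ℂ H]
  {V : Type*} [AddCommGroup V] [Module ℂ V]
  (σ : W →* (H ≃ₐ[ℂ] H)) (τ : W →* (V ≃ₗ[ℂ] V))

instance freeSubalg (A : Subalgebra ℂ (H ⊗[ℂ] ExteriorAlgebra ℂ V)) : Module.Free ℂ A :=
  Module.Free.of_divisionRing ℂ A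

instance freeSubsub (A : Subalgebra ℂ (H ⊗[ℂ] ExteriorAlgebra ℂ V)) (p : Submodule ℂ A) :
    Module.Free ℂ p :=
  Module.Free.of_divisionRing ℂ p

theorem finrank_invOne : finrank ℂ (invOne σ τ) = finrank ℂ (invT σ (repV τ)) :=
  (oneEquiv σ τ).finrank_eq.symm

theorem finrank_invAlg : finrank ℂ (invAlg σ τ) = finrank ℂ (invT σ (repExt τ)) :=
  (algEquivInv σ τ).finrank_eq

instance finite_invAlg [FiniteDimensional ℂ H] [FiniteDimensional ℂ V] :
    FiniteDimensional ℂ (invAlg σ τ) :=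
  FiniteDimensional.of_injective (invAlg σ τ).val.toLinearMap Subtype.val_injective

theorem finrank_invAlg_of_isExterior [FiniteDimensional ℂ H] [FiniteDimensional ℂ V]
    (h : IsExterior σ τ) : finrank ℂ (invT σ (repExt τ)) = 2 ^ finrank ℂ (invT σ (repV τ)) := by
  rw [← finrank_invAlg, ← finrank_invOne, ← finrank_exteriorAlgebra]
  exact (LinearEquiv.ofBijective (psi σ τ).toLinearMap h).finrank_eq.symm

/-- projection on the part of degree `m` -/
noncomputable def degProj (m : ℕ) : ExteriorAlgebra ℂ V →ₗ[ℂ] ExteriorAlgebra ℂ V :=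
  (⋀[ℂ]^m V).subtype ∘ₗ (DirectSum.component ℂ ℕ (fun n => ⋀[ℂ]^n V) m) ∘ₗ
    (DirectSum.decomposeLinearEquiv (fun n => ⋀[ℂ]^n V)).toLinearMap

theorem degProj_same (m : ℕ) (v : ExteriorAlgebra ℂ V) (hv : v ∈ ⋀[ℂ]^m V) :
    degProj m v = v := by
  simp only [degProj, LinearMap.comp_apply, LinearEquiv.coe_coe,
    DirectSum.decomposeLinearEquiv_apply]
  exact DirectSum.decompose_of_mem_same _ hv

theorem degProj_ne {m n : ℕ} (hmn : n ≠ m) (v : ExteriorAlgebra ℂ V) (hv : v ∈ ⋀[ℂ]^n V) :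
    degProj m v = 0 := by
  simp only [degProj, LinearMap.comp_apply, LinearEquiv.coe_coe,
    DirectSum.decomposeLinearEquiv_apply]
  exact DirectSum.decompose_of_mem_ne _ hv hmn

theorem lTensor_degProj_same (m : ℕ) (t : H ⊗[ℂ] (⋀[ℂ]^m V)) :
    LinearMap.lTensor H (degProj m) (jP H V m t) = jP H V m t := by
  induction t using TensorProduct.induction_on with
  | zero => simp
  | add s t hs ht => simp only [map_add, hs, ht]
  | tmul h v =>
    simp only [jP, LinearMap.lTensor_tmul]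
    rw [Submodule.subtype_apply, degProj_same m _ v.2]

theorem lTensor_degProj_ne {m n : ℕ} (hmn : n ≠ m) (t : H ⊗[ℂ] (⋀[ℂ]^n V)) :
    LinearMap.lTensor H (degProj m) (jP H V n t) = 0 := by
  induction t using TensorProduct.induction_on with
  | zero => simp
  | add s t hs ht => simp only [map_add, hs, ht, add_zero]
  | tmul h v =>
    simp only [jP, LinearMap.lTensor_tmul]
    rw [Submodule.subtype_apply, degProj_ne hmn _ v.2, TensorProduct.tmul_zero]

theorem psi_mem_range (m : ℕ) (u : Fin m → invOne σ τ) :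
    ∃ t : H ⊗[ℂ] (⋀[ℂ]^m V), jP H V m t =
      ((psi σ τ (ExteriorAlgebra.ιMulti ℂ m u) : invAlg σ τ) : H ⊗[ℂ] ExteriorAlgebra ℂ V) := by
  have : ∀ i, ∃ a : H ⊗[ℂ] V, jV H V a = (((u i : invOne σ τ) : invAlg σ τ) :
      H ⊗[ℂ] ExteriorAlgebra ℂ V) := fun i => (u i).2
  choose a ha using this
  obtain ⟨t, ht⟩ := exists_prod (H := H) (V := V) m a
  refine ⟨t, ?_⟩
  rw [ht, psi_ιMulti]
  simp only [ha]

/-- If `A` is exterior on `U` and `dim U = m`, then `(H ⊗ ⋀^m V)^W` has dimension one. -/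
theorem finrank_top_of_isExterior [FiniteDimensional ℂ H] [FiniteDimensional ℂ V]
    (h : IsExterior σ τ) {m : ℕ} (hm : finrank ℂ (invT σ (repV τ)) = m) :
    finrank ℂ (invT σ (repPow τ m)) = 1 := by
  have hfin : FiniteDimensional ℂ (invOne σ τ) := inferInstance
  have hm' : finrank ℂ (invOne σ τ) = m := by rw [finrank_invOne, hm]
  let b : Basis (Fin m) ℂ (invOne σ τ) := finBasisOfFinrankEq ℂ (invOne σ τ) hm'
  obtain ⟨t, ht⟩ := psi_mem_range σ τ m b
  have ht_mem : t ∈ invT σ (repPow τ m) := by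
    rw [← jP_mem, ht]
    exact Subtype.property _
  have ht0 : t ≠ 0 := by
    rintro rfl
    rw [map_zero] at ht
    have h0 : psi σ τ (ExteriorAlgebra.ιMulti ℂ m b) = 0 := Subtype.ext ht.symm
    rw [← map_zero (psi σ τ)] at h0
    exact ιMulti_basis_ne_zero b (h.1 h0)
  refine (finrank_eq_one_iff_of_nonzero' (K := ℂ) (V := invT σ (repPow τ m)) ⟨t, ht_mem⟩
    (fun h0 => ht0 (congrArg Subtype.val h0))).2 ?_
  rintro ⟨s, hs⟩
  have hs' := (jP_mem σ τ m s).2 hs
  obtain ⟨z, hz⟩ := h.2 ⟨_, hs'⟩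
  have hz' : ((psi σ τ z : invAlg σ τ) : H ⊗[ℂ] ExteriorAlgebra ℂ V) = jP H V m s :=
    congrArg Subtype.val hz
  -- apply the projection of degree `m`
  obtain ⟨c, hc⟩ := exists_smul_of_proj b
    (LinearMap.lTensor H (degProj m) ∘ₗ (invAlg σ τ).val.toLinearMap ∘ₗ (psi σ τ).toLinearMap)
    (fun k u hk => by
      obtain ⟨r, hr⟩ := psi_mem_range σ τ k u
      have : (LinearMap.lTensor H (degProj m) ∘ₗ (invAlg σ τ).val.toLinearMap ∘ₗ
        (psi σ τ).toLinearMap) (ExteriorAlgebra.ιMulti ℂ k u) =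
        LinearMap.lTensor H (degProj m) ((psi σ τ (ExteriorAlgebra.ιMulti ℂ k u) : invAlg σ τ) :
          H ⊗[ℂ] ExteriorAlgebra ℂ V) := rfl
      rw [this, ← hr]
      exact lTensor_degProj_ne hk r) z
  have e1 : LinearMap.lTensor H (degProj m)
      ((psi σ τ z : invAlg σ τ) : H ⊗[ℂ] ExteriorAlgebra ℂ V) =
      c • LinearMap.lTensor H (degProj m) ((psi σ τ (ExteriorAlgebra.ιMulti ℂ m b) :
        invAlg σ τ) : H ⊗[ℂ] ExteriorAlgebra ℂ V) := hc
  rw [hz', ← ht, lTensor_degProj_same, lTensor_degProj_same, ← map_smul] at e1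
  exact ⟨c, Subtype.ext (jP_injective m e1).symm⟩

end Top

section Main

variable {W : Type*} [Group W] {E : Type*} [AddCommGroup E] [Module ℂ E]
  {K : Type*} [CommRing K] [Algebra ℂ K] [Algebra (PolyFun E) K] [IsScalarTower ℂ (PolyFun E) K]
  {V : Type*} [AddCommGroup V] [Module ℂ V]

variable (K V) in
/-- Specialisation of `K ⊗ ⋀ V`, as an algebra map. -/
noncomputable def spAlg (x : E) :
    K ⊗[ℂ] ExteriorAlgebra ℂ V →ₐ[ℂ] Fib K x ⊗[ℂ] ExteriorAlgebra ℂ V :=
  Algebra.TensorProduct.map (Ideal.Quotient.mkₐ ℂ (fibIdeal K x)) (AlgHom.id ℂ _)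

omit [IsScalarTower ℂ (PolyFun E) K] in
theorem spAlg_jV (x : E) (t : K ⊗[ℂ] V) :
    spAlg K V x (jV K V t) = jV (Fib K x) V (sp K V x t) := by
  induction t using TensorProduct.induction_on with
  | zero => simp
  | add s t hs ht => simp only [map_add, hs, ht]
  | tmul h v =>
    simp only [jV, LinearMap.lTensor_tmul, spAlg, Algebra.TensorProduct.map_tmul, sp_tmul]
    rfl

omit [IsScalarTower ℂ (PolyFun E) K] in
theorem spAlg_jP (x : E) (m : ℕ) (t : K ⊗[ℂ] (⋀[ℂ]^m V)) :
    spAlg K V x (jP K V m t) = jP (Fib K x) V m (sp K (⋀[ℂ]^m V) x t) := by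
  induction t using TensorProduct.induction_on with
  | zero => simp
  | add s t hs ht => simp only [map_add, hs, ht]
  | tmul h v =>
    simp only [jP, LinearMap.lTensor_tmul, spAlg, Algebra.TensorProduct.map_tmul, sp_tmul]
    rfl

/-- Linear independence of the values of finitely many elements at a point is an open condition. -/
theorem exists_det {ι : Type*} [Fintype ι] (b : Basis ι (PolyFun E) K) [FiniteDimensional ℂ V]
    {m : ℕ} (θ : Fin m → K ⊗[ℂ] V) (x₀ : E)
    (hli : LinearIndependent ℂ fun i => sp K V x₀ (θ i)) :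
    ∃ h : PolyFun E, evalAt x₀ h ≠ 0 ∧
      ∀ y, evalAt y h ≠ 0 → LinearIndependent ℂ fun i => sp K V y (θ i) := by
  classical
  let e := finBasis ℂ V
  let B := b.tensorProduct e
  -- left inverse at `x₀`
  obtain ⟨L, hL⟩ : ∃ L : (Fib K x₀ ⊗[ℂ] V) →ₗ[ℂ] (Fin m → ℂ),
      ∀ i, L (sp K V x₀ (θ i)) = Pi.single i 1 := by
    obtain ⟨g, hg⟩ := LinearMap.exists_leftInverse_of_injective
      (Fintype.linearCombination ℂ fun i => sp K V x₀ (θ i))
      (LinearMap.ker_eq_bot.2 (linearIndependent_iff_injective_fintypeLinearCombination.1 hli))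
    refine ⟨g, fun i => ?_⟩
    have := LinearMap.congr_fun hg (Pi.single i 1)
    simpa [Fintype.linearCombination_apply] using this
  let Lm : Fin m → ι × Fin (finrank ℂ V) → ℂ := fun i p =>
    L ((fibBasis b x₀).tensorProduct e p) i
  let M : Matrix (Fin m) (Fin m) (PolyFun E) := fun i j => ∑ p, Lm i p • B.repr (θ j) p
  have hM : ∀ y, (evalAt y).mapMatrix M = Matrix.of fun i j =>
      ∑ p, Lm i p * ((fibBasis b y).tensorProduct e).repr (sp K V y (θ j)) p := by
    intro y
    ext i j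
    simp only [AlgHom.mapMatrix_apply, Matrix.map_apply, Matrix.of_apply, M, map_sum, map_smul,
      smul_eq_mul]
    refine Finset.sum_congr rfl fun p _ => ?_
    rw [sp_repr]
  refine ⟨M.det, ?_, ?_⟩
  · rw [AlgHom.map_det, hM]
    have : (Matrix.of fun i j =>
      ∑ p, Lm i p * ((fibBasis b x₀).tensorProduct e).repr (sp K V x₀ (θ j)) p) =
        (1 : Matrix (Fin m) (Fin m) ℂ) := by
      ext i j
      have h1 : L (sp K V x₀ (θ j)) i = ∑ p, Lm i p *
          ((fibBasis b x₀).tensorProduct e).repr (sp K V x₀ (θ j)) p := by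
        conv_lhs => rw [← ((fibBasis b x₀).tensorProduct e).sum_repr (sp K V x₀ (θ j))]
        rw [map_sum, Finset.sum_apply]
        refine Finset.sum_congr rfl fun p _ => ?_
        rw [map_smul, Pi.smul_apply, smul_eq_mul, mul_comm]
      rw [Matrix.of_apply, ← h1, hL, Matrix.one_apply, Pi.single_apply]
    rw [this, Matrix.det_one]
    exact one_ne_zero
  · intro y hy
    rw [AlgHom.map_det, hM] at hy
    rw [Fintype.linearIndependent_iff]
    intro c hc
    have h2 := Matrix.eq_zero_of_mulVec_eq_zero hy (v := c) ?_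
    · exact fun i => congrFun h2 i
    · ext i
      rw [Matrix.mulVec, dotProduct]
      simp only [Matrix.of_apply, Pi.zero_apply]
      have h3 : ∀ p, ∑ j, ((fibBasis b y).tensorProduct e).repr (sp K V y (θ j)) p * c j = 0 := by
        intro p
        have := congrArg (fun t => ((fibBasis b y).tensorProduct e).repr t p) hc
        simp only [map_sum, map_smul, map_zero, Finsupp.coe_finsetSum, Finset.sum_apply,
          Finsupp.smul_apply, smul_eq_mul, Finsupp.coe_zero, Pi.zero_apply] at this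
        rw [← this]
        exact Finset.sum_congr rfl fun j _ => mul_comm _ _
      have h4 : ∀ j, (∑ p, Lm i p * ((fibBasis b y).tensorProduct e).repr (sp K V y (θ j)) p) * c j
          = ∑ p, Lm i p * (((fibBasis b y).tensorProduct e).repr (sp K V y (θ j)) p * c j) := by
        intro j
        rw [Finset.sum_mul]
        exact Finset.sum_congr rfl fun p _ => mul_assoc _ _ _
      rw [Finset.sum_congr rfl fun j _ => h4 j, Finset.sum_comm]
      apply Finset.sum_eq_zero
      intro p _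
      rw [← Finset.mul_sum, h3, mul_zero]

/-- **Purity.** If all fibres outside finitely many subspaces of codimension at least two are
exterior, then all fibres are. -/
theorem isExterior_of_codim_two [Finite W] [FiniteDimensional ℂ V] [FiniteDimensional ℂ E]
    [Module.Free (PolyFun E) K] [Module.Finite (PolyFun E) K]
    (ρ : W →* (K ≃ₐ[PolyFun E] K)) (τ : W →* (V ≃ₗ[ℂ] V))
    (𝓑 : Finset (Submodule ℂ E)) (h𝓑 : ∀ B ∈ 𝓑, finrank ℂ B + 2 ≤ finrank ℂ E)
    (hgen : ∀ x, (∀ B ∈ 𝓑, x ∉ B) → IsExterior (fibAct ρ x) τ) (x₀ : E) :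
    IsExterior (fibAct ρ x₀) τ := by
  classical
  have hfd : ∀ z : E, FiniteDimensional ℂ (Fib K z) := fun z => finiteDimensional_fib z
  -- a good point
  obtain ⟨y₀, -, -, hy₀⟩ := exists_point (0 : PolyFun E) 1 x₀ (map_zero _)
    (by rw [map_one]; exact one_ne_zero) 𝓑 h𝓑
  have hgood := hgen y₀ hy₀
  set m := finrank ℂ (invT (fibAct ρ x₀) (repV τ)) with hm
  have hmx : ∀ x : E, finrank ℂ (invT (fibAct ρ x) (repV τ)) = m := fun x =>
    finrank_invT_fib_eq ρ (repV τ) x x₀
  have hAx : ∀ x : E, finrank ℂ (invT (fibAct ρ x) (repExt τ)) = 2 ^ m := fun x => by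
    rw [finrank_invT_fib_eq ρ (repExt τ) x y₀, finrank_invAlg_of_isExterior _ _ hgood, hmx]
  have hTx : ∀ x : E, finrank ℂ (invT (fibAct ρ x) (repPow τ m)) = 1 := fun x => by
    rw [finrank_invT_fib_eq ρ (repPow τ m) x y₀, finrank_top_of_isExterior _ _ hgood (hmx y₀)]
  -- a basis at `x₀` and lifts
  have hm' : finrank ℂ (invT (fibAct ρ x₀) (repV τ)) = m := rfl
  let a : Basis (Fin m) ℂ (invT (fibAct ρ x₀) (repV τ)) :=
    finBasisOfFinrankEq ℂ (invT (fibAct ρ x₀) (repV τ)) hm'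
  have hlift : ∀ i, ∃ s ∈ invT (resC ρ) (repV τ), sp K V x₀ s = (a i : Fib K x₀ ⊗[ℂ] V) :=
    fun i => exists_lift ρ (repV τ) x₀ (a i).2
  choose θ hθ hθa using hlift
  obtain ⟨D, hD⟩ := exists_prod (H := K) (V := V) m θ
  have hDmem : D ∈ invT (resC ρ) (repPow τ m) := by
    rw [← jP_mem, hD]
    apply Subalgebra.list_prod_mem
    intro z hz
    rw [List.mem_ofFn] at hz
    obtain ⟨i, rfl⟩ := hz
    exact (jV_mem (resC ρ) τ _).2 (hθ i)
  have hDy : ∀ y : E, jP (Fib K y) V m (sp K (⋀[ℂ]^m V) y D) =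
      (List.ofFn fun i => jV (Fib K y) V (sp K V y (θ i))).prod := by
    intro y
    rw [← spAlg_jP, hD, map_list_prod, List.map_ofFn]
    congr 2
    ext i
    exact spAlg_jV y (θ i)
  -- the top product at a point where the values are independent
  have hpsi : ∀ (y : E) (u : Fin m → invOne (fibAct ρ y) τ),
      (∀ i, (((u i : invOne (fibAct ρ y) τ) : invAlg (fibAct ρ y) τ) :
        Fib K y ⊗[ℂ] ExteriorAlgebra ℂ V) = jV (Fib K y) V (sp K V y (θ i))) →
      ((psi (fibAct ρ y) τ (ExteriorAlgebra.ιMulti ℂ m u) : invAlg (fibAct ρ y) τ) :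
        Fib K y ⊗[ℂ] ExteriorAlgebra ℂ V) = jP (Fib K y) V m (sp K (⋀[ℂ]^m V) y D) := by
    intro y u hu
    rw [psi_ιMulti, hDy]
    simp only [hu]
  have hne : sp K (⋀[ℂ]^m V) x₀ D ≠ 0 := by
    intro h0
    obtain ⟨g, hg0, hg⟩ := exists_dvd_of_sp_eq_zero ρ (repPow τ m) hTx D hDmem x₀ h0
    have hli : LinearIndependent ℂ fun i => sp K V x₀ (θ i) := by
      have : (fun i => sp K V x₀ (θ i)) = (invT (fibAct ρ x₀) (repV τ)).subtype ∘ a := by
        ext i; exact hθa i
      rw [this]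
      exact a.linearIndependent.map' _ (Submodule.ker_subtype _)
    obtain ⟨h, hh0, hh⟩ := exists_det (Module.Free.chooseBasis (PolyFun E) K) θ x₀ hli
    obtain ⟨y, hy1, hy2, hy3⟩ := exists_point g h x₀ hg0 hh0 𝓑 h𝓑
    have hext := hgen y hy3
    have hliy := hh y hy2
    let u : Fin m → invOne (fibAct ρ y) τ := fun i =>
      oneEquiv (fibAct ρ y) τ ⟨sp K V y (θ i), sp_mem ρ (repV τ) y (hθ i)⟩
    have hu : LinearIndependent ℂ u := by
      have h1 : LinearIndependent ℂ (fun i => (⟨sp K V y (θ i), sp_mem ρ (repV τ) y (hθ i)⟩ :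
          invT (fibAct ρ y) (repV τ))) := by
        apply LinearIndependent.of_comp (invT (fibAct ρ y) (repV τ)).subtype
        exact hliy
      exact h1.map' (oneEquiv (fibAct ρ y) τ).toLinearMap (LinearEquiv.ker _)
    have hfr : Fintype.card (Fin m) = finrank ℂ (invOne (fibAct ρ y) τ) := by
      rw [Fintype.card_fin, finrank_invOne, hmx]
    let bu := basisOfLinearIndependentOfCardEqFinrank' (K := ℂ) u hu hfr
    have hbu : (bu : Fin m → invOne (fibAct ρ y) τ) = u :=
      coe_basisOfLinearIndependentOfCardEqFinrank' u hu hfr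
    have h5 := hpsi y u (fun i => oneEquiv_coe (fibAct ρ y) τ _)
    rw [hg y hy1, map_zero] at h5
    have h6 : psi (fibAct ρ y) τ (ExteriorAlgebra.ιMulti ℂ m u) = 0 := Subtype.ext h5
    rw [← map_zero (psi (fibAct ρ y) τ)] at h6
    have h7 := hext.1 h6
    rw [← hbu] at h7
    exact ιMulti_basis_ne_zero bu h7
  -- conclusion at `x₀`
  let u₀ : Basis (Fin m) ℂ (invOne (fibAct ρ x₀) τ) := a.map (oneEquiv (fibAct ρ x₀) τ)
  have h8 := hpsi x₀ u₀ (fun i => by
    rw [hθa]; exact oneEquiv_coe (fibAct ρ x₀) τ (a i))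
  have hinj : Function.Injective (psi (fibAct ρ x₀) τ) := by
    apply injective_of_top u₀
    intro h9
    rw [h9] at h8
    apply hne
    apply jP_injective (H := Fib K x₀) (V := V) m
    rw [map_zero]
    exact h8.symm
  have hfin : FiniteDimensional ℂ (invOne (fibAct ρ x₀) τ) := inferInstance
  have hdim : finrank ℂ (ExteriorAlgebra ℂ (invOne (fibAct ρ x₀) τ)) =
      finrank ℂ (invAlg (fibAct ρ x₀) τ) := by
    rw [finrank_exteriorAlgebra, finrank_invOne, finrank_invAlg, hAx x₀]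
  exact ⟨hinj, (LinearMap.injective_iff_surjective_of_finrank_eq_finrank
    (f := (psi (fibAct ρ x₀) τ).toLinearMap) hdim).1 hinj⟩

end Main

end Pool.Agent.Helper664_Ext
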