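import Pool.Agent.Helper664_Ext.Idem
import Pool.Agent.Helper664_Ext.Purity

/-!
# Local analysis of a fibre at a point `x`

`ε` is an idempotent which is attached to `x`: it is fixed by the stabiliser of `x`, its translates
by the other elements are orthogonal to it, and the sum of its translates is a scalar.
-/

open Module TensorProduct

namespace Pool.Agent.Helper664_Ext

section MulT

variable {W : Type*} [Group W] {H : Type*} [CommRing H] [Algebra ℂ H]
  {F : Type*} [AddCommGroup F] [Module ℂ F]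

/-- multiplication by an element of `H` on `H ⊗ F` -/
noncomputable def mulT (h : H) : H ⊗[ℂ] F →ₗ[ℂ] H ⊗[ℂ] F :=
  LinearMap.rTensor F (LinearMap.mulLeft ℂ h)

theorem mulT_tmul (h a : H) (f : F) : mulT h (a ⊗ₜ[ℂ] f) = (h * a) ⊗ₜ[ℂ] f := rfl

theorem mulT_mulT (h h' : H) (t : H ⊗[ℂ] F) : mulT h (mulT h' t) = mulT (h * h') t := by
  induction t using TensorProduct.induction_on with
  | zero => simp
  | add s t hs ht => simp only [map_add, hs, ht]
  | tmul a f => rw [mulT_tmul, mulT_tmul, mulT_tmul, mul_assoc]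

theorem mulT_smul_one (r : ℂ) (t : H ⊗[ℂ] F) : mulT (r • (1 : H)) t = r • t := by
  induction t using TensorProduct.induction_on with
  | zero => simp
  | add s t hs ht => rw [map_add, hs, ht, smul_add]
  | tmul a f => rw [mulT_tmul, smul_mul_assoc, one_mul, TensorProduct.smul_tmul']

theorem mulT_zero (t : H ⊗[ℂ] F) : mulT (0 : H) t = 0 := by
  have := mulT_smul_one (H := H) 0 t
  rwa [zero_smul, zero_smul] at this

theorem mulT_sum {ι : Type*} (s : Finset ι) (h : ι → H) (t : H ⊗[ℂ] F) :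
    mulT (∑ i ∈ s, h i) t = ∑ i ∈ s, mulT (h i) t := by
  induction t using TensorProduct.induction_on with
  | zero => simp
  | add s t hs ht => simp only [map_add, hs, ht, Finset.sum_add_distrib]
  | tmul a f =>
    simp only [mulT_tmul]
    rw [Finset.sum_mul, TensorProduct.sum_tmul]

theorem map_mulT {H' : Type*} [CommRing H'] [Algebra ℂ H'] (g : H →ₐ[ℂ] H') {F' : Type*}
    [AddCommGroup F'] [Module ℂ F'] (k : F →ₗ[ℂ] F') (h : H) (t : H ⊗[ℂ] F) :
    TensorProduct.map g.toLinearMap k (mulT h t) = mulT (g h) (TensorProduct.map g.toLinearMap k t) := by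
  induction t using TensorProduct.induction_on with
  | zero => simp
  | add s t hs ht => simp only [map_add, hs, ht]
  | tmul a f =>
    rw [mulT_tmul, TensorProduct.map_tmul, TensorProduct.map_tmul, mulT_tmul]
    simp

theorem lTensor_mulT {F' : Type*} [AddCommGroup F'] [Module ℂ F'] (k : F →ₗ[ℂ] F') (h : H)
    (t : H ⊗[ℂ] F) : LinearMap.lTensor H k (mulT h t) = mulT h (LinearMap.lTensor H k t) := by
  induction t using TensorProduct.induction_on with
  | zero => simp
  | add s t hs ht => simp only [map_add, hs, ht]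
  | tmul a f => rfl

theorem tmul_injective {ε : H} (hε : ε ≠ 0) {v v' : F} (h : ε ⊗ₜ[ℂ] v = ε ⊗ₜ[ℂ] v') : v = v' := by
  have h3 := mt (Module.forall_dual_apply_eq_zero_iff ℂ ε).1 hε
  push Not at h3
  obtain ⟨f, hf⟩ := h3
  have h1 := congrArg (fun t => TensorProduct.lid ℂ F (LinearMap.rTensor F f t)) h
  simp only [LinearMap.rTensor_tmul, TensorProduct.lid_tmul] at h1
  exact smul_right_injective F hf h1

end MulT

section Point

variable {W : Type*} [Group W] {H : Type*} [CommRing H] [Algebra ℂ H]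
  {V : Type*} [AddCommGroup V] [Module ℂ V]

/-- The properties of the idempotent attached to `x`. -/
structure IsLocalIdem [Fintype W] (σ : W →* (H ≃ₐ[ℂ] H)) (τ : W →* (V ≃ₗ[ℂ] V)) (x : V) (ε : H)
    (r : ℂ) : Prop where
  r0 : r ≠ 0
  idem : ε * ε = ε
  fix : ∀ q, τ q x = x → σ q ε = ε
  orth : ∀ w, τ w x ≠ x → ε * σ w ε = 0
  sum : ∑ w : W, σ w ε = r • (1 : H)

/-- The stabiliser of `x`. -/
def stab (τ : W →* (V ≃ₗ[ℂ] V)) (x : V) : Subgroup W where
  carrier := {w | τ w x = x}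
  one_mem' := by show τ 1 x = x; rw [map_one]; rfl
  mul_mem' := by
    intro a b ha hb
    show τ (a * b) x = x
    have ha' : τ a x = x := ha
    have hb' : τ b x = x := hb
    rw [map_mul, LinearEquiv.mul_apply, hb', ha']
  inv_mem' := by
    intro a ha
    show τ a⁻¹ x = x
    have ha' : τ a x = x := ha
    have h3 : (τ a)⁻¹ (τ a x) = x := (τ a).symm_apply_apply x
    rw [ha'] at h3
    rw [map_inv]; exact h3

theorem mem_stab (τ : W →* (V ≃ₗ[ℂ] V)) (x : V) (w : W) : w ∈ stab τ x ↔ τ w x = x := Iff.rfl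

/-- The vectors which are fixed by a subgroup. -/
def fixSub {F : Type*} [AddCommGroup F] [Module ℂ F] (θ : Representation ℂ W F) (P : Subgroup W) :
    Submodule ℂ F where
  carrier := {v | ∀ p ∈ P, θ p v = v}
  zero_mem' := fun _ _ => map_zero _
  add_mem' := fun ha hb p hp => by rw [map_add, ha p hp, hb p hp]
  smul_mem' := fun c v hv p hp => by rw [map_smul, hv p hp]

theorem mem_fixSub {F : Type*} [AddCommGroup F] [Module ℂ F] (θ : Representation ℂ W F)
    (P : Subgroup W) (v : F) : v ∈ fixSub θ P ↔ ∀ p ∈ P, θ p v = v := Iff.rfl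

variable [Fintype W] {σ : W →* (H ≃ₐ[ℂ] H)} {τ : W →* (V ≃ₗ[ℂ] V)} {x : V} {ε : H} {r : ℂ}
  {F : Type*} [AddCommGroup F] [Module ℂ F] (θ : Representation ℂ W F)

theorem IsLocalIdem.eq_zero (h : IsLocalIdem σ τ x ε r) {t : H ⊗[ℂ] F} (ht : t ∈ invT σ θ)
    (h0 : mulT ε t = 0) : t = 0 := by
  have h1 : r • t = ∑ w : W, mulT (σ w ε) t := by
    rw [← mulT_smul_one, ← h.sum, mulT_sum]
  have h2 : ∀ w : W, mulT (σ w ε) t = 0 := by
    intro w
    have h3 := map_mulT (σ w : H →ₐ[ℂ] H) (θ w) ε t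
    have h4 : TensorProduct.map (σ w : H →ₐ[ℂ] H).toLinearMap (θ w) t = t := (mem_invT σ θ t).1 ht w
    rw [h0, map_zero, h4] at h3
    exact h3.symm
  rw [Finset.sum_congr rfl fun w _ => h2 w, Finset.sum_const_zero] at h1
  exact (smul_eq_zero.1 h1).resolve_left h.r0

theorem IsLocalIdem.ne_zero (h : IsLocalIdem σ τ x ε r) [Nontrivial H] : ε ≠ 0 := by
  rintro rfl
  have h1 := h.sum
  simp only [map_zero, Finset.sum_const_zero] at h1
  exact h.r0 ((smul_eq_zero.1 h1.symm).resolve_right one_ne_zero)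

variable (σ) in
/-- the sum of the translates of `ε ⊗ v` -/
noncomputable def sumT (ε : H) : F →ₗ[ℂ] H ⊗[ℂ] F :=
  ∑ w : W, (TensorProduct.map (σ w).toLinearMap (θ w)) ∘ₗ (TensorProduct.mk ℂ H F ε)

theorem sumT_apply (v : F) : sumT σ θ ε v = ∑ w : W, σ w ε ⊗ₜ[ℂ] θ w v := by
  simp [sumT]

theorem sumT_mem (v : F) : sumT σ θ ε v ∈ invT σ θ := by
  intro g
  rw [sumT_apply, map_sum]
  have : ∀ w, ((repOf σ).tprod θ) g (σ w ε ⊗ₜ[ℂ] θ w v) = σ (g * w) ε ⊗ₜ[ℂ] θ (g * w) v := by
    intro w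
    rw [map_mul, map_mul]; rfl
  rw [Finset.sum_congr rfl fun w _ => this w]
  exact Fintype.sum_equiv (Equiv.mulLeft g) _ _ fun w => rfl

open scoped Classical in
theorem IsLocalIdem.mulT_sumT (h : IsLocalIdem σ τ x ε r) {v : F}
    (hv : v ∈ fixSub θ (stab τ x)) :
    mulT ε (sumT σ θ ε v) =
      ((Finset.univ.filter fun w : W => τ w x = x).card : ℂ) • (ε ⊗ₜ[ℂ] v) := by
  rw [sumT_apply, map_sum]
  have h1 : ∀ w : W, mulT ε (σ w ε ⊗ₜ[ℂ] θ w v) = if τ w x = x then ε ⊗ₜ[ℂ] v else 0 := by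
    intro w
    rw [mulT_tmul]
    split_ifs with hw
    · rw [h.fix w hw, h.idem, (mem_fixSub θ _ v).1 hv w hw]
    · rw [h.orth w hw, TensorProduct.zero_tmul]
  rw [Finset.sum_congr rfl fun w _ => h1 w, ← Finset.sum_filter, Finset.sum_const,
    ← Nat.cast_smul_eq_nsmul ℂ]

open scoped Classical in
theorem card_stab_ne_zero (τ : W →* (V ≃ₗ[ℂ] V)) (x : V) :
    ((Finset.univ.filter fun w : W => τ w x = x).card : ℂ) ≠ 0 := by
  have : 0 < (Finset.univ.filter fun w : W => τ w x = x).card :=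
    Finset.card_pos.2 ⟨1, by simp⟩
  exact_mod_cast this.ne'

/-- If `ε H` is one-dimensional, then the invariants of `H ⊗ F` are the vectors of `F` which are
fixed by the stabiliser. -/
theorem IsLocalIdem.finrank_eq (h : IsLocalIdem σ τ x ε r) (hε0 : ε ≠ 0)
    (hε : ∀ a : H, ∃ c : ℂ, ε * a = c • ε) :
    finrank ℂ (invT σ θ) = finrank ℂ (fixSub θ (stab τ x)) := by
  classical
  have hn := card_stab_ne_zero τ x
  have hinv : ∀ t : H ⊗[ℂ] F, ∃ v : F, mulT ε t = ε ⊗ₜ[ℂ] v := by
    intro t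
    induction t using TensorProduct.induction_on with
    | zero => exact ⟨0, by simp⟩
    | add s t hs ht =>
      obtain ⟨v, hv⟩ := hs
      obtain ⟨v', hv'⟩ := ht
      exact ⟨v + v', by rw [map_add, hv, hv', TensorProduct.tmul_add]⟩
    | tmul a f =>
      obtain ⟨c, hc⟩ := hε a
      exact ⟨c • f, by rw [mulT_tmul, hc, TensorProduct.smul_tmul]⟩
  symm
  refine (LinearEquiv.ofBijective ((sumT σ θ ε ∘ₗ (fixSub θ (stab τ x)).subtype).codRestrict
    (invT σ θ) fun v => sumT_mem θ _) ⟨?_, ?_⟩).finrank_eq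
  · rw [injective_iff_map_eq_zero]
    intro v hv
    have h1 : sumT σ θ ε (v : F) = 0 := congrArg Subtype.val hv
    have h2 := h.mulT_sumT θ v.2
    rw [h1, map_zero, eq_comm, smul_eq_zero] at h2
    have h3 := h2.resolve_left hn
    rw [← TensorProduct.tmul_zero (R := ℂ) F ε] at h3
    exact Subtype.ext (tmul_injective hε0 h3)
  · rintro ⟨t, ht⟩
    obtain ⟨v, hv⟩ := hinv t
    have hvfix : v ∈ fixSub θ (stab τ x) := by
      intro q hq
      have h3 := map_mulT (σ q : H →ₐ[ℂ] H) (θ q) ε t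
      have h4 : TensorProduct.map (σ q : H →ₐ[ℂ] H).toLinearMap (θ q) t = t :=
        (mem_invT σ θ t).1 ht q
      have h5 : (σ q : H →ₐ[ℂ] H) ε = ε := h.fix q hq
      rw [h4, h5, hv, TensorProduct.map_tmul] at h3
      have h6 : (σ q : H →ₐ[ℂ] H).toLinearMap ε = ε := h5
      rw [h6] at h3
      exact tmul_injective hε0 h3
    refine ⟨⟨((Finset.univ.filter fun w : W => τ w x = x).card : ℂ)⁻¹ • v,
      Submodule.smul_mem _ _ hvfix⟩, Subtype.ext ?_⟩
    show sumT σ θ ε (((Finset.univ.filter fun w : W => τ w x = x).card : ℂ)⁻¹ • v) = t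
    rw [← sub_eq_zero]
    apply h.eq_zero θ (Submodule.sub_mem _ (sumT_mem θ _) ht)
    rw [map_sub, map_smul, map_smul, h.mulT_sumT θ hvfix, smul_smul, inv_mul_cancel₀ hn, one_smul,
      hv, sub_self]

/-- If `dim H` is the index of the stabiliser, then `ε H` is one-dimensional. -/
theorem IsLocalIdem.exists_smul (h : IsLocalIdem σ τ x ε r) [FiniteDimensional ℂ H]
    (hε0 : ε ≠ 0) (hdim : finrank ℂ H = (stab τ x).index) (a : H) :
    ∃ c : ℂ, ε * a = c • ε := by
  classical
  let e : W ⧸ stab τ x → H := fun g => σ g.out ε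
  have hmul : ∀ g g' : W ⧸ stab τ x, g ≠ g' → e g * e g' = 0 := by
    intro g g' hg
    have e1 : e g' = σ g.out (σ (g.out⁻¹ * g'.out) ε) := by
      rw [← AlgEquiv.mul_apply, ← map_mul, mul_inv_cancel_left]
    rw [e1]
    show σ g.out ε * _ = 0
    rw [← map_mul, h.orth, map_zero]
    intro h2
    apply hg
    rw [← Quotient.out_eq' g, ← Quotient.out_eq' g']
    exact QuotientGroup.eq.2 h2
  have hidem : ∀ g, e g * e g = e g := fun g => by
    show σ g.out ε * σ g.out ε = σ g.out ε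
    rw [← map_mul, h.idem]
  have hne : ∀ g, e g ≠ 0 := fun g h0 => hε0 ((map_eq_zero_iff (σ g.out) (σ g.out).injective).1 h0)
  have hli : LinearIndependent ℂ e := by
    rw [Fintype.linearIndependent_iff]
    intro c hc g
    have h1 := congrArg (fun y => e g * y) hc
    simp only [Finset.mul_sum, mul_zero, mul_smul_comm] at h1
    rw [Finset.sum_eq_single g] at h1
    · rw [hidem] at h1
      exact (smul_eq_zero.1 h1).resolve_right (hne g)
    · intro g' _ hg'
      rw [hmul g g' (Ne.symm hg'), smul_zero]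
    · intro h2; exact absurd (Finset.mem_univ _) h2
  have hspan := hli.span_eq_top_of_card_eq_finrank' (by
    rw [hdim, Subgroup.index, Nat.card_eq_fintype_card])
  have ha : a ∈ Submodule.span ℂ (Set.range e) := by rw [hspan]; exact Submodule.mem_top
  obtain ⟨c, hc⟩ := (Submodule.mem_span_range_iff_exists_fun ℂ).1 ha
  let g₁ : W ⧸ stab τ x := ((1 : W) : W ⧸ stab τ x)
  have hg₁ : e g₁ = ε := by
    apply h.fix
    have h2 : ((g₁.out : W) : W ⧸ stab τ x) = ((1 : W) : W ⧸ stab τ x) := Quotient.out_eq' g₁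
    have h3 := QuotientGroup.eq.1 h2
    rw [mul_one] at h3
    have h4 := (stab τ x).inv_mem h3
    rw [inv_inv] at h4
    exact h4
  refine ⟨c g₁, ?_⟩
  rw [← hc, Finset.mul_sum, Finset.sum_eq_single g₁]
  · rw [mul_smul_comm, ← hg₁, hidem]
  · intro g' _ hg'
    rw [mul_smul_comm, ← hg₁, hmul g₁ g' (Ne.symm hg'), smul_zero]
  · intro h2; exact absurd (Finset.mem_univ _) h2

end Point

end Pool.Agent.Helper664_Ext
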