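import Pool.Agent.Helper664_Ext.ExtAlg

/-!
# Invariants of a group generated by reflections in the exterior algebra
-/

open Module

namespace Pool.Agent.Helper664_Ext

section

variable {V : Type*} [AddCommGroup V] [Module ℂ V]

/-- contraction -/
noncomputable def ctr (ξ : Dual ℂ V) : ExteriorAlgebra ℂ V →ₗ[ℂ] ExteriorAlgebra ℂ V :=
  CliffordAlgebra.contractLeft (Q := (0 : QuadraticForm ℂ V)) ξ

theorem ctr_ι_mul (ξ : Dual ℂ V) (a : V) (ω : ExteriorAlgebra ℂ V) :
    ctr ξ (ExteriorAlgebra.ι ℂ a * ω) = ξ a • ω - ExteriorAlgebra.ι ℂ a * ctr ξ ω :=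
  CliffordAlgebra.contractLeft_ι_mul (Q := (0 : QuadraticForm ℂ V)) ξ a ω

theorem ctr_ctr (ξ : Dual ℂ V) (ω : ExteriorAlgebra ℂ V) : ctr ξ (ctr ξ ω) = 0 :=
  CliffordAlgebra.contractLeft_contractLeft (Q := (0 : QuadraticForm ℂ V)) ξ ω

theorem ctr_algebraMap (ξ : Dual ℂ V) (r : ℂ) :
    ctr ξ (algebraMap ℂ (ExteriorAlgebra ℂ V) r) = 0 :=
  CliffordAlgebra.contractLeft_algebraMap (0 : QuadraticForm ℂ V) ξ r

/-- The map induced by `v ↦ v + ξ v • a`. -/
theorem map_transv (g : V →ₗ[ℂ] V) (ξ : Dual ℂ V) (a : V) (hg : ∀ v, g v = v + ξ v • a)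
    (ω : ExteriorAlgebra ℂ V) :
    ExteriorAlgebra.map g ω = ω + ExteriorAlgebra.ι ℂ a * ctr ξ ω := by
  refine CliffordAlgebra.left_induction (Q := (0 : QuadraticForm ℂ V))
    (P := fun ω => ExteriorAlgebra.map g ω = ω + ExteriorAlgebra.ι ℂ a * ctr ξ ω) ?_ ?_ ?_ ω
  · intro r
    have h1 := ctr_algebraMap ξ r
    have h2 : ExteriorAlgebra.map g (algebraMap ℂ (ExteriorAlgebra ℂ V) r) =
      algebraMap ℂ (ExteriorAlgebra ℂ V) r := AlgHom.commutes _ _
    calc _ = algebraMap ℂ (ExteriorAlgebra ℂ V) r := h2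
      _ = algebraMap ℂ (ExteriorAlgebra ℂ V) r + ExteriorAlgebra.ι ℂ a *
          ctr ξ (algebraMap ℂ (ExteriorAlgebra ℂ V) r) := by rw [h1, mul_zero, add_zero]
  · intro x y hx hy
    rw [map_add, map_add, hx, hy, mul_add]
    abel
  · intro x v hx
    have h1 : ExteriorAlgebra.map g (ExteriorAlgebra.ι ℂ v * x) =
        ExteriorAlgebra.ι ℂ v * x + ExteriorAlgebra.ι ℂ a * ctr ξ (ExteriorAlgebra.ι ℂ v * x) := by
      rw [map_mul, hx, ExteriorAlgebra.map_apply_ι, hg, ctr_ι_mul, map_add, map_smul]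
      have hsw : ExteriorAlgebra.ι ℂ v * ExteriorAlgebra.ι ℂ a =
          - (ExteriorAlgebra.ι ℂ a * ExteriorAlgebra.ι ℂ v) :=
        eq_neg_of_add_eq_zero_left (ExteriorAlgebra.ι_add_mul_swap (R := ℂ) v a)
      have hsq : ExteriorAlgebra.ι ℂ a * ExteriorAlgebra.ι ℂ a = 0 :=
        ExteriorAlgebra.ι_sq_zero (R := ℂ) a
      rw [mul_sub, add_mul, mul_add, smul_mul_assoc, mul_add, ← mul_assoc, ← mul_assoc, hsw, hsq,
        zero_mul, add_zero, mul_smul_comm, neg_mul, ← mul_assoc]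
      abel
    exact h1

theorem ctr_eq_zero_of_fixed (g : V →ₗ[ℂ] V) (ξ : Dual ℂ V) (a : V)
    (hg : ∀ v, g v = v + ξ v • a) (hξ : ξ a ≠ 0) {ω : ExteriorAlgebra ℂ V}
    (hω : ExteriorAlgebra.map g ω = ω) : ctr ξ ω = 0 := by
  rw [map_transv g ξ a hg, add_eq_left] at hω
  have := congrArg (ctr ξ) hω
  rw [ctr_ι_mul, ctr_ctr, mul_zero, sub_zero, map_zero, smul_eq_zero] at this
  exact this.resolve_left hξ

/-- The subspace `⋀ Y` of `⋀ V`. -/
noncomputable def extSub (Y : Submodule ℂ V) : Submodule ℂ (ExteriorAlgebra ℂ V) :=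
  LinearMap.range (ExteriorAlgebra.map Y.subtype).toLinearMap

theorem mem_extSub_of_map {p : V →ₗ[ℂ] V} {Y : Submodule ℂ V} (hp : ∀ v, p v ∈ Y)
    {ω : ExteriorAlgebra ℂ V} (hω : ExteriorAlgebra.map p ω = ω) : ω ∈ extSub Y := by
  refine ⟨ExteriorAlgebra.map (p.codRestrict Y hp) ω, ?_⟩
  have h1 : (ExteriorAlgebra.map Y.subtype).comp (ExteriorAlgebra.map (p.codRestrict Y hp)) =
      ExteriorAlgebra.map p := by
    rw [ExteriorAlgebra.map_comp_map]
    congr 1
  have h2 := AlgHom.congr_fun h1 ω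
  rw [hω] at h2
  exact h2

theorem mem_extSub_ker {ξ : Dual ℂ V} {a : V} (hξ : ξ a ≠ 0) {ω : ExteriorAlgebra ℂ V}
    (hω : ctr ξ ω = 0) : ω ∈ extSub (LinearMap.ker ξ) := by
  let p : V →ₗ[ℂ] V := LinearMap.id + (ξ.smulRight (-(ξ a)⁻¹ • a))
  have hpv : ∀ v, p v = v + ξ v • (-(ξ a)⁻¹ • a) := fun v => rfl
  apply mem_extSub_of_map (p := p)
  · intro v
    rw [LinearMap.mem_ker, hpv, map_add, map_smul, map_smul, smul_eq_mul, smul_eq_mul]
    field_simp
    ring
  · rw [map_transv p ξ _ hpv, hω, mul_zero, add_zero]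

theorem extSub_mono {Y Z : Submodule ℂ V} (h : Y ≤ Z) : extSub Y ≤ extSub Z := by
  rintro _ ⟨η, rfl⟩
  refine ⟨ExteriorAlgebra.map (Submodule.inclusion h) η, ?_⟩
  have h1 : (ExteriorAlgebra.map Z.subtype).comp (ExteriorAlgebra.map (Submodule.inclusion h)) =
      ExteriorAlgebra.map Y.subtype := by
    rw [ExteriorAlgebra.map_comp_map]
    congr 1
  exact AlgHom.congr_fun h1 η

theorem mem_extSub_top (ω : ExteriorAlgebra ℂ V) : ω ∈ extSub (⊤ : Submodule ℂ V) := by
  apply mem_extSub_of_map (p := LinearMap.id) (fun _ => Submodule.mem_top)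
  rw [ExteriorAlgebra.map_id]; rfl

theorem extSub_inf (Y Z : Submodule ℂ V) {ω : ExteriorAlgebra ℂ V} (hY : ω ∈ extSub Y)
    (hZ : ω ∈ extSub Z) : ω ∈ extSub (Y ⊓ Z) := by
  obtain ⟨C₁', hC₁'⟩ := Submodule.exists_isCompl (Submodule.comap Z.subtype (Y ⊓ Z))
  let C₁ := C₁'.map Z.subtype
  have hC₁Z : C₁ ≤ Z := by
    rintro _ ⟨z, -, rfl⟩; exact z.2
  have hdis : Disjoint Y C₁ := by
    rw [Submodule.disjoint_def]
    rintro v hv ⟨z, hz, rfl⟩
    have hz' : z ∈ Submodule.comap Z.subtype (Y ⊓ Z) := ⟨hv, z.2⟩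
    have := Submodule.disjoint_def.1 hC₁'.disjoint z hz' hz
    rw [this]; rfl
  obtain ⟨C, hC₁C, hC'⟩ := hdis.symm.exists_isCompl
  have hC : IsCompl Y C := hC'.symm
  let p : V →ₗ[ℂ] V := Y.subtype ∘ₗ Submodule.projectionOnto Y C hC
  have hpY : ∀ v ∈ Y, p v = v := fun v hv => by
    simp only [p, LinearMap.comp_apply, Submodule.subtype_apply]
    have := Submodule.projectionOnto_apply_left hC ⟨v, hv⟩
    rw [show ((⟨v, hv⟩ : Y) : V) = v from rfl] at this
    rw [this]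
  have hpC : ∀ v ∈ C, p v = 0 := fun v hv => by
    simp only [p, LinearMap.comp_apply, Submodule.subtype_apply]
    rw [(Submodule.projectionOnto_apply_eq_zero_iff hC).2 hv]; rfl
  have hpZ : ∀ v ∈ Z, p v ∈ Y ⊓ Z := by
    intro v hv
    obtain ⟨y, hy, c, hc, hyc⟩ := Submodule.mem_sup.1
      (show (⟨v, hv⟩ : Z) ∈ Submodule.comap Z.subtype (Y ⊓ Z) ⊔ C₁' by
        rw [hC₁'.sup_eq_top]; exact Submodule.mem_top)
    have hv' : v = y + c := congrArg Subtype.val hyc.symm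
    have h1 : p v = y := by
      have h2 : p (y : V) = y := hpY _ (hy : (y : V) ∈ Y ⊓ Z).1
      have h3 : p (c : V) = 0 := hpC _ (hC₁C ⟨c, hc, rfl⟩)
      rw [hv', map_add, h2, h3, add_zero]
    rw [h1]; exact hy
  -- `ω` is fixed by `⋀ p`
  have hω : ExteriorAlgebra.map p ω = ω := by
    obtain ⟨η, rfl⟩ := hY
    have h1 : (ExteriorAlgebra.map p).comp (ExteriorAlgebra.map Y.subtype) =
        ExteriorAlgebra.map Y.subtype := by
      rw [ExteriorAlgebra.map_comp_map]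
      congr 1
      ext v
      exact hpY _ v.2
    exact AlgHom.congr_fun h1 η
  obtain ⟨η, rfl⟩ := hZ
  rw [← hω]
  refine ⟨ExteriorAlgebra.map ((p ∘ₗ Z.subtype).codRestrict (Y ⊓ Z) fun z => hpZ _ z.2) η, ?_⟩
  have h1 : (ExteriorAlgebra.map (Y ⊓ Z).subtype).comp
      (ExteriorAlgebra.map ((p ∘ₗ Z.subtype).codRestrict (Y ⊓ Z) fun z => hpZ _ z.2)) =
      (ExteriorAlgebra.map p).comp (ExteriorAlgebra.map Z.subtype) := by
    rw [ExteriorAlgebra.map_comp_map, ExteriorAlgebra.map_comp_map]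
    congr 1
  exact AlgHom.congr_fun h1 η

theorem mem_extSub_finset {ι : Type*} (s : Finset ι) (Y : ι → Submodule ℂ V)
    {ω : ExteriorAlgebra ℂ V} (h : ∀ i ∈ s, ω ∈ extSub (Y i)) : ω ∈ extSub (⨅ i ∈ s, Y i) := by
  classical
  induction s using Finset.induction_on with
  | empty => simpa using mem_extSub_top ω
  | insert i s his ih =>
    rw [Finset.iInf_insert]
    exact extSub_inf _ _ (h i (Finset.mem_insert_self _ _))
      (ih fun j hj => h j (Finset.mem_insert_of_mem hj))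

/-- A finite order map which differs from the identity by a rank one map: its invariants in the
exterior algebra. -/
theorem mem_extSub_of_reflection [FiniteDimensional ℂ V] (g : V ≃ₗ[ℂ] V) (n : ℕ) (hn : n ≠ 0)
    (hgn : g ^ n = 1)
    (hg : finrank ℂ (LinearMap.range ((g : V →ₗ[ℂ] V) - LinearMap.id)) = 1)
    {ω : ExteriorAlgebra ℂ V} (hω : ExteriorAlgebra.map (g : V →ₗ[ℂ] V) ω = ω) :
    ω ∈ extSub (LinearMap.ker ((g : V →ₗ[ℂ] V) - LinearMap.id)) := by
  let N : V →ₗ[ℂ] V := (g : V →ₗ[ℂ] V) - LinearMap.id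
  let e : LinearMap.range N ≃ₗ[ℂ] ℂ := LinearEquiv.ofFinrankEq _ _ (by
    rw [finrank_self]; exact hg)
  let a : V := (e.symm 1 : LinearMap.range N)
  let ξ : Dual ℂ V := e.toLinearMap ∘ₗ N.rangeRestrict
  have hN : ∀ v, N v = ξ v • a := by
    intro v
    have h1 : N.rangeRestrict v = e.symm (ξ v • 1) := by
      rw [smul_eq_mul, mul_one]
      exact (e.symm_apply_apply _).symm
    have h2 := congrArg Subtype.val h1
    rw [map_smul] at h2
    exact h2
  have hgv : ∀ v, (g : V →ₗ[ℂ] V) v = v + ξ v • a := by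
    intro v
    rw [← hN v]
    simp [N]
  have hξa : ξ a ≠ 0 := by
    intro h0
    have hga : g a = a := by
      have := hgv a
      rw [h0, zero_smul, add_zero] at this
      exact this
    have hpow : ∀ (k : ℕ) (v : V), (g ^ k) v = v + (k : ℂ) • (ξ v • a) := by
      intro k
      induction k with
      | zero => intro v; simp
      | succ k ih =>
        intro v
        rw [pow_succ', LinearEquiv.mul_apply, ih, map_add, map_smul, map_smul, hga]
        have h3 : g v = v + ξ v • a := hgv v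
        rw [h3, Nat.cast_succ, add_smul, one_smul]
        abel
    have hξ0 : ∀ v, ξ v • a = 0 := by
      intro v
      have h4 := hpow n v
      rw [hgn] at h4
      have h5 : (n : ℂ) • (ξ v • a) = 0 := by
        have : v + (n : ℂ) • (ξ v • a) = v := h4.symm
        rwa [add_eq_left] at this
      exact (smul_eq_zero.1 h5).resolve_left (by exact_mod_cast hn)
    have hN0 : N = 0 := by
      ext v
      rw [hN, hξ0]; rfl
    have hg' : finrank ℂ (LinearMap.range N) = 1 := hg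
    rw [hN0, LinearMap.range_zero, finrank_bot] at hg'
    exact zero_ne_one hg'
  have h6 := mem_extSub_ker hξa (ctr_eq_zero_of_fixed _ ξ a hgv hξa hω)
  refine extSub_mono ?_ h6
  intro v hv
  rw [LinearMap.mem_ker] at hv ⊢
  show N v = 0
  rw [hN, hv, zero_smul]

end

section Group

variable {W : Type*} [Group W] {V : Type*} [AddCommGroup V] [Module ℂ V]

/-- The invariants in `⋀ V` of a finite group generated by reflections. -/
theorem mem_extSub_of_invariant [Finite W] [FiniteDimensional ℂ V] (τ : W →* (V ≃ₗ[ℂ] V))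
    (P : Subgroup W) (X : Submodule ℂ V) (hX : ∀ v, v ∈ X ↔ ∀ p ∈ P, τ p v = v)
    (S : Set W) (hS : Subgroup.closure S = P)
    (hrefl : ∀ s ∈ S, finrank ℂ (LinearMap.range ((τ s : V →ₗ[ℂ] V) - LinearMap.id)) = 1)
    {ω : ExteriorAlgebra ℂ V}
    (hω : ∀ p ∈ P, ExteriorAlgebra.map (τ p : V →ₗ[ℂ] V) ω = ω) : ω ∈ extSub X := by
  classical
  have := Fintype.ofFinite W
  have h1 : ∀ s ∈ S.toFinset, ω ∈ extSub (LinearMap.ker ((τ s : V →ₗ[ℂ] V) - LinearMap.id)) := by
    intro s hs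
    rw [Set.mem_toFinset] at hs
    refine mem_extSub_of_reflection (τ s) (Nat.card W) Nat.card_pos.ne' ?_ (hrefl s hs)
      (hω s (hS ▸ Subgroup.subset_closure hs))
    rw [← map_pow, pow_card_eq_one', map_one]
  refine extSub_mono ?_ (mem_extSub_finset S.toFinset _ h1)
  intro v hv
  simp only [Submodule.mem_iInf, LinearMap.mem_ker, LinearMap.sub_apply, LinearMap.id_apply,
    Set.mem_toFinset, sub_eq_zero] at hv
  rw [hX]
  intro p hp
  rw [← hS] at hp
  induction hp using Subgroup.closure_induction with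
  | mem s hs => exact hv s hs
  | one => rw [map_one]; rfl
  | mul x y _ _ hx hy => rw [map_mul, LinearEquiv.mul_apply, hy, hx]
  | inv x _ hx =>
    rw [map_inv]
    have : (τ x)⁻¹ v = (τ x)⁻¹ (τ x v) := by rw [hx]
    rw [this]
    exact (τ x).symm_apply_apply v

theorem extSub_invariant (τ : W →* (V ≃ₗ[ℂ] V))
    (P : Subgroup W) (X : Submodule ℂ V) (hX : ∀ v, v ∈ X ↔ ∀ p ∈ P, τ p v = v)
    {ω : ExteriorAlgebra ℂ V} (hω : ω ∈ extSub X) (p : W) (hp : p ∈ P) :
    ExteriorAlgebra.map (τ p : V →ₗ[ℂ] V) ω = ω := by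
  obtain ⟨η, rfl⟩ := hω
  have h1 : (ExteriorAlgebra.map (τ p : V →ₗ[ℂ] V)).comp (ExteriorAlgebra.map X.subtype) =
      ExteriorAlgebra.map X.subtype := by
    rw [ExteriorAlgebra.map_comp_map]
    congr 1
    ext v
    exact (hX _).1 v.2 p hp
  exact AlgHom.congr_fun h1 η

theorem finrank_extSub [FiniteDimensional ℂ V] (X : Submodule ℂ V) :
    finrank ℂ (extSub X) = 2 ^ finrank ℂ X := by
  unfold extSub
  rw [LinearMap.finrank_range_of_inj, finrank_exteriorAlgebra]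
  exact ExteriorAlgebra.map_injective_field (Submodule.ker_subtype X)

end Group

end Pool.Agent.Helper664_Ext
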