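import Pool.Agent.Helper664_Ext.Top
import Pool.Agent.Helper664_Ext.Refl

/-!
# Families of parabolic type

The family `K` over the space `X` of vectors fixed by a parabolic subgroup `P` has rank `[W : P]`.
Then all fibres are exterior.
-/

open Module TensorProduct

namespace Pool.Agent.Helper664_Ext

section Generic

variable {W : Type*} [Group W] {V : Type*} [AddCommGroup V] [Module ℂ V]

theorem exists_generic [Finite W] [FiniteDimensional ℂ V] (τ : W →* (V ≃ₗ[ℂ] V)) (P : Subgroup W)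
    (X : Submodule ℂ V) (hX : ∀ v, v ∈ X ↔ ∀ p ∈ P, τ p v = v)
    (hP : ∀ w, w ∈ P ↔ ∀ v ∈ X, τ w v = v) : ∃ x : X, stab τ (x : V) = P := by
  classical
  have := Fintype.ofFinite W
  have hl : ∀ w : W, ∃ l : Dual ℂ X, (w ∉ P → l ≠ 0) ∧ ∀ v : X, τ w (v : V) = v → l v = 0 := by
    intro w
    by_cases hw : w ∈ P
    · exact ⟨0, fun h => absurd hw h, fun _ _ => rfl⟩
    · have h1 := mt (hP w).2 hw
      push Not at h1
      obtain ⟨v, hv, hne⟩ := h1
      have h3 := mt (Module.forall_dual_apply_eq_zero_iff ℂ (τ w v - v)).1 (sub_ne_zero.2 hne)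
      push Not at h3
      obtain ⟨f, hf⟩ := h3
      refine ⟨f ∘ₗ ((τ w : V →ₗ[ℂ] V) - LinearMap.id) ∘ₗ X.subtype, fun _ h0 => hf ?_, ?_⟩
      · exact LinearMap.congr_fun h0 ⟨v, hv⟩
      · intro u hu
        simp only [LinearMap.comp_apply, LinearMap.sub_apply, Submodule.subtype_apply,
          LinearMap.id_apply, LinearEquiv.coe_coe]
        rw [hu, sub_self, map_zero]
  choose l hl1 hl2 using hl
  have hlin : ∀ w, w ∉ P → lin (l w) ≠ 0 := by
    intro w hw h0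
    apply hl1 w hw
    ext v
    have := congrArg (evalAt v) h0
    rwa [evalAt_lin, map_zero] at this
  have hprod : ∏ w ∈ Finset.univ.filter (fun w : W => w ∉ P), lin (l w) ≠ 0 :=
    Finset.prod_ne_zero_iff.2 fun w hw => hlin w (Finset.mem_filter.1 hw).2
  obtain ⟨x, hx⟩ := exists_eval_ne_zero hprod
  rw [map_prod, Finset.prod_ne_zero_iff] at hx
  refine ⟨x, le_antisymm (fun w hw => ?_) (fun p hp => (hX x).1 x.2 p hp)⟩
  by_contra hwP
  have h4 := hx w (Finset.mem_filter.2 ⟨Finset.mem_univ _, hwP⟩)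
  rw [evalAt_lin] at h4
  exact h4 (hl2 w x hw)

theorem finrank_fixSub_repV (τ : W →* (V ≃ₗ[ℂ] V)) (P : Subgroup W)
    (X : Submodule ℂ V) (hX : ∀ v, v ∈ X ↔ ∀ p ∈ P, τ p v = v) : fixSub (repV τ) P = X := by
  ext v
  rw [hX, mem_fixSub]
  rfl

theorem fixSub_repExt [Finite W] [FiniteDimensional ℂ V] (τ : W →* (V ≃ₗ[ℂ] V)) (P : Subgroup W)
    (X : Submodule ℂ V) (hX : ∀ v, v ∈ X ↔ ∀ p ∈ P, τ p v = v)
    (S : Set W) (hS : Subgroup.closure S = P)
    (hrefl : ∀ s ∈ S, finrank ℂ (LinearMap.range ((τ s : V →ₗ[ℂ] V) - LinearMap.id)) = 1) :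
    fixSub (repExt τ) P = extSub X := by
  ext ω
  rw [mem_fixSub]
  constructor
  · intro h
    exact mem_extSub_of_invariant τ P X hX S hS hrefl h
  · intro h p hp
    exact extSub_invariant τ P X hX h p hp

end Generic

section Fib

variable {W : Type*} [Group W] {V : Type*} [AddCommGroup V] [Module ℂ V]
  {X : Submodule ℂ V} {K : Type*} [CommRing K] [Algebra ℂ K] [Algebra (PolyFun X) K]
  [IsScalarTower ℂ (PolyFun X) K]

theorem exists_localIdem [Fintype W] (τ : W →* (V ≃ₗ[ℂ] V)) (ρ : W →* (K ≃ₐ[PolyFun X] K))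
    (c : PolyFun V →ₐ[ℂ] K) (hc : ∀ w f, ρ w (c f) = c (pull (τ w⁻¹ : V →ₗ[ℂ] V) f))
    (hinv : ∀ f : PolyFun V, (∀ w v, evalAt (τ w v) f = evalAt v f) →
      c f = algebraMap (PolyFun X) K (pull X.subtype f)) (x : X) :
    ∃ (ε : Fib K x) (r : ℂ), IsLocalIdem (fibAct ρ x) τ (x : V) ε r := by
  let c' : PolyFun V →ₐ[ℂ] Fib K x := (Ideal.Quotient.mkₐ ℂ (fibIdeal K x)).comp c
  have hc' : ∀ w f, fibAct ρ x w (c' f) = c' (pull (τ w⁻¹ : V →ₗ[ℂ] V) f) := by
    intro w f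
    show fibAct ρ x w (Ideal.Quotient.mk (fibIdeal K x) (c f)) = _
    rw [fibAct_mk, hc]
    rfl
  have hinv' : ∀ f : PolyFun V, (∀ w v, evalAt (τ w v) f = evalAt v f) →
      c' f = algebraMap ℂ (Fib K x) (evalAt (x : V) f) := by
    intro f hf
    have h1 : c' f = mkC K x (c f) := rfl
    rw [h1, hinv f hf, Algebra.algebraMap_eq_smul_one, mkC_smul, Algebra.algebraMap_eq_smul_one]
    rfl
  obtain ⟨ε, r, h1, h2, h3, h4, h5⟩ := exists_idem τ (fibAct ρ x) c' hc' (x : V)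
    (fun ξ hξ => isNilpotent_of_orbit τ c' (x : V) hinv' ξ hξ)
  exact ⟨ε, r, h1, h2, h3, h4, h5⟩

/-- Dimension of the invariants: the same as for functions on the orbit of a generic point. -/
theorem finrank_invT_of_rank [Finite W] [FiniteDimensional ℂ V] [Module.Free (PolyFun X) K]
    [Module.Finite (PolyFun X) K] (τ : W →* (V ≃ₗ[ℂ] V)) (P : Subgroup W)
    (hX : ∀ v, v ∈ X ↔ ∀ p ∈ P, τ p v = v)
    (hP : ∀ w, w ∈ P ↔ ∀ v ∈ X, τ w v = v)
    (hrank : finrank (PolyFun X) K = P.index) (ρ : W →* (K ≃ₐ[PolyFun X] K))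
    (c : PolyFun V →ₐ[ℂ] K) (hc : ∀ w f, ρ w (c f) = c (pull (τ w⁻¹ : V →ₗ[ℂ] V) f))
    (hinv : ∀ f : PolyFun V, (∀ w v, evalAt (τ w v) f = evalAt v f) →
      c f = algebraMap (PolyFun X) K (pull X.subtype f))
    {F : Type*} [AddCommGroup F] [Module ℂ F] [FiniteDimensional ℂ F]
    (θ : Representation ℂ W F) (x : X) :
    finrank ℂ (invT (fibAct ρ x) θ) = finrank ℂ (fixSub θ P) := by
  classical
  have := Fintype.ofFinite W
  obtain ⟨x₁, hx₁⟩ := exists_generic τ P X hX hP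
  have hfd : FiniteDimensional ℂ (Fib K x₁) := finiteDimensional_fib x₁
  have hfr : finrank ℂ (Fib K x₁) = P.index := by rw [finrank_fib, hrank]
  have hnt : Nontrivial (Fib K x₁) := by
    apply Module.nontrivial_of_finrank_pos (R := ℂ)
    rw [hfr]
    exact Nat.pos_of_ne_zero P.index_ne_zero_of_finite
  obtain ⟨ε, r, hloc⟩ := exists_localIdem τ ρ c hc hinv x₁
  have h1 := hloc.exists_smul hloc.ne_zero (by rw [hfr, hx₁])
  rw [finrank_invT_fib_eq ρ θ x x₁, hloc.finrank_eq θ hloc.ne_zero h1, hx₁]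

theorem isExterior_of_rank [Finite W] [FiniteDimensional ℂ V] [Module.Free (PolyFun X) K]
    [Module.Finite (PolyFun X) K] (τ : W →* (V ≃ₗ[ℂ] V)) (P : Subgroup W)
    (hX : ∀ v, v ∈ X ↔ ∀ p ∈ P, τ p v = v)
    (hP : ∀ w, w ∈ P ↔ ∀ v ∈ X, τ w v = v)
    (S : Set W) (hS : Subgroup.closure S = P)
    (hrefl : ∀ s ∈ S, finrank ℂ (LinearMap.range ((τ s : V →ₗ[ℂ] V) - LinearMap.id)) = 1)
    (hrank : finrank (PolyFun X) K = P.index) (ρ : W →* (K ≃ₐ[PolyFun X] K))
    (c : PolyFun V →ₐ[ℂ] K) (hc : ∀ w f, ρ w (c f) = c (pull (τ w⁻¹ : V →ₗ[ℂ] V) f))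
    (hinv : ∀ f : PolyFun V, (∀ w v, evalAt (τ w v) f = evalAt v f) →
      c f = algebraMap (PolyFun X) K (pull X.subtype f)) (x : X) :
    IsExterior (fibAct ρ x) τ ∧ finrank ℂ (invOne (fibAct ρ x) τ) = finrank ℂ X := by
  classical
  have := Fintype.ofFinite W
  have hfd : ∀ z : X, FiniteDimensional ℂ (Fib K z) := fun z => finiteDimensional_fib z
  have hfr : ∀ z : X, finrank ℂ (Fib K z) = P.index := fun z => by rw [finrank_fib, hrank]
  have hnt : ∀ z : X, Nontrivial (Fib K z) := fun z => by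
    apply Module.nontrivial_of_finrank_pos (R := ℂ)
    rw [hfr]
    exact Nat.pos_of_ne_zero P.index_ne_zero_of_finite
  have hV : ∀ z : X, finrank ℂ (invT (fibAct ρ z) (repV τ)) = finrank ℂ X := fun z => by
    rw [finrank_invT_of_rank τ P hX hP hrank ρ c hc hinv (repV τ) z,
      finrank_fixSub_repV τ P X hX]
  have hE : ∀ z : X, finrank ℂ (invT (fibAct ρ z) (repExt τ)) = 2 ^ finrank ℂ X := fun z => by
    rw [finrank_invT_of_rank τ P hX hP hrank ρ c hc hinv (repExt τ) z,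
      fixSub_repExt τ P X hX S hS hrefl, finrank_extSub]
  refine ⟨?_, by rw [finrank_invOne, hV]⟩
  -- the bad subspaces
  let B : Subgroup W → Submodule ℂ X := fun Q => (fixSub (repV τ) Q).comap X.subtype
  let 𝓑 : Finset (Submodule ℂ X) :=
    (Set.toFinite (Set.range B)).toFinset.filter fun Y => finrank ℂ Y + 2 ≤ finrank ℂ X
  apply isExterior_of_codim_two ρ τ 𝓑 (fun Y hY => (Finset.mem_filter.1 hY).2)
  intro y hy
  obtain ⟨ε, r, hloc⟩ := exists_localIdem τ ρ c hc hinv y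
  -- invariants of the fibre are scalars
  have hinv1 : ∀ a : Fib K y, (∀ w, fibAct ρ y w a = a) → ∃ c : ℂ, a = c • (1 : Fib K y) := by
    intro a ha
    let triv : Representation ℂ W ℂ := 1
    have h1 : finrank ℂ (invT (fibAct ρ y) triv) = 1 := by
      rw [finrank_invT_of_rank τ P hX hP hrank ρ c hc hinv triv y]
      have : fixSub triv P = ⊤ := by
        rw [eq_top_iff]
        intro z _ p _
        rfl
      rw [this, finrank_top, finrank_self]
    have hmem : ∀ b : Fib K y, (∀ w, fibAct ρ y w b = b) →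
        b ⊗ₜ[ℂ] (1 : ℂ) ∈ invT (fibAct ρ y) triv := by
      intro b hb w
      have h2 : TensorProduct.map (fibAct ρ y w).toLinearMap (triv w) (b ⊗ₜ[ℂ] (1 : ℂ)) =
        (fibAct ρ y w b) ⊗ₜ[ℂ] (1 : ℂ) := rfl
      have h3 : ((repOf (fibAct ρ y)).tprod triv) w (b ⊗ₜ[ℂ] (1 : ℂ)) =
        (fibAct ρ y w b) ⊗ₜ[ℂ] (1 : ℂ) := rfl
      rw [h3, hb w]
    obtain ⟨v, hv, hv0, hgen⟩ := exists_gen_of_finrank_one _ _ h1
    obtain ⟨α, hα⟩ := hgen _ (hmem a ha)
    obtain ⟨β, hβ⟩ := hgen _ (hmem 1 fun w => map_one _)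
    have hβ0 : β ≠ 0 := by
      rintro rfl
      rw [zero_smul] at hβ
      have h4 := congrArg (TensorProduct.rid ℂ (Fib K y)) hβ
      rw [map_zero, TensorProduct.rid_tmul, one_smul] at h4
      exact one_ne_zero h4.symm
    refine ⟨α * β⁻¹, ?_⟩
    have h5 : (α * β⁻¹) • ((1 : Fib K y) ⊗ₜ[ℂ] (1 : ℂ)) = a ⊗ₜ[ℂ] (1 : ℂ) := by
      rw [← hβ, smul_smul, mul_assoc, inv_mul_cancel₀ hβ0, mul_one, hα]
    have h6 := congrArg (TensorProduct.rid ℂ (Fib K y)) h5
    rw [map_smul, TensorProduct.rid_tmul, TensorProduct.rid_tmul, one_smul, one_smul] at h6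
    exact h6.symm
  have hdim : finrank ℂ (invT (fibAct ρ y) (repV τ)) ≤
      finrank ℂ (fixSub (repV τ) (stab τ (y : V))) + 1 := by
    rw [hV]
    have hyB : y ∈ B (stab τ (y : V)) := fun p hp => hp
    have h7 : ¬ finrank ℂ (B (stab τ (y : V))) + 2 ≤ finrank ℂ X := by
      intro h8
      exact hy _ (Finset.mem_filter.2 ⟨(Set.Finite.mem_toFinset _).2 ⟨_, rfl⟩, h8⟩) hyB
    have h9 : finrank ℂ (B (stab τ (y : V))) ≤
        finrank ℂ (fixSub (repV τ) (stab τ (y : V))) := by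
      have h10 := Submodule.finrank_map_subtype_eq X (B (stab τ (y : V)))
      rw [← h10]
      apply Submodule.finrank_mono
      rintro _ ⟨z, hz, rfl⟩
      exact hz
    omega
  have hinj := hloc.psi_injective hloc.ne_zero hinv1 hdim
  have hfin : FiniteDimensional ℂ (invOne (fibAct ρ y) τ) := inferInstance
  have hdim' : finrank ℂ (ExteriorAlgebra ℂ (invOne (fibAct ρ y) τ)) =
      finrank ℂ (invAlg (fibAct ρ y) τ) := by
    rw [finrank_exteriorAlgebra, finrank_invOne, finrank_invAlg, hE, hV]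
  exact ⟨hinj, (LinearMap.injective_iff_surjective_of_finrank_eq_finrank
    (f := (psi (fibAct ρ y) τ).toLinearMap) hdim').1 hinj⟩

end Fib

end Pool.Agent.Helper664_Ext
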