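import Pool.Agent.Helper664_Ext.Defs

/-!
# Polynomial functions on a finite-dimensional complex vector space

Unique factorisation, avoidance of subspaces of codimension two by the zero set of a prime, and
a lemma on vectors which are proportional to a primitive vector.
-/

open Module

namespace Pool.Agent.Helper664_Ext

section Poly

variable {E : Type*} [AddCommGroup E] [Module ℂ E]

theorem evalAt_apply (x : E) (f : PolyFun E) : evalAt x f = f.1 x := rfl

theorem polyFun_ext {f g : PolyFun E} (h : ∀ x, evalAt x f = evalAt x g) : f = g :=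
  Subtype.ext (funext h)

theorem polyFun_eq_zero_iff {f : PolyFun E} : f = 0 ↔ ∀ x, evalAt x f = 0 :=
  ⟨fun h x => by rw [h, map_zero], fun h => polyFun_ext fun x => by rw [h x, map_zero]⟩

/-- A linear form, as a polynomial function. -/
def lin (l : Dual ℂ E) : PolyFun E := ⟨(l : E → ℂ), Algebra.subset_adjoin ⟨l, rfl⟩⟩

theorem evalAt_lin (x : E) (l : Dual ℂ E) : evalAt x (lin l) = l x := rfl

variable [FiniteDimensional ℂ E]

variable (E) in
/-- coordinates with respect to the chosen basis -/
noncomputable def coordHom : MvPolynomial (Fin (finrank ℂ E)) ℂ →ₐ[ℂ] (E → ℂ) :=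
  MvPolynomial.aeval fun i x => (finBasis ℂ E).repr x i

theorem coordHom_apply (p : MvPolynomial (Fin (finrank ℂ E)) ℂ) (x : E) :
    coordHom E p x = MvPolynomial.eval ((finBasis ℂ E).repr x) p := by
  induction p using MvPolynomial.induction_on with
  | C a => simp [coordHom]
  | add p q hp hq => simp [hp, hq]
  | mul_X p i hp => rw [map_mul, Pi.mul_apply, hp]; simp [coordHom]

theorem coordHom_injective : Function.Injective (coordHom E) := by
  rw [injective_iff_map_eq_zero]
  intro p hp
  apply MvPolynomial.funext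
  intro y
  obtain ⟨x, hx⟩ := (finBasis ℂ E).equivFun.surjective y
  have := congrFun hp x
  rw [coordHom_apply] at this
  have hy : (⇑((finBasis ℂ E).repr x) : Fin (finrank ℂ E) → ℂ) = y := by
    rw [← hx]; rfl
  rw [hy] at this
  rw [this, map_zero]; rfl

theorem dual_apply_eq_sum (l : Dual ℂ E) (x : E) :
    l x = ∑ i, l (finBasis ℂ E i) * (finBasis ℂ E).repr x i := by
  calc l x = l (∑ i, (finBasis ℂ E).repr x i • finBasis ℂ E i) := by rw [Basis.sum_repr]
    _ = _ := by
      rw [map_sum]
      exact Finset.sum_congr rfl fun i _ => by rw [map_smul, smul_eq_mul, mul_comm]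

theorem coordHom_range : (coordHom E).range = PolyFun E := by
  unfold coordHom
  rw [← Algebra.adjoin_range_eq_range_aeval]
  apply le_antisymm
  · rw [Algebra.adjoin_le_iff]
    rintro _ ⟨i, rfl⟩
    exact Algebra.subset_adjoin ⟨(finBasis ℂ E).coord i, rfl⟩
  · unfold PolyFun
    rw [Algebra.adjoin_le_iff]
    rintro _ ⟨l, rfl⟩
    have : (l : E → ℂ) = ∑ i, l (finBasis ℂ E i) • fun x => (finBasis ℂ E).repr x i := by
      funext x
      rw [dual_apply_eq_sum l x]
      simp
    show (l : E → ℂ) ∈ _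
    rw [this]
    refine sum_mem fun i _ => Subalgebra.smul_mem _ (Algebra.subset_adjoin ?_) _
    exact ⟨i, rfl⟩

variable (E) in
/-- The polynomial functions are a polynomial ring. -/
noncomputable def polyEquiv : MvPolynomial (Fin (finrank ℂ E)) ℂ ≃ₐ[ℂ] PolyFun E :=
  (AlgEquiv.ofInjective (coordHom E) coordHom_injective).trans
    (Subalgebra.equivOfEq _ _ coordHom_range)

theorem evalAt_polyEquiv (p : MvPolynomial (Fin (finrank ℂ E)) ℂ) (x : E) :
    evalAt x (polyEquiv E p) = MvPolynomial.eval ((finBasis ℂ E).repr x) p :=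
  coordHom_apply p x

instance : IsDomain (PolyFun E) := (polyEquiv E).symm.toMulEquiv.isDomain _

instance : UniqueFactorizationMonoid (PolyFun E) :=
  (polyEquiv E).toMulEquiv.uniqueFactorizationMonoid inferInstance

/-- Nullstellensatz for a prime polynomial function. -/
theorem exists_eval_ne {p g : PolyFun E} (hp : Prime p) (h : ¬ p ∣ g) :
    ∃ x, evalAt x p = 0 ∧ evalAt x g ≠ 0 := by
  by_contra hcon
  push Not at hcon
  apply h
  set p' := (polyEquiv E).symm p with hp'
  set g' := (polyEquiv E).symm g with hg'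
  have hprime : Prime p' := (MulEquiv.prime_iff (polyEquiv E).symm.toMulEquiv).2 hp
  have hI : (Ideal.span {p'}).IsPrime :=
    (Ideal.span_singleton_prime hprime.ne_zero).2 hprime
  have hg : g' ∈ MvPolynomial.vanishingIdeal ℂ
      (MvPolynomial.zeroLocus ℂ (Ideal.span {p'})) := by
    rw [MvPolynomial.mem_vanishingIdeal_iff]
    intro y hy
    rw [MvPolynomial.mem_zeroLocus_iff] at hy
    have hy' := hy p' (Ideal.mem_span_singleton_self p')
    obtain ⟨x, hx⟩ := (finBasis ℂ E).equivFun.surjective y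
    have hxy : (⇑((finBasis ℂ E).repr x) : Fin (finrank ℂ E) → ℂ) = y := by
      rw [← hx]; rfl
    have e1 : evalAt x p = 0 := by
      have := evalAt_polyEquiv p' x
      rw [hp', AlgEquiv.apply_symm_apply] at this
      rw [this, hxy, ← hp']
      simpa [MvPolynomial.aeval_def] using hy'
    have e2 := hcon x e1
    have := evalAt_polyEquiv g' x
    rw [hg', AlgEquiv.apply_symm_apply, hxy, ← hg', e2] at this
    rw [MvPolynomial.aeval_def]
    simpa using this.symm
  rw [MvPolynomial.IsPrime.vanishingIdeal_zeroLocus, Ideal.mem_span_singleton] at hg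
  obtain ⟨c, hc⟩ := hg
  refine ⟨polyEquiv E c, ?_⟩
  have := congrArg (polyEquiv E) hc
  rw [map_mul, hp', hg', AlgEquiv.apply_symm_apply, AlgEquiv.apply_symm_apply] at this
  exact this

omit [FiniteDimensional ℂ E] in
theorem exists_eval_ne_zero {g : PolyFun E} (h : g ≠ 0) : ∃ x, evalAt x g ≠ 0 := by
  by_contra hcon
  push Not at hcon
  exact h (polyFun_eq_zero_iff.2 hcon)

/-- A prime which divides a nonzero linear form is a multiple of it. -/
theorem prime_dvd_lin {p : PolyFun E} (hp : Prime p) {l : Dual ℂ E} (hl : l ≠ 0)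
    (h : p ∣ lin l) : ∃ c : ℂ, c ≠ 0 ∧ lin l = c • p := by
  obtain ⟨u, hu⟩ := h
  have hprime : Prime ((polyEquiv E).symm p) :=
    (MulEquiv.prime_iff (polyEquiv E).symm.toMulEquiv).2 hp
  have hlin : (polyEquiv E).symm (lin l) =
      ∑ i, MvPolynomial.C (l (finBasis ℂ E i)) * MvPolynomial.X i := by
    rw [AlgEquiv.symm_apply_eq]
    apply polyFun_ext
    intro x
    rw [evalAt_polyEquiv, evalAt_lin, dual_apply_eq_sum l x]
    simp
  have hlin0 : (polyEquiv E).symm (lin l) ≠ 0 := by
    intro h0
    apply hl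
    have : lin l = 0 := by
      have := congrArg (polyEquiv E) h0
      rwa [AlgEquiv.apply_symm_apply, map_zero] at this
    ext x
    exact polyFun_eq_zero_iff.1 this x
  have hdeg : ((polyEquiv E).symm (lin l)).totalDegree ≤ 1 := by
    rw [hlin]
    apply MvPolynomial.totalDegree_finsetSum_le
    intro i _
    refine (MvPolynomial.totalDegree_mul _ _).trans ?_
    simp
  have hmul : (polyEquiv E).symm (lin l) = (polyEquiv E).symm p * (polyEquiv E).symm u := by
    rw [hu, map_mul]
  have hu0 : (polyEquiv E).symm u ≠ 0 := by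
    intro h0
    rw [h0, mul_zero] at hmul
    exact hlin0 hmul
  have hd := MvPolynomial.totalDegree_mul_of_isDomain hprime.ne_zero hu0
  rw [← hmul] at hd
  have hp1 : ((polyEquiv E).symm p).totalDegree ≠ 0 := by
    intro h0
    rw [MvPolynomial.totalDegree_eq_zero_iff_eq_C] at h0
    apply hprime.not_isUnit
    rw [h0]
    apply IsUnit.map
    rw [isUnit_iff_ne_zero]
    intro h1
    rw [h1, map_zero] at h0
    exact hprime.ne_zero h0
  have hu1 : ((polyEquiv E).symm u).totalDegree = 0 := by omega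
  rw [MvPolynomial.totalDegree_eq_zero_iff_eq_C] at hu1
  set c := MvPolynomial.coeff 0 ((polyEquiv E).symm u) with hc
  refine ⟨c, ?_, ?_⟩
  · intro h0
    rw [h0, map_zero] at hu1
    exact hu0 hu1
  · have : u = algebraMap ℂ (PolyFun E) c := by
      have := congrArg (polyEquiv E) hu1
      rw [AlgEquiv.apply_symm_apply] at this
      rw [this]
      exact (polyEquiv E).commutes c
    rw [hu, this, mul_comm, Algebra.smul_def]

/-- A prime polynomial function does not divide all the linear forms which vanish on a subspace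
of codimension at least two. -/
theorem exists_lin_not_dvd {p : PolyFun E} (hp : Prime p) {B : Submodule ℂ E}
    (hB : finrank ℂ B + 2 ≤ finrank ℂ E) :
    ∃ l : Dual ℂ E, (∀ b ∈ B, l b = 0) ∧ ¬ p ∣ lin l := by
  by_contra hcon
  push Not at hcon
  have hfr : 2 ≤ finrank ℂ B.dualAnnihilator := by
    have := Subspace.finrank_add_finrank_dualAnnihilator_eq B
    omega
  have key : ∀ l l' : B.dualAnnihilator, l ≠ 0 → ∃ c : ℂ, c • l = l' := by
    intro l l' hl
    have hl0 : (l : Dual ℂ E) ≠ 0 := fun h => hl (Subtype.ext h)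
    obtain ⟨c, hc, h1⟩ := prime_dvd_lin hp hl0
      (hcon l fun b hb => (Submodule.mem_dualAnnihilator _).1 l.2 b hb)
    by_cases hl' : (l' : Dual ℂ E) = 0
    · exact ⟨0, by rw [zero_smul]; exact (Subtype.ext hl').symm⟩
    obtain ⟨c', hc', h2⟩ := prime_dvd_lin hp hl'
      (hcon l' fun b hb => (Submodule.mem_dualAnnihilator _).1 l'.2 b hb)
    refine ⟨c' * c⁻¹, ?_⟩
    apply Subtype.ext
    ext x
    have e1 : (l : Dual ℂ E) x = c * evalAt x p := by
      have := congrArg (evalAt x) h1
      rwa [evalAt_lin, map_smul, smul_eq_mul] at this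
    have e2 : (l' : Dual ℂ E) x = c' * evalAt x p := by
      have := congrArg (evalAt x) h2
      rwa [evalAt_lin, map_smul, smul_eq_mul] at this
    simp only [Submodule.coe_smul, LinearMap.smul_apply, smul_eq_mul]
    rw [e1, e2]
    field_simp
  have hnt : Nontrivial B.dualAnnihilator := Module.nontrivial_of_finrank_pos (R := ℂ) (by omega)
  obtain ⟨l, hl⟩ := exists_ne (0 : B.dualAnnihilator)
  have : finrank ℂ B.dualAnnihilator = 1 := (finrank_eq_one_iff_of_nonzero' l hl).2
    fun w => key l w hl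
  omega

/-- If `g` vanishes at a point where `h` does not, then `g` vanishes at some point where `h` does
not, outside finitely many subspaces of codimension at least two. -/
theorem exists_point (g h : PolyFun E) (x₀ : E) (hg : evalAt x₀ g = 0) (hh : evalAt x₀ h ≠ 0)
    (𝓑 : Finset (Submodule ℂ E)) (h𝓑 : ∀ B ∈ 𝓑, finrank ℂ B + 2 ≤ finrank ℂ E) :
    ∃ y, evalAt y g = 0 ∧ evalAt y h ≠ 0 ∧ ∀ B ∈ 𝓑, y ∉ B := by
  classical
  have hh0 : h ≠ 0 := fun h0 => hh (by rw [h0, map_zero])
  by_cases hg0 : g = 0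
  · -- choose a point where no linear form of a chosen family vanishes
    have hl : ∀ B : Submodule ℂ E, ∃ l : Dual ℂ E, B ∈ 𝓑 → (∀ b ∈ B, l b = 0) ∧ l ≠ 0 := by
      intro B
      by_cases hB : B ∈ 𝓑
      · have h2 := h𝓑 B hB
        have : B.dualAnnihilator ≠ ⊥ := by
          intro hbot
          have h3 := Subspace.finrank_add_finrank_dualAnnihilator_eq B
          rw [hbot, finrank_bot] at h3
          omega
        obtain ⟨l, hl, hl0⟩ := Submodule.exists_mem_ne_zero_of_ne_bot this
        exact ⟨l, fun _ => ⟨fun b hb => (Submodule.mem_dualAnnihilator _).1 hl b hb, hl0⟩⟩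
      · exact ⟨0, fun h => absurd h hB⟩
    choose l hl using hl
    have hprod : h * ∏ B ∈ 𝓑, lin (l B) ≠ 0 := by
      apply mul_ne_zero hh0
      rw [Finset.prod_ne_zero_iff]
      intro B hB h0
      apply (hl B hB).2
      ext x
      exact polyFun_eq_zero_iff.1 h0 x
    obtain ⟨y, hy⟩ := exists_eval_ne_zero hprod
    rw [map_mul, map_prod] at hy
    refine ⟨y, by rw [hg0, map_zero], left_ne_zero_of_mul hy, fun B hB hyB => ?_⟩
    have := Finset.prod_ne_zero_iff.1 (right_ne_zero_of_mul hy) B hB
    exact this ((hl B hB).1 y hyB)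
  · have hpr : ∃ p : PolyFun E, Prime p ∧ p ∣ g ∧ evalAt x₀ p = 0 := by
      have : ∀ a : PolyFun E, a ≠ 0 → evalAt x₀ a = 0 →
          ∃ p : PolyFun E, Prime p ∧ p ∣ a ∧ evalAt x₀ p = 0 := by
        intro a
        induction a using UniqueFactorizationMonoid.induction_on_prime with
        | h₁ => intro h; exact absurd rfl h
        | h₂ u hu =>
          intro _ h
          exact absurd h (hu.map (evalAt x₀)).ne_zero
        | h₃ a p ha hp ih =>
          intro _ h
          rw [map_mul, mul_eq_zero] at h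
          rcases h with h | h
          · exact ⟨p, hp, dvd_mul_right _ _, h⟩
          · obtain ⟨q, hq, hqa, hq0⟩ := ih ha h
            exact ⟨q, hq, hqa.mul_left _, hq0⟩
      exact this g hg0 hg
    obtain ⟨p, hp, hpg, hp0⟩ := hpr
    have hph : ¬ p ∣ h := by
      rintro ⟨u, hu⟩
      apply hh
      rw [hu, map_mul, hp0, zero_mul]
    have hl : ∀ B : Submodule ℂ E, ∃ l : Dual ℂ E, B ∈ 𝓑 → (∀ b ∈ B, l b = 0) ∧ ¬ p ∣ lin l := by
      intro B
      by_cases hB : B ∈ 𝓑
      · obtain ⟨l, hl⟩ := exists_lin_not_dvd hp (h𝓑 B hB)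
        exact ⟨l, fun _ => hl⟩
      · exact ⟨0, fun h => absurd h hB⟩
    choose l hl using hl
    have hprod : ¬ p ∣ h * ∏ B ∈ 𝓑, lin (l B) := by
      rw [hp.dvd_mul, hp.dvd_finsetProd_iff]
      rintro (h1 | ⟨B, hB, h1⟩)
      · exact hph h1
      · exact (hl B hB).2 h1
    obtain ⟨y, hy1, hy2⟩ := exists_eval_ne hp hprod
    rw [map_mul, map_prod] at hy2
    refine ⟨y, ?_, left_ne_zero_of_mul hy2, fun B hB hyB => ?_⟩
    · obtain ⟨u, hu⟩ := hpg
      rw [hu, map_mul, hy1, zero_mul]
    · have := Finset.prod_ne_zero_iff.1 (right_ne_zero_of_mul hy2) B hB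
      exact this ((hl B hB).1 y hyB)

/-- A polynomial function which takes only natural numbers below a bound as values is constant. -/
theorem eval_eq_of_nat (f : PolyFun E) (N : ℕ) (d : E → ℕ) (hd : ∀ x, d x ≤ N)
    (hf : ∀ x, evalAt x f = d x) (x y : E) : d x = d y := by
  have hprod : ∏ j ∈ Finset.range (N + 1), (f - algebraMap ℂ (PolyFun E) (j : ℂ)) = 0 := by
    rw [polyFun_eq_zero_iff]
    intro z
    rw [map_prod, Finset.prod_eq_zero (i := d z)]
    · exact Finset.mem_range.2 (Nat.lt_succ_of_le (hd z))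
    · rw [map_sub, hf, AlgHom.commutes]; simp
  rw [Finset.prod_eq_zero_iff] at hprod
  obtain ⟨j, _, hj⟩ := hprod
  have hz : ∀ z, (d z : ℂ) = j := by
    intro z
    have := congrArg (evalAt z) hj
    rw [map_sub, hf, AlgHom.commutes, map_zero, sub_eq_zero] at this
    simpa using this
  have := (hz x).trans (hz y).symm
  exact_mod_cast this

end Poly

section Primitive

variable {R : Type*} [CommRing R] [IsDomain R] [UniqueFactorizationMonoid R]
  {ι : Type*} [Fintype ι]

theorem exists_primitive (D : ι → R) (hD : ∃ i, D i ≠ 0) :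
    ∃ (g : R) (D' : ι → R), (∀ i, D i = g * D' i) ∧ (∃ i, D' i ≠ 0) ∧
      ∀ m : ι → R, (∀ i l, m i * D' l = m l * D' i) → ∃ c, ∀ i, m i = c * D' i := by
  classical
  let _ : StrongNormalizationMonoid R := UniqueFactorizationMonoid.strongNormalizationMonoid
  let _ := UniqueFactorizationMonoid.toStrongNormalizedGCDMonoid R
  obtain ⟨i₀, hi₀⟩ := hD
  obtain ⟨D', h1, h2⟩ := Finset.extract_gcd (s := Finset.univ) D ⟨i₀, Finset.mem_univ _⟩
  have hi₁ : D' i₀ ≠ 0 := by
    intro h0
    apply hi₀
    rw [h1 i₀ (Finset.mem_univ _), h0, mul_zero]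
  refine ⟨Finset.univ.gcd D, D', fun i => h1 i (Finset.mem_univ _), ⟨i₀, hi₁⟩, ?_⟩
  intro m hm
  have hdvd : D' i₀ ∣ Finset.univ.gcd fun l => m i₀ * D' l := by
    apply Finset.dvd_gcd
    intro l _
    rw [hm i₀ l]
    exact dvd_mul_left _ _
  have hass := Finset.gcd_mul_left' (s := Finset.univ) (f := D') (m i₀)
  rw [h2, mul_one] at hass
  obtain ⟨c, hc⟩ := hass.dvd_iff_dvd_right.1 hdvd
  refine ⟨c, fun i => ?_⟩
  have := hm i i₀
  rw [hc] at this
  apply mul_right_cancel₀ hi₁
  rw [this]; ring

end Primitive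

end Pool.Agent.Helper664_Ext
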