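import Pool.Agent.Helper664_Ext.Parabolic
import Pool.Agent.Helper664_Ext.Bridge

/-!
# The symmetric algebra of the dual space and the algebra of polynomial functions
-/

open Module TensorProduct

namespace Pool.Agent.Helper664_Ext

section Sym

variable {E : Type*} [AddCommGroup E] [Module ℂ E] [FiniteDimensional ℂ E]

variable (E) in
/-- linear forms as polynomial functions, as a linear map -/
def linMap : Dual ℂ E →ₗ[ℂ] PolyFun E where
  toFun := lin
  map_add' _ _ := rfl
  map_smul' _ _ := rfl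

variable (E) in
/-- the isomorphism of the symmetric algebra of the dual space with the algebra of polynomial
functions -/
noncomputable def symEquiv : SymmetricAlgebra ℂ (Dual ℂ E) ≃ₐ[ℂ] PolyFun E :=
  (SymmetricAlgebra.equivMvPolynomial (finBasis ℂ E).dualBasis).trans (polyEquiv E)

theorem symEquiv_ι (l : Dual ℂ E) :
    symEquiv E (SymmetricAlgebra.ι ℂ (Dual ℂ E) l) = lin l := by
  have h : (symEquiv E).toLinearMap ∘ₗ SymmetricAlgebra.ι ℂ (Dual ℂ E) = linMap E := by
    apply (finBasis ℂ E).dualBasis.ext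
    intro i
    simp only [LinearMap.comp_apply, symEquiv]
    show polyEquiv E (SymmetricAlgebra.equivMvPolynomial _ _) = _
    rw [SymmetricAlgebra.equivMvPolynomial_ι_apply]
    apply polyFun_ext
    intro x
    rw [evalAt_polyEquiv, MvPolynomial.eval_X]
    show _ = (finBasis ℂ E).dualBasis i x
    rw [Basis.dualBasis_apply]
  exact LinearMap.congr_fun h l

theorem evalAt_symEquiv (x : E) (f : SymmetricAlgebra ℂ (Dual ℂ E)) :
    evalAt x (symEquiv E f) = SymmetricAlgebra.lift (Dual.eval ℂ E x) f := by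
  have h : (evalAt x).comp (symEquiv E : SymmetricAlgebra ℂ (Dual ℂ E) →ₐ[ℂ] PolyFun E) =
      SymmetricAlgebra.lift (Dual.eval ℂ E x) := by
    apply SymmetricAlgebra.algHom_ext
    refine LinearMap.ext fun l => ?_
    show evalAt x (symEquiv E (SymmetricAlgebra.ι ℂ (Dual ℂ E) l)) =
      SymmetricAlgebra.lift (Dual.eval ℂ E x) (SymmetricAlgebra.ι ℂ (Dual ℂ E) l)
    rw [symEquiv_ι, evalAt_lin, SymmetricAlgebra.lift_ι_apply]
    rfl
  exact AlgHom.congr_fun h f

theorem pull_symEquiv {V : Type*} [AddCommGroup V] [Module ℂ V] [FiniteDimensional ℂ V]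
    (g : E →ₗ[ℂ] V) (f : SymmetricAlgebra ℂ (Dual ℂ V)) :
    pull g (symEquiv V f) =
      symEquiv E (SymmetricAlgebra.lift (SymmetricAlgebra.ι ℂ (Dual ℂ E) ∘ₗ g.dualMap) f) := by
  have h : (pull g).comp (symEquiv V : SymmetricAlgebra ℂ (Dual ℂ V) →ₐ[ℂ] PolyFun V) =
      (symEquiv E : SymmetricAlgebra ℂ (Dual ℂ E) →ₐ[ℂ] PolyFun E).comp
        (SymmetricAlgebra.lift (SymmetricAlgebra.ι ℂ (Dual ℂ E) ∘ₗ g.dualMap)) := by
    apply SymmetricAlgebra.algHom_ext
    refine LinearMap.ext fun l => ?_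
    show pull g (symEquiv V (SymmetricAlgebra.ι ℂ (Dual ℂ V) l)) =
      symEquiv E (SymmetricAlgebra.lift (SymmetricAlgebra.ι ℂ (Dual ℂ E) ∘ₗ g.dualMap)
        (SymmetricAlgebra.ι ℂ (Dual ℂ V) l))
    rw [symEquiv_ι, SymmetricAlgebra.lift_ι_apply]
    show _ = symEquiv E (SymmetricAlgebra.ι ℂ (Dual ℂ E) (g.dualMap l))
    rw [symEquiv_ι]
    rfl
  exact AlgHom.congr_fun h f

end Sym

section Base

variable {E : Type*} [AddCommGroup E] [Module ℂ E] [FiniteDimensional ℂ E]
  {K : Type*} [CommRing K] [Algebra ℂ K] [Algebra (SymmetricAlgebra ℂ (Dual ℂ E)) K]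
  [IsScalarTower ℂ (SymmetricAlgebra ℂ (Dual ℂ E)) K]

variable (E K) in
/-- the structure of algebra over the polynomial functions -/
noncomputable abbrev algPF : Algebra (PolyFun E) K :=
  ((algebraMap (SymmetricAlgebra ℂ (Dual ℂ E)) K).comp
    ((symEquiv E).symm : PolyFun E →+* SymmetricAlgebra ℂ (Dual ℂ E))).toAlgebra

omit [Algebra ℂ K] [IsScalarTower ℂ (SymmetricAlgebra ℂ (Dual ℂ E)) K] in
theorem algPF_algebraMap (f : PolyFun E) :
    letI := algPF E K
    algebraMap (PolyFun E) K f =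
      algebraMap (SymmetricAlgebra ℂ (Dual ℂ E)) K ((symEquiv E).symm f) := rfl

omit [Algebra ℂ K] [IsScalarTower ℂ (SymmetricAlgebra ℂ (Dual ℂ E)) K] in
theorem algPF_smul (f : SymmetricAlgebra ℂ (Dual ℂ E)) (k : K) :
    letI := algPF E K
    symEquiv E f • k = f • k := by
  let _ := algPF E K
  rw [Algebra.smul_def, algPF_algebraMap, AlgEquiv.symm_apply_apply, Algebra.smul_def]

theorem isScalarTower_algPF :
    letI := algPF E K
    IsScalarTower ℂ (PolyFun E) K := by
  let _ := algPF E K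
  apply IsScalarTower.of_algebraMap_eq
  intro r
  rw [algPF_algebraMap, AlgEquiv.commutes, ← IsScalarTower.algebraMap_apply]

/-- the induced basis -/
noncomputable def basisPF {ι : Type*} (b : Basis ι (SymmetricAlgebra ℂ (Dual ℂ E)) K) :
    letI := algPF E K
    Basis ι (PolyFun E) K :=
  letI := algPF E K
  b.mapCoeffs (symEquiv E).toRingEquiv fun f k => algPF_smul f k

/-- the induced action -/
noncomputable def actPF {W : Type*} [Group W]
    (ρ : W →* (K ≃ₐ[SymmetricAlgebra ℂ (Dual ℂ E)] K)) :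
    letI := algPF E K
    W →* (K ≃ₐ[PolyFun E] K) :=
  letI := algPF E K
  { toFun := fun w => AlgEquiv.ofRingEquiv (f := (ρ w).toRingEquiv) fun f => (ρ w).commutes _
    map_one' := by
      ext k
      show ρ 1 k = k
      rw [map_one]; rfl
    map_mul' := by
      intro w w'
      ext k
      show ρ (w * w') k = ρ w (ρ w' k)
      rw [map_mul]; rfl }

omit [Algebra ℂ K] [IsScalarTower ℂ (SymmetricAlgebra ℂ (Dual ℂ E)) K] in
theorem fibIdeal_algPF (x : E) :
    letI := algPF E K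
    fibIdeal K x = Ideal.map (algebraMap (SymmetricAlgebra ℂ (Dual ℂ E)) K)
      (RingHom.ker (SymmetricAlgebra.lift (Dual.eval ℂ E x) :
        SymmetricAlgebra ℂ (Dual ℂ E) →+* ℂ)) := by
  let _ := algPF E K
  unfold fibIdeal
  apply le_antisymm
  · rw [Ideal.map_le_iff_le_comap]
    intro f hf
    rw [Ideal.mem_comap, algPF_algebraMap]
    apply Ideal.mem_map_of_mem
    rw [RingHom.mem_ker] at hf ⊢
    have := evalAt_symEquiv x ((symEquiv E).symm f)
    rw [AlgEquiv.apply_symm_apply] at this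
    rw [this] at hf
    exact hf
  · rw [Ideal.map_le_iff_le_comap]
    intro f hf
    rw [Ideal.mem_comap]
    have h1 : algebraMap (SymmetricAlgebra ℂ (Dual ℂ E)) K f =
        algebraMap (PolyFun E) K (symEquiv E f) := by
      rw [algPF_algebraMap, AlgEquiv.symm_apply_apply]
    rw [h1]
    apply Ideal.mem_map_of_mem
    rw [RingHom.mem_ker] at hf ⊢
    rw [evalAt_symEquiv]
    exact hf

/-- the fibre -/
noncomputable def fibEquiv {H : Type*} [CommRing H] [Algebra ℂ H] (π : K →ₐ[ℂ] H) (x : E)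
    (hπ : IsFibre (SymmetricAlgebra.lift (Dual.eval ℂ E x) :
      SymmetricAlgebra ℂ (Dual ℂ E) →+* ℂ) (π : K →+* H)) :
    letI := algPF E K
    Fib K x ≃ₐ[ℂ] H :=
  letI := algPF E K
  (Ideal.quotientEquivAlgOfEq ℂ (by
    rw [fibIdeal_algPF]
    exact hπ.2.symm)).trans (Ideal.quotientKerAlgEquivOfSurjective (f := π) hπ.1)

omit [IsScalarTower ℂ (SymmetricAlgebra ℂ (Dual ℂ E)) K] in
theorem fibEquiv_mk {H : Type*} [CommRing H] [Algebra ℂ H] (π : K →ₐ[ℂ] H) (x : E)
    (hπ : IsFibre (SymmetricAlgebra.lift (Dual.eval ℂ E x) :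
      SymmetricAlgebra ℂ (Dual ℂ E) →+* ℂ) (π : K →+* H)) (k : K) :
    letI := algPF E K
    fibEquiv π x hπ (Ideal.Quotient.mk (fibIdeal K x) k) = π k := rfl

/-- Exteriority of the fibre, in terms of the family over the polynomial functions. -/
theorem isExteriorOn_fib_iff {W : Type*} [Group W] {V : Type*} [AddCommGroup V] [Module ℂ V]
    (ρ : W →* (K ≃ₐ[SymmetricAlgebra ℂ (Dual ℂ E)] K)) (τ : W →* (V ≃ₗ[ℂ] V))
    {H : Type*} [CommRing H] [Algebra ℂ H] (π : K →ₐ[ℂ] H) (x : E)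
    (hπ : IsFibre (SymmetricAlgebra.lift (Dual.eval ℂ E x) :
      SymmetricAlgebra ℂ (Dual ℂ E) →+* ℂ) (π : K →+* H))
    (σ : W →* (H ≃ₐ[ℂ] H)) (hσ : ∀ w k, σ w (π k) = π (ρ w k)) :
    letI := algPF E K
    haveI : IsScalarTower ℂ (PolyFun E) K := isScalarTower_algPF
    (IsExteriorOn (UInv σ τ) (AInv σ τ) ↔ IsExterior (fibAct (actPF ρ) x) τ) ∧
      finrank ℂ (UInv σ τ) = finrank ℂ (invOne (fibAct (actPF ρ) x) τ) := by
  letI := algPF E K
  haveI : IsScalarTower ℂ (PolyFun E) K := isScalarTower_algPF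
  have he : ∀ w h, fibEquiv π x hπ (fibAct (actPF ρ) x w h) = σ w (fibEquiv π x hπ h) := by
    intro w h
    obtain ⟨k, rfl⟩ := Ideal.Quotient.mk_surjective h
    rw [fibEquiv_mk π x hπ, hσ]
    rfl
  have he' : ∀ w h, (fibEquiv π x hπ).symm (σ w h) =
      fibAct (actPF ρ) x w ((fibEquiv π x hπ).symm h) := by
    intro w h
    apply (fibEquiv π x hπ).injective
    rw [he, AlgEquiv.apply_symm_apply, AlgEquiv.apply_symm_apply]
  rw [← isExteriorOn_iff, ← finrank_uInv]
  refine ⟨⟨fun h => ?_, fun h => ?_⟩, ?_⟩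
  · exact isExteriorOn_congr σ (fibAct (actPF ρ) x) τ (fibEquiv π x hπ).symm he' h
  · exact isExteriorOn_congr (fibAct (actPF ρ) x) σ τ (fibEquiv π x hπ) he h
  · exact finrank_uInv_congr σ (fibAct (actPF ρ) x) τ (fibEquiv π x hπ).symm he'

end Base

end Pool.Agent.Helper664_Ext
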