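import Pool.Agent.Helper664_Ext.Local

/-!
# The top product at a point whose stabiliser fixes a hyperplane or everything
-/

open Module TensorProduct

namespace Pool.Agent.Helper664_Ext

section LinAlg

theorem exists_comp_of_ker_le {A B C : Type*} [AddCommGroup A] [Module ℂ A] [AddCommGroup B]
    [Module ℂ B] [AddCommGroup C] [Module ℂ C] (L : A →ₗ[ℂ] B) (p : A →ₗ[ℂ] C)
    (h : LinearMap.ker L ≤ LinearMap.ker p) : ∃ G : B →ₗ[ℂ] C, p = G ∘ₗ L := by
  obtain ⟨g, hg⟩ := LinearMap.exists_leftInverse_of_injective ((LinearMap.ker L).liftQ L le_rfl)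
    (by rw [Submodule.ker_liftQ_eq_bot _ _ _ le_rfl])
  refine ⟨((LinearMap.ker L).liftQ p h) ∘ₗ g, ?_⟩
  ext a
  have h1 := LinearMap.congr_fun hg ((LinearMap.ker L).mkQ a)
  simp only [LinearMap.comp_apply, Submodule.mkQ_apply, Submodule.liftQ_apply,
    LinearMap.id_apply] at h1
  simp only [LinearMap.comp_apply]
  rw [h1, Submodule.liftQ_apply]

theorem ιMulti_ne_zero_of_linearIndependent {V : Type*} [AddCommGroup V] [Module ℂ V] {n : ℕ}
    (v : Fin n → V) (hv : LinearIndependent ℂ v) : ExteriorAlgebra.ιMulti ℂ n v ≠ 0 := by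
  let b := Basis.span hv
  have h1 : ExteriorAlgebra.ιMulti ℂ n b ≠ 0 := ιMulti_basis_ne_zero b
  have h2 : ExteriorAlgebra.map (Submodule.span ℂ (Set.range v)).subtype
      (ExteriorAlgebra.ιMulti ℂ n b) = ExteriorAlgebra.ιMulti ℂ n v := by
    rw [ExteriorAlgebra.map_apply_ιMulti]
    congr 1
    ext i
    exact congrArg Subtype.val (Basis.span_apply hv i)
  intro h0
  rw [← h2, ← map_zero (ExteriorAlgebra.map (Submodule.span ℂ (Set.range v)).subtype)] at h0
  exact h1 (ExteriorAlgebra.map_injective_field (Submodule.ker_subtype _) h0)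

end LinAlg

section ExtMul

variable {H : Type*} [CommRing H] [Algebra ℂ H] {V : Type*} [AddCommGroup V] [Module ℂ V]

theorem mulT_zero' (h : H) : mulT h (0 : H ⊗[ℂ] ExteriorAlgebra ℂ V) = 0 := map_zero _

theorem mulT_mul (h : H) (a b : H ⊗[ℂ] ExteriorAlgebra ℂ V) : mulT h (a * b) = mulT h a * b := by
  have : ∀ z : H ⊗[ℂ] ExteriorAlgebra ℂ V, mulT h z = (h ⊗ₜ 1) * z := by
    intro z
    induction z using TensorProduct.induction_on with
    | zero => simp
    | add s t hs ht => rw [map_add, mul_add, hs, ht]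
    | tmul a f => rw [mulT_tmul, Algebra.TensorProduct.tmul_mul_tmul, one_mul]
  rw [this, this, mul_assoc]

theorem mul_mulT (h : H) (a b : H ⊗[ℂ] ExteriorAlgebra ℂ V) : mulT h (a * b) = a * mulT h b := by
  induction a using TensorProduct.induction_on with
  | zero => simp
  | add s t hs ht => rw [add_mul, add_mul, map_add, hs, ht]
  | tmul a f =>
    induction b using TensorProduct.induction_on with
    | zero => simp
    | add s t hs ht => rw [map_add, mul_add, mul_add, map_add, hs, ht]
    | tmul a' f' =>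
      rw [mulT_tmul, Algebra.TensorProduct.tmul_mul_tmul, Algebra.TensorProduct.tmul_mul_tmul,
        mulT_tmul, mul_left_comm]

theorem mulT_mul_of_idem {ε : H} (hε : ε * ε = ε) (a b : H ⊗[ℂ] ExteriorAlgebra ℂ V) :
    mulT ε (a * b) = mulT ε a * mulT ε b := by
  rw [← mul_mulT, ← mulT_mul, mulT_mulT, hε]

theorem mulT_jV (h : H) (t : H ⊗[ℂ] V) : mulT h (jV H V t) = jV H V (mulT h t) := by
  unfold jV
  rw [lTensor_mulT]

/-- `w ↦ w ∧ ω` -/
noncomputable def wedgeR (ω : ExteriorAlgebra ℂ V) : V →ₗ[ℂ] ExteriorAlgebra ℂ V :=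
  LinearMap.mulRight ℂ ω ∘ₗ ExteriorAlgebra.ι ℂ

theorem wedgeR_apply (ω : ExteriorAlgebra ℂ V) (w : V) :
    wedgeR ω w = ExteriorAlgebra.ι ℂ w * ω := rfl

theorem jV_mul_tmul (t : H ⊗[ℂ] V) (h : H) (ω : ExteriorAlgebra ℂ V) :
    jV H V t * (h ⊗ₜ ω) = mulT h (LinearMap.lTensor H (wedgeR ω) t) := by
  induction t using TensorProduct.induction_on with
  | zero => simp
  | add s t hs ht => rw [map_add, add_mul, map_add, map_add, hs, ht]
  | tmul a f =>
    simp only [jV, LinearMap.lTensor_tmul, Algebra.TensorProduct.tmul_mul_tmul, mulT_tmul,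
      wedgeR_apply]
    rw [mul_comm]

theorem mulT_prod {ε : H} (hε : ε * ε = ε) {n : ℕ} (a : Fin n → H ⊗[ℂ] V) (v : Fin n → V) (c : ℂ)
    (ha : ∀ i, mulT ε (a i) = c • (ε ⊗ₜ[ℂ] v i)) :
    mulT ε (List.ofFn fun i => jV H V (a i)).prod =
      c ^ n • (ε ⊗ₜ[ℂ] ExteriorAlgebra.ιMulti ℂ n v) := by
  induction n with
  | zero =>
    simp only [List.ofFn_zero, List.prod_nil, pow_zero, one_smul, ExteriorAlgebra.ιMulti_zero_apply]
    rw [Algebra.TensorProduct.one_def, mulT_tmul, mul_one]
  | succ n ih =>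
    rw [List.ofFn_succ, List.prod_cons, mulT_mul_of_idem hε, mulT_jV, ha 0,
      ih (fun i => a i.succ) (fun i => v i.succ) (fun i => ha i.succ), map_smul]
    simp only [jV, LinearMap.lTensor_tmul]
    rw [smul_mul_smul_comm, Algebra.TensorProduct.tmul_mul_tmul, hε, ← pow_succ',
      ExteriorAlgebra.ιMulti_succ_apply]
    rfl

end ExtMul

section Point

variable {W : Type*} [Group W] {H : Type*} [CommRing H] [Algebra ℂ H]
  {V : Type*} [AddCommGroup V] [Module ℂ V]
  [Fintype W] {σ : W →* (H ≃ₐ[ℂ] H)} {τ : W →* (V ≃ₗ[ℂ] V)} {x : V} {ε : H} {r : ℂ}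

/-- A vector `u` of `(H ⊗ V)^W` whose `ε` part has no component outside the fixed space comes from
the fixed space. -/
theorem IsLocalIdem.mem_range (h : IsLocalIdem σ τ x ε r) (hε0 : ε ≠ 0)
    (hinv1 : ∀ a : H, (∀ w, σ w a = a) → ∃ c : ℂ, a = c • (1 : H))
    {u : H ⊗[ℂ] V} (hu : u ∈ invT σ (repV τ))
    (hfix : ∀ q, τ q x = x → LinearMap.lTensor H (τ q : V →ₗ[ℂ] V) (mulT ε u) = mulT ε u) :
    ∃ v ∈ fixSub (repV τ) (stab τ x), u = sumT σ (repV τ) ε v := by
  classical
  have hn := card_stab_ne_zero τ x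
  set y := mulT ε u with hy
  have hεy : mulT ε y = y := by rw [hy, mulT_mulT, h.idem]
  -- `y` is invariant under the diagonal action of the stabiliser
  have hdiag : ∀ q, τ q x = x → TensorProduct.map (σ q).toLinearMap (τ q : V →ₗ[ℂ] V) y = y := by
    intro q hq
    have h3 := map_mulT (σ q : H →ₐ[ℂ] H) (repV τ q) ε u
    have h4 : TensorProduct.map (σ q : H →ₐ[ℂ] H).toLinearMap (repV τ q) u = u :=
      (mem_invT σ (repV τ) u).1 hu q
    have h5 : (σ q : H →ₐ[ℂ] H) ε = ε := h.fix q hq
    rw [h4, h5] at h3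
    exact h3
  have hσ : ∀ q, τ q x = x → LinearMap.rTensor V (σ q).toLinearMap y = y := by
    intro q hq
    conv_lhs => rw [← hfix q hq]
    have h6 : LinearMap.rTensor V (σ q).toLinearMap (LinearMap.lTensor H (τ q : V →ₗ[ℂ] V) y) =
        TensorProduct.map (σ q).toLinearMap (τ q : V →ₗ[ℂ] V) y := by
      rw [← LinearMap.comp_apply, LinearMap.rTensor_comp_lTensor]
    rw [h6, hdiag q hq]
  -- the sum over the group of the action on the first factor
  have hS : ∀ t : H ⊗[ℂ] V, ∃ v : V,
      ∑ w : W, LinearMap.rTensor V (σ w).toLinearMap t = (1 : H) ⊗ₜ[ℂ] v := by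
    intro t
    induction t using TensorProduct.induction_on with
    | zero => exact ⟨0, by simp⟩
    | add s t hs ht =>
      obtain ⟨v, hv⟩ := hs
      obtain ⟨v', hv'⟩ := ht
      refine ⟨v + v', ?_⟩
      simp only [map_add, Finset.sum_add_distrib, hv, hv', TensorProduct.tmul_add]
    | tmul a f =>
      obtain ⟨c, hc⟩ := hinv1 (∑ w : W, σ w a) (by
        intro g
        rw [map_sum]
        exact Fintype.sum_equiv (Equiv.mulLeft g) _ _ fun w => by
          rw [← AlgEquiv.mul_apply, ← map_mul]; rfl)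
      refine ⟨c • f, ?_⟩
      simp only [LinearMap.rTensor_tmul]
      rw [← TensorProduct.sum_tmul]
      have : ∑ w : W, (σ w).toLinearMap a = c • (1 : H) := hc
      rw [this, TensorProduct.smul_tmul]
  obtain ⟨v', hv'⟩ := hS y
  have hkey : mulT ε (∑ w : W, LinearMap.rTensor V (σ w).toLinearMap y) =
      ((Finset.univ.filter fun w : W => τ w x = x).card : ℂ) • y := by
    rw [map_sum]
    have h7 : ∀ w : W, mulT ε (LinearMap.rTensor V (σ w).toLinearMap y) =
        if τ w x = x then y else 0 := by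
      intro w
      split_ifs with hw
      · rw [hσ w hw, hεy]
      · have h8 := map_mulT (σ w : H →ₐ[ℂ] H) (LinearMap.id : V →ₗ[ℂ] V) ε y
        rw [hεy] at h8
        have h9 : LinearMap.rTensor V (σ w).toLinearMap y =
            mulT (σ w ε) (LinearMap.rTensor V (σ w).toLinearMap y) := h8
        rw [h9, mulT_mulT, h.orth w hw, mulT_zero]
    rw [Finset.sum_congr rfl fun w _ => h7 w, ← Finset.sum_filter, Finset.sum_const,
      ← Nat.cast_smul_eq_nsmul ℂ]
  rw [hv', mulT_tmul, mul_one] at hkey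
  set n : ℂ := ((Finset.univ.filter fun w : W => τ w x = x).card : ℂ) with hndef
  have hyv : y = ε ⊗ₜ[ℂ] (n⁻¹ • v') := by
    rw [TensorProduct.tmul_smul, hkey, smul_smul, inv_mul_cancel₀ hn, one_smul]
  have hvfix : n⁻¹ • v' ∈ fixSub (repV τ) (stab τ x) := by
    intro q hq
    have h10 := hfix q hq
    rw [hyv, LinearMap.lTensor_tmul] at h10
    exact tmul_injective hε0 h10
  refine ⟨n⁻¹ • (n⁻¹ • v'), Submodule.smul_mem _ _ hvfix, ?_⟩
  rw [← sub_eq_zero]
  apply h.eq_zero (repV τ) (Submodule.sub_mem _ hu (sumT_mem (repV τ) _))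
  rw [map_sub, map_smul, map_smul, h.mulT_sumT (repV τ) hvfix, smul_smul, inv_mul_cancel₀ hn,
    one_smul, ← hyv, sub_self]

/-- The top product does not vanish if the stabiliser of `x` fixes a space of dimension at least
`dim U - 1`. -/
theorem IsLocalIdem.psi_injective (h : IsLocalIdem σ τ x ε r) (hε0 : ε ≠ 0)
    [FiniteDimensional ℂ H] [FiniteDimensional ℂ V]
    (hinv1 : ∀ a : H, (∀ w, σ w a = a) → ∃ c : ℂ, a = c • (1 : H))
    (hdim : finrank ℂ (invT σ (repV τ)) ≤ finrank ℂ (fixSub (repV τ) (stab τ x)) + 1) :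
    Function.Injective (psi σ τ) := by
  classical
  have hn := card_stab_ne_zero τ x
  set Y := fixSub (repV τ) (stab τ x) with hY
  -- the vectors coming from the fixed space
  let f : Y →ₗ[ℂ] invT σ (repV τ) := (sumT σ (repV τ) ε ∘ₗ Y.subtype).codRestrict
    (invT σ (repV τ)) fun v => sumT_mem (repV τ) _
  have hf : ∀ v : Y, mulT ε (f v : H ⊗[ℂ] V) =
      ((Finset.univ.filter fun w : W => τ w x = x).card : ℂ) • (ε ⊗ₜ[ℂ] (v : V)) := fun v =>
    h.mulT_sumT (repV τ) v.2
  have hfinj : Function.Injective f := by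
    rw [injective_iff_map_eq_zero]
    intro v hv
    have h2 := hf v
    rw [hv] at h2
    have h2' : (0 : H ⊗[ℂ] V) =
        ((Finset.univ.filter fun w : W => τ w x = x).card : ℂ) • (ε ⊗ₜ[ℂ] (v : V)) := by
      rw [← h2]; exact (map_zero _).symm
    have h3 := (smul_eq_zero.1 h2'.symm).resolve_left hn
    rw [← TensorProduct.tmul_zero (R := ℂ) V ε] at h3
    exact Subtype.ext (tmul_injective hε0 h3)
  have hle : finrank ℂ Y ≤ finrank ℂ (invT σ (repV τ)) :=
    LinearMap.finrank_le_finrank_of_injective hfinj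
  -- it suffices to find a family with nonzero product
  suffices hsuff : ∀ m : ℕ, finrank ℂ (invT σ (repV τ)) = m →
      ∃ u : Fin m → invT σ (repV τ), (List.ofFn fun i => jV H V (u i : H ⊗[ℂ] V)).prod ≠ 0 by
    obtain ⟨u, hu⟩ := hsuff _ rfl
    let u' : Fin (finrank ℂ (invT σ (repV τ))) → invOne σ τ := fun i => oneEquiv σ τ (u i)
    have h1 : psi σ τ (ExteriorAlgebra.ιMulti ℂ _ u') ≠ 0 := by
      intro h0
      apply hu
      have h2 := congrArg Subtype.val h0
      rw [psi_ιMulti] at h2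
      exact h2
    have h3 : ExteriorAlgebra.ιMulti ℂ _ u' ≠ 0 := by
      intro h0
      rw [h0, map_zero] at h1
      exact h1 rfl
    have hli : LinearIndependent ℂ u' := by
      by_contra hcon
      exact h3 (AlternatingMap.map_linearDependent _ _ hcon)
    have hfr : Fintype.card (Fin (finrank ℂ (invT σ (repV τ)))) = finrank ℂ (invOne σ τ) := by
      rw [Fintype.card_fin, finrank_invOne]
    have hfin : FiniteDimensional ℂ (invOne σ τ) := inferInstance
    let bu := basisOfLinearIndependentOfCardEqFinrank' (K := ℂ) u' hli hfr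
    have hbu : (bu : _ → invOne σ τ) = u' :=
      coe_basisOfLinearIndependentOfCardEqFinrank' u' hli hfr
    apply injective_of_top bu
    rw [hbu]; exact h1
  intro m hm
  rcases Nat.lt_or_ge (finrank ℂ Y) m with hlt | hge
  · -- one more vector is needed
    have hm' : m = finrank ℂ Y + 1 := by omega
    subst hm'
    -- a vector outside the image of the fixed space
    have hne : LinearMap.range f ≠ ⊤ := by
      intro htop
      have h4 := LinearMap.finrank_range_of_inj hfinj
      rw [htop, finrank_top] at h4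
      omega
    obtain ⟨u, hu⟩ : ∃ u, u ∉ LinearMap.range f := by
      by_contra hcon
      push Not at hcon
      exact hne (eq_top_iff.2 fun z _ => hcon z)
    let b : Basis (Fin (finrank ℂ Y)) ℂ Y := finBasis ℂ Y
    let v : Fin (finrank ℂ Y) → V := fun i => (b i : V)
    have hvli : LinearIndependent ℂ v := b.linearIndependent.map' _ (Submodule.ker_subtype _)
    refine ⟨Fin.cons u (fun i => f (b i)), ?_⟩
    rw [List.ofFn_succ, List.prod_cons]
    simp only [Fin.cons_zero, Fin.cons_succ]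
    intro hzero
    have h5 := congrArg (mulT ε) hzero
    rw [map_zero, mulT_mul_of_idem h.idem, mulT_jV,
      mulT_prod h.idem (fun i => (f (b i) : H ⊗[ℂ] V)) v _ (fun i => hf (b i)),
      mul_smul_comm, smul_eq_zero] at h5
    have h6 := h5.resolve_left (pow_ne_zero _ hn)
    rw [jV_mul_tmul] at h6
    set ω := ExteriorAlgebra.ιMulti ℂ (finrank ℂ Y) v with hω
    rw [← lTensor_mulT, mulT_mulT, h.idem] at h6
    -- the projection along the fixed space
    set Q := Finset.univ.filter (fun w : W => τ w x = x) with hQ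
    let av : V →ₗ[ℂ] V := (Q.card : ℂ)⁻¹ • ∑ q ∈ Q, (τ q : V →ₗ[ℂ] V)
    have hker : LinearMap.ker (wedgeR ω) ≤ LinearMap.ker (LinearMap.id - av) := by
      intro w hw
      rw [LinearMap.mem_ker, wedgeR_apply] at hw
      have h7 : ExteriorAlgebra.ιMulti ℂ _ (Fin.cons w v : Fin (finrank ℂ Y + 1) → V) = 0 := by
        rw [ExteriorAlgebra.ιMulti_succ_apply]
        simpa [Matrix.vecTail, Function.comp_def] using hw
      have h8 : ¬ LinearIndependent ℂ (Fin.cons w v : Fin (finrank ℂ Y + 1) → V) := fun h9 =>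
        ιMulti_ne_zero_of_linearIndependent _ h9 h7
      have hwY : w ∈ Y := by
        by_contra hwY
        apply h8
        rw [linearIndependent_finCons]
        refine ⟨hvli, fun h10 => hwY ?_⟩
        have h11 : Submodule.span ℂ (Set.range v) ≤ Y := by
          rw [Submodule.span_le]
          rintro _ ⟨i, rfl⟩
          exact (b i).2
        exact h11 h10
      rw [LinearMap.mem_ker, LinearMap.sub_apply, LinearMap.id_apply, sub_eq_zero]
      simp only [av, LinearMap.smul_apply, LinearMap.sum_apply]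
      rw [Finset.sum_congr rfl (g := fun _ => w)]
      · rw [Finset.sum_const, ← Nat.cast_smul_eq_nsmul ℂ, smul_smul, inv_mul_cancel₀ hn, one_smul]
      · intro q hq
        exact hwY q (Finset.mem_filter.1 hq).2
    obtain ⟨G, hG⟩ := exists_comp_of_ker_le _ _ hker
    have h12 : LinearMap.lTensor H (LinearMap.id - av) (mulT ε (u : H ⊗[ℂ] V)) = 0 := by
      rw [hG, LinearMap.lTensor_comp, LinearMap.comp_apply, h6, map_zero]
    have h13 : LinearMap.lTensor H av (mulT ε (u : H ⊗[ℂ] V)) = mulT ε (u : H ⊗[ℂ] V) := by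
      rw [LinearMap.lTensor_sub, LinearMap.sub_apply, LinearMap.lTensor_id, LinearMap.id_apply,
        sub_eq_zero] at h12
      exact h12.symm
    have hτav : ∀ q, τ q x = x → (τ q : V →ₗ[ℂ] V) ∘ₗ av = av := by
      intro q hq
      ext z
      simp only [av, LinearMap.comp_apply, LinearMap.smul_apply, LinearMap.sum_apply, map_smul,
        map_sum]
      congr 1
      refine Finset.sum_bij (fun w _ => q * w) ?_ ?_ ?_ ?_
      · intro w hw
        simp only [hQ, Finset.mem_filter, Finset.mem_univ, true_and] at hw ⊢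
        rw [map_mul, LinearEquiv.mul_apply, hw, hq]
      · intro a _ b _ h; exact mul_left_cancel h
      · intro w hw
        refine ⟨q⁻¹ * w, ?_, by simp⟩
        simp only [hQ, Finset.mem_filter, Finset.mem_univ, true_and] at hw ⊢
        exact (stab τ x).mul_mem ((stab τ x).inv_mem hq) hw
      · intro w _
        rw [map_mul]; rfl
    have hfix : ∀ q, τ q x = x →
        LinearMap.lTensor H (τ q : V →ₗ[ℂ] V) (mulT ε (u : H ⊗[ℂ] V)) =
          mulT ε (u : H ⊗[ℂ] V) := by
      intro q hq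
      conv_lhs => rw [← h13]
      rw [← LinearMap.comp_apply, ← LinearMap.lTensor_comp, hτav q hq, h13]
    obtain ⟨v', hv', huv⟩ := h.mem_range hε0 hinv1 u.2 hfix
    exact hu ⟨⟨v', hv'⟩, Subtype.ext huv.symm⟩
  · -- the fixed space gives a basis
    have hm' : m = finrank ℂ Y := le_antisymm hge (hm ▸ hle)
    clear hge
    subst hm'
    obtain ⟨b⟩ : Nonempty (Basis (Fin (finrank ℂ Y)) ℂ Y) := ⟨finBasis ℂ Y⟩
    have hvli : LinearIndependent ℂ (fun i => (b i : V)) :=
      b.linearIndependent.map' _ (Submodule.ker_subtype _)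
    refine ⟨fun i => f (b i), ?_⟩
    intro hzero
    have h5' := mulT_prod h.idem (fun i => ((f (b i) : invT σ (repV τ)) : H ⊗[ℂ] V))
      (fun i => (b i : V)) _ (fun i => hf (b i))
    rw [hzero, mulT_zero'] at h5'
    have h6 := (smul_eq_zero.1 h5'.symm).resolve_left (pow_ne_zero _ hn)
    exact ιMulti_ne_zero_of_linearIndependent _ hvli (tmul_injective hε0
      (h6.trans (TensorProduct.tmul_zero (R := ℂ) (ExteriorAlgebra ℂ V) ε).symm))

end Point

end Pool.Agent.Helper664_Ext
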